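import Mathlib
import Pool.Agent.W326.DU.Defs
import Pool.Agent.W304.DU.EX

/-!
# Exactness of the Salvetti type complex in all degrees
-/

set_option autoImplicit false
set_option linter.unusedSectionVars false

namespace Pool.Agent.H77RA

open Finset Pool.Agent.W326.DU

section

variable {V : Type} [Fintype V] [LinearOrder V]

/-- the sign -/
def sgn (v : V) (T : Finset V) : ℤ := (-1) ^ (T.filter (fun u => u < v)).card

theorem sgn_insert {u v : V} {T : Finset V} (hu : u ∉ T) :
    sgn v (insert u T) = (if u < v then -1 else 1) * sgn v T := by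
  unfold sgn
  rw [filter_insert]
  split_ifs with h
  · rw [card_insert_of_notMem (fun h2 => hu (mem_filter.mp h2).1), pow_succ]
    ring
  · rw [one_mul]

variable {M : Type} [AddCommGroup M] (G : SimpleGraph V) (R : V → M →+ M)

/-- the differential -/
def bdR (z : Finset V → M) (τ : Finset V) : M := ∑ v ∈ τᶜ, sgn v τ • R v (z (insert v τ))

theorem bdR_add (z w : Finset V → M) (τ : Finset V) : bdR R (z + w) τ = bdR R z τ + bdR R w τ := by
  unfold bdR
  rw [← sum_add_distrib]
  refine sum_congr rfl fun v _ => ?_
  rw [Pi.add_apply, map_add, smul_add]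

theorem bdR_sub (z w : Finset V → M) (τ : Finset V) : bdR R (z - w) τ = bdR R z τ - bdR R w τ := by
  unfold bdR
  rw [← sum_sub_distrib]
  refine sum_congr rfl fun v _ => ?_
  rw [Pi.sub_apply, map_sub, smul_sub]

variable {G R}

theorem sum_antisymm_zero (S : Finset V) (F : V → V → M) (hF : ∀ u w, u ≠ w → F u w + F w u = 0) :
    ∑ u ∈ S, ∑ w ∈ S.erase u, F u w = 0 := by
  rw [sum_sigma']
  refine sum_involution (fun x _ => ⟨x.2, x.1⟩) ?_ ?_ ?_ ?_
  · rintro ⟨u, w⟩ h
    simp only [mem_sigma, mem_erase] at h
    exact hF u w h.2.1.symm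
  · rintro ⟨u, w⟩ h _ he
    simp only [mem_sigma, mem_erase] at h
    simp only [Sigma.mk.injEq, heq_eq_eq] at he
    exact h.2.1 he.1
  · rintro ⟨u, w⟩ h
    simp only [mem_sigma, mem_erase] at h ⊢
    exact ⟨h.2.2, h.2.1.symm, h.1⟩
  · rintro ⟨u, w⟩ _
    rfl

theorem bdR_bdR (hR : ∀ a b, G.Adj a b → ∀ x, R a (R b x) = R b (R a x)) {z : Finset V → M}
    (hz : ∀ T, z T ≠ 0 → G.IsClique (T : Set V)) : bdR R (bdR R z) = 0 := by
  funext τ
  have h1 : bdR R (bdR R z) τ = ∑ u ∈ τᶜ, ∑ w ∈ τᶜ.erase u,
      (sgn u τ * sgn w (insert u τ)) • R u (R w (z (insert w (insert u τ)))) := by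
    unfold bdR
    refine sum_congr rfl fun u hu => ?_
    have h2 : (insert u τ)ᶜ = τᶜ.erase u := by
      ext a; simp only [mem_compl, mem_insert, mem_erase]; tauto
    rw [h2, map_sum, smul_sum]
    refine sum_congr rfl fun w _ => ?_
    rw [map_zsmul, smul_smul]
  rw [h1, Pi.zero_apply]
  have h3 : ∀ u ∈ τᶜ, ∀ w ∈ τᶜ.erase u, (sgn u τ * sgn w (insert u τ)) • R u (R w (z (insert w (insert u τ)))) =
      (sgn u τ * sgn w τ * (if u < w then -1 else 1)) • R u (R w (z (insert w (insert u τ)))) := by
    intro u hu w _
    rw [sgn_insert (mem_compl.mp hu)]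
    congr 1
    ring
  rw [sum_congr rfl fun u hu => sum_congr rfl fun w hw => h3 u hu w hw]
  refine sum_antisymm_zero τᶜ (fun u w => (sgn u τ * sgn w τ * (if u < w then -1 else 1)) •
    R u (R w (z (insert w (insert u τ))))) ?_
  intro u w huw
  rw [Finset.insert_comm u w]
  by_cases h0 : z (insert w (insert u τ)) = 0
  · rw [h0]; simp
  · have hcl := hz _ h0
    have hadj : G.Adj u w := hcl (by simp) (by simp) huw
    rw [hR u w hadj, ← add_smul]
    have : sgn u τ * sgn w τ * (if u < w then -1 else 1) + sgn w τ * sgn u τ * (if w < u then -1 else 1) = 0 := by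
      rcases lt_or_gt_of_ne huw with h | h
      · rw [if_pos h, if_neg (not_lt.mpr h.le)]; ring
      · rw [if_neg (not_lt.mpr h.le), if_pos h]; ring
    rw [this, zero_smul]

/-- chains of cliques of `S` with `n` vertices -/
def Sup (G : SimpleGraph V) (S : Finset V) (n : ℕ) (z : Finset V → M) : Prop :=
  ∀ T, z T ≠ 0 → T ⊆ S ∧ G.IsClique (T : Set V) ∧ T.card = n

theorem exact (hR : Reg G.Adj R) (S : Finset V) : ∀ (n : ℕ) (z : Finset V → M), 1 ≤ n → Sup G S n z →
    bdR R z = 0 → ∃ w, Sup G S (n + 1) w ∧ bdR R w = z := by
  classical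
  induction S using Finset.strongInduction with
  | H S ih =>
  intro n z hn hz hb
  rcases S.eq_empty_or_nonempty with hS | hS
  · refine ⟨0, fun T hT => absurd rfl hT, ?_⟩
    funext T
    by_contra h
    have h1 : z T ≠ 0 := by
      intro h0
      apply h
      rw [h0]
      unfold bdR
      simp
    obtain ⟨h2, _, h3⟩ := hz T h1
    rw [hS, subset_empty] at h2
    rw [h2, card_empty] at h3
    omega
  · set v := S.max' hS with hv
    have hvS : v ∈ S := max'_mem _ _
    have hlt : ∀ u ∈ S, u ≠ v → u < v := fun u hu huv => lt_of_le_of_ne (le_max' _ _ hu) huv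
    set S' := S.erase v with hS'
    set L := S'.filter (fun w => G.Adj w v) with hL
    have hS'S : S' ⊂ S := erase_ssubset hvS
    have hLS' : L ⊆ S' := filter_subset _ _
    have hLS : L ⊂ S := lt_of_le_of_lt hLS' hS'S
    have hvS' : v ∉ S' := notMem_erase _ _
    have hvL : v ∉ L := fun h => hvS' (hLS' h)
    set y : Finset V → M := fun ρ => if v ∈ ρ then 0 else z (insert v ρ) with hy
    have hysup : ∀ ρ, y ρ ≠ 0 → ρ ⊆ L ∧ G.IsClique (ρ : Set V) ∧ ρ.card + 1 = n := by
      intro ρ hρ
      have h1 : v ∉ ρ := by
        intro h
        apply hρ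
        simp only [hy, if_pos h]
      have h2 : z (insert v ρ) ≠ 0 := by
        intro h
        apply hρ
        simp only [hy, if_neg h1, h]
      obtain ⟨h3, h4, h5⟩ := hz _ h2
      rw [card_insert_of_notMem h1] at h5
      refine ⟨?_, h4.subset (by simp), h5⟩
      intro u hu
      have huv : u ≠ v := fun h => h1 (h ▸ hu)
      refine mem_filter.mpr ⟨mem_erase.mpr ⟨huv, h3 (mem_insert_of_mem hu)⟩, ?_⟩
      exact h4 (by simp [hu]) (by simp) huv
    -- a primitive of `y`
    obtain ⟨w1, hw1, hbw1⟩ : ∃ w1, Sup G L n w1 ∧ bdR R w1 = y := by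
      rcases Nat.lt_or_ge 1 n with h1 | h1
      · obtain ⟨m, rfl⟩ : ∃ m, n = m + 1 := ⟨n - 1, by omega⟩
        refine ih L hLS m y (by omega) ?_ ?_
        · intro T hT
          obtain ⟨h2, h3, h4⟩ := hysup T hT
          exact ⟨h2, h3, by omega⟩
        · funext ρ
          rw [Pi.zero_apply]
          by_cases hρ : v ∈ ρ
          · unfold bdR
            refine sum_eq_zero fun u _ => ?_
            have : y (insert u ρ) = 0 := by
              simp only [hy, if_pos (mem_insert_of_mem hρ)]
            rw [this, map_zero, smul_zero]
          · have h2 := congrFun hb (insert v ρ)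
            rw [Pi.zero_apply] at h2
            rw [← h2]
            unfold bdR
            have h3 : (insert v ρ)ᶜ = ρᶜ.erase v := by
              ext a; simp only [mem_compl, mem_insert, mem_erase]; tauto
            rw [h3, ← add_sum_erase ρᶜ _ (mem_compl.mpr hρ)]
            have h4 : y (insert v ρ) = 0 := by
              simp only [hy, if_pos (mem_insert_self v ρ)]
            rw [h4, map_zero, smul_zero, zero_add]
            refine sum_congr rfl fun u hu => ?_
            obtain ⟨huv, hu'⟩ := mem_erase.mp hu
            have h5 : y (insert u ρ) = z (insert v (insert u ρ)) := by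
              have : v ∉ insert u ρ := by
                rw [mem_insert, not_or]; exact ⟨huv.symm, hρ⟩
              simp only [hy, if_neg this]
            rw [h5, Finset.insert_comm]
            by_cases h0 : z (insert u (insert v ρ)) = 0
            · rw [h0, map_zero, smul_zero, smul_zero]
            · have h6 := hlt u ((hz _ h0).1 (mem_insert_self _ _)) huv
              rw [sgn_insert hρ, if_neg (not_lt.mpr h6.le), one_mul]
      · have hn1 : n = 1 := by omega
        subst hn1
        have h2 : R v (z {v}) ∈ Im R (S' : Set V) := by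
          have h3 := congrFun hb ∅
          unfold bdR at h3
          rw [Pi.zero_apply, ← add_sum_erase (∅ᶜ : Finset V) _ (by simp : v ∈ (∅ᶜ : Finset V))] at h3
          have h4 : sgn v (∅ : Finset V) = 1 := by simp [sgn]
          rw [h4, one_smul] at h3
          have h5 : R v (z {v}) = - ∑ x ∈ (∅ᶜ : Finset V).erase v, sgn x ∅ • R x (z (insert x ∅)) :=
            eq_neg_of_add_eq_zero_left h3
          rw [h5]
          apply neg_mem
          apply sum_mem
          intro u hu
          obtain ⟨huv, _⟩ := mem_erase.mp hu
          by_cases h0 : z (insert u ∅) = 0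
          · rw [h0, map_zero, smul_zero]; exact zero_mem _
          · have h6 : u ∈ S := (hz _ h0).1 (mem_insert_self _ _)
            exact zsmul_mem (Pool.Agent.W304.DU.range_mem_Im R _ u (mem_coe.mpr (mem_erase.mpr ⟨huv, h6⟩)) _) _
        have h3 := hR.star (S' : Set V) v (fun h => hvS' (mem_coe.mp h)) _ h2
        obtain ⟨c, hc, hc'⟩ := Pool.Agent.W304.DU.mem_Im R _ _ h3
        refine ⟨fun T => ∑ w, if T = {w} then c w else 0, ?_, ?_⟩
        · intro T hT
          obtain ⟨w, _, hw⟩ := exists_ne_zero_of_sum_ne_zero hT
          split_ifs at hw with h4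
          · have h5 : w ∈ L := by
              by_contra h6
              apply hw
              apply hc
              rintro ⟨h7, h8⟩
              exact h6 (mem_filter.mpr ⟨mem_coe.mp h7, h8⟩)
            refine ⟨?_, ?_, ?_⟩
            · rw [h4, singleton_subset_iff]; exact h5
            · rw [h4]; simp
            · rw [h4, card_singleton]
          · exact absurd rfl hw
        · funext ρ
          rcases ρ.eq_empty_or_nonempty with hρ | hρ
          · subst hρ
            unfold bdR
            have h4 : y ∅ = z {v} := by
              simp only [hy, if_neg (notMem_empty v)]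
              rfl
            rw [h4, hc']
            have h5 : (∅ᶜ : Finset V) = univ := by simp
            rw [h5]
            refine sum_congr rfl fun u _ => ?_
            have h6 : sgn u (∅ : Finset V) = 1 := by simp [sgn]
            rw [h6, one_smul]
            congr 1
            change (∑ w, if (insert u (∅ : Finset V)) = ({w} : Finset V) then c w else 0) = c u
            rw [sum_eq_single u]
            · exact if_pos rfl
            · intro w _ hwu
              rw [if_neg]
              intro h7
              have h8 : u ∈ ({w} : Finset V) := by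
                rw [← h7]; exact mem_insert_self _ _
              exact hwu (mem_singleton.mp h8).symm
            · intro h; exact absurd (mem_univ _) h
          · have h4 : y ρ = 0 := by
              by_contra h5
              have := (hysup ρ h5).2.2
              have := card_pos.mpr hρ
              omega
            rw [h4]
            unfold bdR
            refine sum_eq_zero fun u hu => ?_
            change sgn u ρ • R u (∑ w, if insert u ρ = {w} then c w else 0) = 0
            rw [sum_eq_zero, map_zero, smul_zero]
            intro w _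
            rw [if_neg]
            intro h5
            have h6 := congrArg card h5
            rw [card_insert_of_notMem (mem_compl.mp hu), card_singleton] at h6
            have := card_pos.mpr hρ
            omega
    -- the cone
    set W : Finset V → M := fun T => if v ∈ T then w1 (T.erase v) else 0 with hW
    have hWsup : Sup G S (n + 1) W := by
      intro T hT
      have h1 : v ∈ T := by
        by_contra h
        apply hT
        simp only [hW, if_neg h]
      have h2 : w1 (T.erase v) ≠ 0 := by
        intro h
        apply hT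
        simp only [hW, if_pos h1, h]
      obtain ⟨h3, h4, h5⟩ := hw1 _ h2
      rw [card_erase_of_mem h1] at h5
      have h6 := card_pos.mpr ⟨v, h1⟩
      refine ⟨?_, ?_, by omega⟩
      · intro u hu
        by_cases huv : u = v
        · rw [huv]; exact hvS
        · exact mem_of_mem_erase (hLS' (h3 (mem_erase.mpr ⟨huv, hu⟩)))
      · intro a ha b hb hab
        rw [mem_coe] at ha hb
        by_cases hav : a = v
        · have hbv : b ≠ v := fun h => hab (hav.trans h.symm)
          have := (mem_filter.mp (h3 (mem_erase.mpr ⟨hbv, hb⟩))).2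
          rw [hav]
          exact this.symm
        · by_cases hbv : b = v
          · have := (mem_filter.mp (h3 (mem_erase.mpr ⟨hav, ha⟩))).2
            rw [hbv]
            exact this
          · exact h4 (mem_coe.mpr (mem_erase.mpr ⟨hav, ha⟩)) (mem_coe.mpr (mem_erase.mpr ⟨hbv, hb⟩)) hab
    have hbW1 : ∀ τ, v ∉ τ → bdR R W τ = sgn v τ • R v (w1 τ) := by
      intro τ hτ
      unfold bdR
      rw [sum_eq_single v]
      · have : W (insert v τ) = w1 τ := by
          simp only [hW, if_pos (mem_insert_self v τ), erase_insert hτ]
        rw [this]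
      · intro u _ huv
        have : W (insert u τ) = 0 := by
          have h1 : v ∉ insert u τ := by
            rw [mem_insert, not_or]; exact ⟨huv.symm, hτ⟩
          simp only [hW, if_neg h1]
        rw [this, map_zero, smul_zero]
      · intro h; exact absurd (mem_compl.mpr hτ) h
    have hbW2 : ∀ τ, v ∈ τ → bdR R W τ = z τ := by
      intro τ hτ
      have h1 : y (τ.erase v) = z τ := by
        simp only [hy, if_neg (notMem_erase v τ), insert_erase hτ]
      rw [← h1, ← hbw1]
      unfold bdR
      have h2 : (τ.erase v)ᶜ = insert v τᶜ := by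
        ext a; simp only [mem_compl, mem_insert, mem_erase]; tauto
      rw [h2, sum_insert (by simp [hτ])]
      have h3 : w1 (insert v (τ.erase v)) = 0 := by
        by_contra h
        exact hvL ((hw1 _ h).1 (mem_insert_self _ _))
      rw [h3, map_zero, smul_zero, zero_add]
      refine sum_congr rfl fun u hu => ?_
      have huτ : u ∉ τ := mem_compl.mp hu
      have huv : u ≠ v := fun h => huτ (h ▸ hτ)
      have h4 : W (insert u τ) = w1 (insert u (τ.erase v)) := by
        simp only [hW, if_pos (mem_insert_of_mem hτ)]
        rw [erase_insert_of_ne huv]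
      rw [h4]
      by_cases h0 : w1 (insert u (τ.erase v)) = 0
      · rw [h0, map_zero, smul_zero, smul_zero]
      · have h5 : u ∈ L := (hw1 _ h0).1 (mem_insert_self _ _)
        have h6 := hlt u (mem_of_mem_erase (hLS' h5)) huv
        have h7 : sgn u τ = sgn u (τ.erase v) := by
          conv_lhs => rw [← insert_erase hτ]
          rw [sgn_insert (notMem_erase v τ), if_neg (not_lt.mpr h6.le), one_mul]
        rw [h7]
    obtain ⟨w2, hw2, hbw2⟩ := ih S' hS'S n (z - bdR R W) hn (by
      intro T hT
      by_cases hvT : v ∈ T
      · exfalso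
        apply hT
        rw [Pi.sub_apply, hbW2 T hvT, sub_self]
      · rw [Pi.sub_apply, hbW1 T hvT] at hT
        by_cases h0 : z T = 0
        · have h1 : w1 T ≠ 0 := by
            intro h
            apply hT
            rw [h0, h, map_zero, smul_zero, sub_zero]
          obtain ⟨h2, h3, h4⟩ := hw1 T h1
          exact ⟨h2.trans hLS', h3, h4⟩
        · obtain ⟨h2, h3, h4⟩ := hz T h0
          refine ⟨fun u hu => mem_erase.mpr ⟨fun h => hvT (h ▸ hu), h2 hu⟩, h3, h4⟩) (by
      funext τ
      rw [bdR_sub, hb, bdR_bdR hR.comm (fun T hT => (hWsup T hT).2.1)]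
      simp)
    refine ⟨W + w2, ?_, ?_⟩
    · intro T hT
      by_cases h0 : W T = 0
      · have h1 : w2 T ≠ 0 := by
          intro h
          apply hT
          rw [Pi.add_apply, h0, h, add_zero]
        obtain ⟨h2, h3, h4⟩ := hw2 T h1
        exact ⟨h2.trans (erase_subset _ _), h3, h4⟩
      · exact hWsup T h0
    · funext τ
      rw [bdR_add, hbw2, Pi.sub_apply]
      abel

end

end Pool.Agent.H77RA
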