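import Mathlib
import Pool.Agent.W326.DU.Defs

/-!
# Maps into a contractible space with a properly discontinuous action of a right-angled Artin group
-/

set_option autoImplicit false
set_option linter.unusedSectionVars false

namespace Pool.Agent.H77RA

open Finset Pool.Agent.W326.DU

section fold

variable {Γ W Y : Type} [Group Γ] [TopologicalSpace W] [MulAction Γ W] [ContinuousConstSMul Γ W]
  [TopologicalSpace Y]

/-- one step: move along a translate of the contraction -/
def stepF (H : C(unitInterval × W, W)) (γ : Γ) (t : unitInterval) (w : W) : W := γ • H (t, γ⁻¹ • w)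

/-- successive steps -/
def foldF (H : C(unitInterval × W, W)) : List (Γ × (Y → unitInterval)) → Y → W → W
  | [], _, w => w
  | (q :: l), y, w => stepF H q.1 (q.2 y) (foldF H l y w)

theorem stepF_cont (H : C(unitInterval × W, W)) (γ : Γ) :
    Continuous (fun x : unitInterval × W => stepF H γ x.1 x.2) := by
  unfold stepF
  exact (H.continuous.comp (continuous_fst.prodMk (continuous_snd.const_smul _))).const_smul _

theorem foldF_cont (H : C(unitInterval × W, W)) (l : List (Γ × (Y → unitInterval)))
    (hl : ∀ q ∈ l, Continuous q.2) (w : W) : Continuous (fun y => foldF H l y w) := by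
  induction l with
  | nil => exact continuous_const
  | cons q l ih =>
    have h1 := ih fun q' hq' => hl q' (List.mem_cons_of_mem _ hq')
    have h2 := hl q List.mem_cons_self
    exact (stepF_cont H q.1).comp (h2.prodMk h1)

/-- the compact sets -/
def KK (H : C(unitInterval × W, W)) (p : W) (S : Set Γ) : ℕ → Set W
  | 0 => (fun h : Γ => h • p) '' S
  | m + 1 => KK H p S m ∪ ⋃ h ∈ S, (fun x : unitInterval × W => stepF H h x.1 x.2) '' (Set.univ ×ˢ KK H p S m)

theorem KK_compact (H : C(unitInterval × W, W)) (p : W) {S : Set Γ} (hS : S.Finite) (m : ℕ) :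
    IsCompact (KK H p S m) := by
  induction m with
  | zero => exact (hS.image _).isCompact
  | succ m ih =>
    refine ih.union (hS.isCompact_biUnion fun h _ => ?_)
    exact (isCompact_univ.prod ih).image (stepF_cont H h)

theorem KK_mono (H : C(unitInterval × W, W)) (p : W) (S : Set Γ) {m m' : ℕ} (h : m ≤ m') :
    KK H p S m ⊆ KK H p S m' := by
  induction m', h using Nat.le_induction with
  | base => exact subset_rfl
  | succ k _ ih => exact ih.trans Set.subset_union_left

open Classical in
theorem foldF_mem (H : C(unitInterval × W, W)) (p : W) (hH0 : ∀ w, H (0, w) = w) (hH1 : ∀ w, H (1, w) = p)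
    (S : Set Γ) (l : List (Γ × (Y → unitInterval))) (y : Y) (γ0 : Γ)
    (hS : ∀ q ∈ l, q.2 y ≠ 0 → γ0⁻¹ * q.1 ∈ S) (hex : ∃ q ∈ l, q.2 y = 1) (w : W) :
    γ0⁻¹ • foldF H l y w ∈ KK H p S (l.countP (fun q => decide (q.2 y ≠ 0))) := by
  induction l with
  | nil =>
    obtain ⟨q, hq, _⟩ := hex
    exact absurd hq List.not_mem_nil
  | cons q l ih =>
    have hS' : ∀ q' ∈ l, q'.2 y ≠ 0 → γ0⁻¹ * q'.1 ∈ S := fun q' hq' => hS q' (List.mem_cons_of_mem _ hq')
    rw [List.countP_cons]
    by_cases h0 : q.2 y = 0
    · have h1 : foldF H (q :: l) y w = foldF H l y w := by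
        simp only [foldF]
        rw [stepF, h0, hH0, smul_inv_smul]
      rw [h1, if_neg (by simp [h0]), add_zero]
      refine ih hS' ?_
      obtain ⟨q', hq', hq1⟩ := hex
      rcases List.mem_cons.mp hq' with h2 | h2
      · rw [h2, h0] at hq1
        exact absurd hq1 zero_ne_one
      · exact ⟨q', h2, hq1⟩
    · have hq := hS q List.mem_cons_self h0
      rw [if_pos (by simp [h0])]
      by_cases h1 : q.2 y = 1
      · have h2 : foldF H (q :: l) y w = q.1 • p := by
          simp only [foldF]
          rw [stepF, h1, hH1]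
        rw [h2, smul_smul]
        exact KK_mono H p S (Nat.zero_le _) ⟨_, hq, rfl⟩
      · have hex' : ∃ q' ∈ l, q'.2 y = 1 := by
          obtain ⟨q', hq', hq1⟩ := hex
          rcases List.mem_cons.mp hq' with h2 | h2
          · rw [h2] at hq1
            exact absurd hq1 h1
          · exact ⟨q', h2, hq1⟩
        have h2 := ih hS' hex'
        right
        rw [Set.mem_iUnion₂]
        refine ⟨_, hq, (q.2 y, γ0⁻¹ • foldF H l y w), ⟨Set.mem_univ _, h2⟩, ?_⟩
        simp only [foldF]
        unfold stepF
        rw [smul_smul, smul_smul, mul_inv_rev, inv_inv, mul_assoc, mul_inv_cancel, mul_one]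

end fold

section lattice

variable {V : Type} [Fintype V] [DecidableEq V] (G : SimpleGraph V)

theorem gen_comm {u v : V} (h : G.Adj u v) : Commute (gen G.Adj u) (gen G.Adj v) := by
  have h1 : (PresentedGroup.mk (rels G.Adj)) (FreeGroup.of u * FreeGroup.of v * (FreeGroup.of u)⁻¹ * (FreeGroup.of v)⁻¹) = 1 := by
    apply PresentedGroup.one_of_mem
    exact ⟨u, v, h, rfl⟩
  simp only [map_mul, map_inv] at h1
  have h2 : gen G.Adj u * gen G.Adj v * (gen G.Adj u)⁻¹ * (gen G.Adj v)⁻¹ = 1 := h1
  rw [mul_inv_eq_one, mul_inv_eq_iff_eq_mul] at h2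
  exact h2

/-- the group element of a lattice point -/
noncomputable def gL (a : V → ℤ) : RAAG G.Adj := ((univ : Finset V).toList.map (fun v => gen G.Adj v ^ a v)).prod

theorem list_prod_mul {Γ : Type} [Group Γ] (l : List V) (f g : V → Γ) (h : ∀ u v, Commute (g u) (f v)) :
    (l.map (fun v => f v * g v)).prod = (l.map f).prod * (l.map g).prod := by
  induction l with
  | nil => simp
  | cons x l ih =>
    rw [List.map_cons, List.map_cons, List.map_cons, List.prod_cons, List.prod_cons, List.prod_cons, ih]
    have h1 : Commute (g x) (l.map f).prod := by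
      apply Commute.list_prod_right
      intro y hy
      obtain ⟨v, _, rfl⟩ := List.mem_map.mp hy
      exact h x v
    rw [mul_assoc, mul_assoc, ← mul_assoc (g x), h1.eq, mul_assoc]

theorem gL_add {a b : V → ℤ} (h : G.IsClique {v | a v ≠ 0 ∨ b v ≠ 0}) : gL G (a + b) = gL G a * gL G b := by
  unfold gL
  rw [← list_prod_mul]
  · simp only [Pi.add_apply, zpow_add]
  · intro u v
    by_cases ha : a v = 0
    · rw [ha, zpow_zero]; exact Commute.one_right _
    · by_cases hb : b u = 0
      · rw [hb, zpow_zero]; exact Commute.one_left _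
      · by_cases huv : u = v
        · rw [huv]; exact (Commute.refl (gen G.Adj v)).zpow_zpow _ _
        · exact (gen_comm G (h (x := u) (Or.inr hb) (y := v) (Or.inl ha) huv)).zpow_zpow _ _

theorem gL_zero : gL G 0 = 1 := by
  unfold gL
  simp

/-- exponent sum homomorphisms -/
noncomputable def chi (v : V) : RAAG G.Adj →* Multiplicative ℤ :=
  PresentedGroup.toGroup (f := fun u => Multiplicative.ofAdd (if u = v then (1 : ℤ) else 0)) (by
    rintro r ⟨a, b, _, rfl⟩
    simp only [map_mul, map_inv, FreeGroup.lift_apply_of]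
    rw [mul_comm (Multiplicative.ofAdd _) (Multiplicative.ofAdd _)]
    group)

theorem chi_gen (v u : V) : chi G v (gen G.Adj u) = Multiplicative.ofAdd (if u = v then (1 : ℤ) else 0) := by
  unfold chi gen
  exact PresentedGroup.toGroup.of _

theorem chi_gL (v : V) (a : V → ℤ) : chi G v (gL G a) = Multiplicative.ofAdd (a v) := by
  unfold gL
  rw [map_list_prod, List.map_map]
  have h1 : (⇑(chi G v) ∘ fun u => gen G.Adj u ^ a u) = fun u => Multiplicative.ofAdd (if u = v then a u else 0) := by
    funext u
    rw [Function.comp_apply, map_zpow, chi_gen, ← ofAdd_zsmul]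
    congr 1
    split_ifs <;> simp
  rw [h1, Finset.prod_map_toList, ← ofAdd_sum]
  simp

/-- the finite set of group elements -/
def SS : Set (RAAG G.Adj) :=
  (fun b : (V → ℤ) × (V → ℤ) × (V → ℤ) => gL G b.1 * gL G b.2.1 * gL G b.2.2) ''
    (Set.Icc (fun _ => -4) (fun _ => 4) ×ˢ Set.Icc (fun _ => -4) (fun _ => 4) ×ˢ Set.Icc (fun _ => -4) (fun _ => 4))

theorem SS_finite : (SS G).Finite :=
  Set.Finite.image _ ((Set.finite_Icc _ _).prod ((Set.finite_Icc _ _).prod (Set.finite_Icc _ _)))

theorem near_mem {a a' : V → ℤ} (ha : G.IsClique {v | a v ≠ 0}) (ha' : G.IsClique {v | a' v ≠ 0})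
    (h : ∀ v, |a v - a' v| ≤ 4) : (gL G a)⁻¹ * gL G a' ∈ SS G := by
  classical
  set aA : V → ℤ := fun v => if a' v = 0 then 0 else a v with haA
  set aB : V → ℤ := fun v => if a' v = 0 then a v else 0 with haB
  set bA : V → ℤ := fun v => if a v = 0 then 0 else a' v with hbA
  set bB : V → ℤ := fun v => if a v = 0 then a' v else 0 with hbB
  have e1 : aA + aB = a := by
    funext v; simp only [haA, haB, Pi.add_apply]; split_ifs <;> simp
  have e2 : bA + bB = a' := by
    funext v; simp only [hbA, hbB, Pi.add_apply]; split_ifs <;> simp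
  have h1 : gL G a = gL G aA * gL G aB := by
    rw [← gL_add, e1]
    refine ha.subset ?_
    intro v hv
    simp only [Set.mem_setOf_eq, haA, haB] at hv ⊢
    split_ifs at hv <;> tauto
  have h2 : gL G a' = gL G bA * gL G bB := by
    rw [← gL_add, e2]
    refine ha'.subset ?_
    intro v hv
    simp only [Set.mem_setOf_eq, hbA, hbB] at hv ⊢
    split_ifs at hv <;> tauto
  have h3 : gL G bA = gL G aA * gL G (bA - aA) := by
    rw [← gL_add, add_sub_cancel]
    refine ha.subset ?_
    intro v hv
    simp only [Set.mem_setOf_eq, haA, hbA, Pi.sub_apply] at hv ⊢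
    by_contra h4
    simp only [h4] at hv
    simp at hv
  have h4 : (gL G aB)⁻¹ = gL G (-aB) := by
    rw [inv_eq_iff_mul_eq_one, ← gL_add, add_neg_cancel, gL_zero]
    refine ha.subset ?_
    intro v hv
    simp only [Set.mem_setOf_eq, haB, Pi.neg_apply] at hv ⊢
    split_ifs at hv <;> simp at hv ⊢
    tauto
  refine ⟨(-aB, bA - aA, bB), ⟨?_, ?_, ?_⟩, ?_⟩
  · refine ⟨fun v => ?_, fun v => ?_⟩
    all_goals
      have h5 := abs_le.mp (h v)
      simp only [haB, Pi.neg_apply]
      split_ifs with h6
      · rw [h6] at h5; linarith [h5.1, h5.2]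
      · norm_num
  · refine ⟨fun v => ?_, fun v => ?_⟩
    all_goals
      have h5 := abs_le.mp (h v)
      simp only [haA, hbA, Pi.sub_apply]
      split_ifs with h6 h7 h7
      · norm_num
      · rw [h6]; norm_num
      · rw [h7]; norm_num
      · linarith [h5.1, h5.2]
  · refine ⟨fun v => ?_, fun v => ?_⟩
    all_goals
      have h5 := abs_le.mp (h v)
      simp only [hbB]
      split_ifs with h6
      · rw [h6] at h5; linarith [h5.1, h5.2]
      · norm_num
  · simp only
    rw [h1, h2, h3, mul_inv_rev, h4]
    group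

end lattice

end Pool.Agent.H77RA
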