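import Pool.Agent.H77RA.A2
import Pool.Agent.H77RA.D1
import Pool.Agent.N496.CV.Euler
import Pool.Agent.N496.CV.L2Pf

/-!
# The ranks of the differentials over the group von Neumann algebra
-/

set_option autoImplicit false
set_option linter.unusedSectionVars false

open scoped Matrix

namespace Pool.Agent.H77RA

open Finset Pool.Agent.W326.DU Pool.Agent.Helper655.VN Pool.Agent.RK

section nz

variable {K : Type} [Group K]

theorem ell_zero {g : K} (hg : Function.Injective (fun n : ℕ => g ^ n)) (ξ : EllTwo K)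
    (hξ : ∀ h, ξ (g⁻¹ * h) = ξ h) : ξ = 0 := by
  by_contra hne
  have h1 : ∃ h0, ξ h0 ≠ 0 := by
    by_contra h2
    push Not at h2
    apply hne
    ext h
    rw [h2 h]
    rfl
  obtain ⟨h0, hh0⟩ := h1
  have h2 : ∀ n : ℕ, ξ (g ^ n * h0) = ξ h0 := by
    intro n
    induction n with
    | zero => rw [pow_zero, one_mul]
    | succ n ih =>
      rw [← ih, ← hξ (g ^ (n + 1) * h0), pow_succ', ← mul_assoc, ← mul_assoc, inv_mul_cancel, one_mul]
  have h3 := (lp.memℓp ξ).summable (by norm_num)
  have h4 := h3.tendsto_cofinite_zero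
  have h5 : ∀ᶠ h in Filter.cofinite, ‖ξ h‖ ^ (2 : ENNReal).toReal < ‖ξ h0‖ ^ (2 : ENNReal).toReal := by
    refine h4.eventually (gt_mem_nhds ?_)
    have : 0 < ‖ξ h0‖ := norm_pos_iff.mpr hh0
    positivity
  rw [Filter.eventually_cofinite] at h5
  have h6 : Set.Infinite {h | ¬ ‖ξ h‖ ^ (2 : ENNReal).toReal < ‖ξ h0‖ ^ (2 : ENNReal).toReal} := by
    have h7 : Function.Injective (fun n : ℕ => g ^ n * h0) := by
      intro a b hab
      exact hg (mul_right_cancel hab)
    refine (Set.infinite_range_of_injective h7).mono ?_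
    rintro _ ⟨n, rfl⟩
    simp only [Set.mem_setOf_eq, h2]
    exact lt_irrefl _
  exact h6 h5

theorem nz_canL {g : K} (hg : Function.Injective (fun n : ℕ => g ^ n)) : Nz ((canL g : NG K) - 1) := by
  rw [Pool.Agent.RK.Nz.nz_iff (vn_NG (G := K))]
  intro x hx
  rw [sub_mul, one_mul, sub_eq_zero] at hx
  apply ext_NG
  apply ell_zero hg
  intro h
  have h1 := congrArg (fun y : NG K => (y : EllTwo K →L[ℂ] EllTwo K) (dl 1)) hx
  have h2 : lam K g ((x : EllTwo K →L[ℂ] EllTwo K) (dl 1)) = (x : EllTwo K →L[ℂ] EllTwo K) (dl 1) := h1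
  conv_rhs => rw [← h2]
  rfl

end nz

section

variable {V : Type} [Fintype V] [LinearOrder V] (G : SimpleGraph V)

theorem gen_inj (v : V) : Function.Injective (fun n : ℕ => gen G.Adj v ^ n) := by
  intro a b hab
  have h := congrArg (chi G v) hab
  simp only [map_pow, chi_gen, if_pos rfl, ← ofAdd_nsmul] at h
  have h1 := Multiplicative.ofAdd.injective h
  simpa using h1

/-- the elements `v - 1` of the group von Neumann algebra -/
noncomputable def fN (v : V) : NG (RAAG G.Adj) := canL (gen G.Adj v) - 1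

theorem fN_nz (v : V) : Nz (fN G v) := nz_canL (gen_inj G v)

theorem fN_comm {u v : V} (h : G.Adj u v) : Commute (fN G u) (fN G v) := by
  unfold fN
  have h1 : Commute (canL (gen G.Adj u) : NG (RAAG G.Adj)) (canL (gen G.Adj v)) := by
    have := (gen_comm G h).eq
    unfold Commute SemiconjBy
    rw [← map_mul, ← map_mul, this]
  exact (h1.sub_right (Commute.one_right _)).sub_left ((Commute.one_left _).sub_right (Commute.one_left _))

theorem fN_pair {T : Finset V} (hT : G.IsClique (T : Set V)) :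
    (T : Set V).Pairwise (Function.onFun Commute (fN G)) := by
  intro u hu v hv huv
  exact fN_comm G (hT hu hv huv)

/-- the products -/
noncomputable def Dp (T : Finset V) : NG (RAAG G.Adj) :=
  open Classical in if h : G.IsClique (T : Set V) then T.noncommProd (fN G) (fN_pair G h) else 1

theorem Dp_insert {T : Finset V} {v : V} (hv : v ∉ T) (h : G.IsClique ((insert v T : Finset V) : Set V)) :
    Dp G (insert v T) = fN G v * Dp G T := by
  have hT : G.IsClique (T : Set V) := h.subset (by simp)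
  unfold Dp
  rw [dif_pos h, dif_pos hT, Finset.noncommProd_insert_of_notMem _ _ _ _ hv]

theorem Dp_nz (T : Finset V) : Nz (Dp G T) := by
  classical
  induction T using Finset.induction_on with
  | empty =>
    unfold Dp
    rw [dif_pos (by simp)]
    intro x hx
    rw [Finset.noncommProd_empty, mul_one] at hx
    exact hx
  | insert v T hv ih =>
    by_cases h : G.IsClique ((insert v T : Finset V) : Set V)
    · rw [Dp_insert G hv h]
      exact Pool.Agent.RK.Nz.nz_mul _ _ (fN_nz G v) ih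
    · unfold Dp
      rw [dif_neg h]
      intro x hx
      rw [mul_one] at hx
      exact hx

/-- the diagonal matrix -/
noncomputable def DM (n : ℕ) : Matrix (Fin (Fintype.card (XC G n))) (Fin (Fintype.card (XC G n))) (NG (RAAG G.Adj)) :=
  Matrix.diagonal (fun i => Dp G ((ee G n).symm i).1)

/-- the boundary matrix of the clique complex -/
noncomputable def bM (A : Type) [Ring A] (n : ℕ) :
    Matrix (Fin (Fintype.card (XC G (n + 1)))) (Fin (Fintype.card (XC G n))) A :=
  dMat G (fun _ => (1 : A)) n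

theorem inc_map {A B : Type} [AddCommGroup A] [AddCommGroup B] (F : A →+ B) (f : V → A) {n : ℕ} (σ : XC G (n + 1))
    (τ : XC G n) : F (inc G f σ τ) = inc G (fun v => F (f v)) σ τ := by
  unfold inc
  rw [map_sum]
  refine sum_congr rfl fun v _ => ?_
  split_ifs
  · rw [map_zsmul]
  · rw [map_zero]

theorem bM_map {A B : Type} [Ring A] [Ring B] (F : A →+* B) (n : ℕ) : (bM G A n).map F = bM G B n := by
  ext i j
  change F (inc G (fun _ => (1 : A)) ((ee G (n + 1)).symm i) ((ee G n).symm j)) =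
    inc G (fun _ => (1 : B)) ((ee G (n + 1)).symm i) ((ee G n).symm j)
  have := inc_map G F.toAddMonoidHom (fun _ => (1 : A)) ((ee G (n + 1)).symm i) ((ee G n).symm j)
  simpa using this

theorem nm_eq (n : ℕ) : N496.CV.nm (raagRes G) n = dMat G (fN G) n := by
  ext1 i j
  unfold N496.CV.nm
  rw [Matrix.map_apply]
  change V7N.evM (canL : RAAG G.Adj →* NG (RAAG G.Adj))
    (inc G (fun v => MonoidAlgebra.of ℤ (RAAG G.Adj) (gen G.Adj v) - 1) ((ee G (n + 1)).symm i) ((ee G n).symm j)) = _
  have h := inc_map G (V7N.evM (canL : RAAG G.Adj →* NG (RAAG G.Adj))).toAddMonoidHom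
    (fun v => MonoidAlgebra.of ℤ (RAAG G.Adj) (gen G.Adj v) - 1) ((ee G (n + 1)).symm i) ((ee G n).symm j)
  have h2 : (fun v => (V7N.evM (canL : RAAG G.Adj →* NG (RAAG G.Adj))).toAddMonoidHom
      (MonoidAlgebra.of ℤ (RAAG G.Adj) (gen G.Adj v) - 1)) = fN G := by
    funext v
    change V7N.evM (canL : RAAG G.Adj →* NG (RAAG G.Adj)) (MonoidAlgebra.of ℤ (RAAG G.Adj) (gen G.Adj v) - 1) = _
    rw [map_sub, map_one]
    unfold V7N.evM fN
    congr 1
    simp
  rw [h2] at h
  exact h

theorem nm_DM (n : ℕ) : dMat G (fN G) n * DM G n = DM G (n + 1) * bM G (NG (RAAG G.Adj)) n := by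
  ext1 i j
  unfold DM
  rw [Matrix.mul_diagonal, Matrix.diagonal_mul]
  unfold bM dMat inc
  rw [sum_mul, mul_sum]
  refine sum_congr rfl fun v _ => ?_
  split_ifs with h
  · have hcl : G.IsClique ((insert v ((ee G n).symm j).1 : Finset V) : Set V) := by
      rw [h.2]; exact ((ee G (n + 1)).symm i).2.1
    rw [smul_mul_assoc, mul_smul_comm, mul_one, ← Dp_insert G h.1 hcl, h.2]
  · rw [zero_mul, mul_zero]

theorem rk_nm (n : ℕ) : rk (tau (RAAG G.Adj)) (N496.CV.nm (raagRes G) n) =
    rk (tau (RAAG G.Adj)) (bM G (NG (RAAG G.Adj)) n) := by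
  have h0 : rk (tau (RAAG G.Adj)) (N496.CV.nm (raagRes G) n) =
      rk (m := Fin (Fintype.card (XC G (n + 1)))) (n := Fin (Fintype.card (XC G n))) (tau (RAAG G.Adj))
        (dMat G (fN G) n) := by
    rw [nm_eq]
    rfl
  rw [h0, ← Pool.Agent.RK.RkInj.rk_mul_of_inj (vn_NG (G := RAAG G.Adj)) (dMat G (fN G) n) (DM G n), nm_DM,
    Pool.Agent.RK.RkInj.rk_mul_of_inj' (vn_NG (G := RAAG G.Adj))]
  · intro y hy
    funext i
    have h1 := congrFun hy i
    unfold DM at h1
    rw [Matrix.mulVec_diagonal] at h1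
    exact (Pool.Agent.RK.Nz.nz_iff (vn_NG (G := RAAG G.Adj)) _).mp (Dp_nz G _) _ h1
  · intro x hx
    funext i
    have h1 := congrFun hx i
    unfold DM at h1
    rw [Matrix.vecMul_diagonal] at h1
    exact Dp_nz G _ _ h1

/-- subadditivity of the rank -/
theorem rk_add_le {R : Type} [Ring R] [StarRing R] {τ : R →+ ℝ} (h : VN R τ) {m n : Type}
    [Fintype m] [Fintype n] (A B : Matrix m n R) : rk τ (A + B) ≤ rk τ A + rk τ B := by
  classical
  have h1 : A + B = Matrix.fromCols (1 : Matrix m m R) (1 : Matrix m m R) * Matrix.fromBlocks A 0 0 B *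
      Matrix.fromRows (1 : Matrix n n R) (1 : Matrix n n R) := by
    rw [Matrix.fromCols_mul_fromBlocks, Matrix.fromCols_mul_fromRows]
    simp
  rw [h1]
  refine (RkMul.rk_mul_left h _ _).trans ((RkMul.rk_mul_right h _ _).trans ?_)
  rw [RkSyl.rk_blocks h]

/-- **Criterion.** If an invertible matrix is the sum of two products through the differentials, the rank formula holds. -/
theorem rank_crit (n : ℕ)
    (H : Matrix (Fin (Fintype.card (XC G n))) (Fin (Fintype.card (XC G (n + 1)))) ℤ)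
    (H' : Matrix (Fin (Fintype.card (XC G (n + 1)))) (Fin (Fintype.card (XC G (n + 2)))) ℤ)
    (hdet : (bM G ℤ n * H + H' * bM G ℤ (n + 1)).det ≠ 0) :
    VN831.l2Betti (RAAG G.Adj) (n + 1) = 0 := by
  classical
  have hvn := vn_NG (G := RAAG G.Adj)
  rw [N496.CV.succ_iff (raagRes G) n]
  have hsyl := RkSyl.rk_sylvester hvn (N496.CV.nm (raagRes G) (n + 1)) (N496.CV.nm (raagRes G) n)
    (N496.CV.nm_mul (raagRes G) n)
  rw [Fintype.card_fin] at hsyl
  refine le_antisymm hsyl ?_
  rw [rk_nm, rk_nm]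
  set ι : ℤ →+* NG (RAAG G.Adj) := Int.castRingHom _ with hι
  set U := bM G ℤ n * H + H' * bM G ℤ (n + 1) with hU
  have h1 : rk (tau (RAAG G.Adj)) (U.map ι) = Fintype.card (Fin (Fintype.card (XC G (n + 1)))) := by
    rw [RkFull.rk_full_left hvn]
    intro x hx
    have h2 : U.map ι * (U.adjugate).map ι = (U.det : NG (RAAG G.Adj)) • (1 : Matrix _ _ (NG (RAAG G.Adj))) := by
      rw [← Matrix.map_mul, Matrix.mul_adjugate]
      ext1 i j
      rw [Matrix.map_apply, Matrix.smul_apply, Matrix.smul_apply]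
      by_cases hij : i = j
      · rw [hij, Matrix.one_apply_eq, Matrix.one_apply_eq]
        simp [hι]
      · rw [Matrix.one_apply_ne hij, Matrix.one_apply_ne hij]
        simp [hι]
    have h3 : Matrix.vecMul x (U.map ι * (U.adjugate).map ι) = 0 := by
      rw [← Matrix.vecMul_vecMul, hx, Matrix.zero_vecMul]
    rw [h2] at h3
    funext i
    have h4 := congrFun h3 i
    have h5 : Matrix.vecMul x ((U.det : NG (RAAG G.Adj)) • (1 : Matrix _ _ (NG (RAAG G.Adj)))) i =
        x i * (U.det : NG (RAAG G.Adj)) := by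
      have h6 : (U.det : NG (RAAG G.Adj)) • (1 : Matrix (Fin (Fintype.card (XC G (n + 1)))) (Fin (Fintype.card (XC G (n + 1)))) (NG (RAAG G.Adj))) =
          Matrix.diagonal (fun _ => (U.det : NG (RAAG G.Adj))) := by
        rw [← Matrix.smul_one_eq_diagonal]
      rw [h6, Matrix.vecMul_diagonal]
    rw [h5, Pi.zero_apply] at h4
    rw [Pi.zero_apply]
    have h7 : ((U.det : ℂ) • x i : NG (RAAG G.Adj)) = 0 := by
      rw [← h4]
      rw [← Int.cast_comm, Int.cast_smul_eq_zsmul, zsmul_eq_mul]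
    have h8 : (U.det : ℂ) ≠ 0 := by exact_mod_cast hdet
    rw [← inv_smul_smul₀ h8 (x i), h7, smul_zero]
  rw [Fintype.card_fin] at h1
  have h2 : U.map ι = bM G (NG (RAAG G.Adj)) n * H.map ι + H'.map ι * bM G (NG (RAAG G.Adj)) (n + 1) := by
    rw [hU, Matrix.map_add _ (map_add ι), Matrix.map_mul, Matrix.map_mul, bM_map, bM_map]
  rw [h2] at h1
  have h3 : ((raagRes G).r (n + 1) : ℝ) = (Fintype.card (XC G (n + 1)) : ℝ) := rfl
  rw [h3, ← h1]
  refine (rk_add_le hvn _ _).trans ?_
  have h4 := RkMul.rk_mul_left hvn (bM G (NG (RAAG G.Adj)) n) (H.map ι)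
  have h5 := RkMul.rk_mul_right hvn (H'.map ι) (bM G (NG (RAAG G.Adj)) (n + 1))
  linarith

end

end Pool.Agent.H77RA
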