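import Pool.Agent.H77RA.C2
import Pool.Agent.Y131.KS.Odd
import Pool.Agent.R782.Bal.Ex

/-!
# The chain map to the deleted join of the octahedralization
-/

set_option autoImplicit false
set_option linter.unusedSectionVars false

namespace Pool.Agent.H77RA

open Finset Pool.Agent.W555.KS Pool.Agent.Y131.KS Pool.Agent.R782.Bal

/-- the local condition at a vertex: is it in `P`, in `Q`, is the positive copy in `σ`, the negative copy in `σ`,
the positive copy in `τ`, the negative copy in `τ` -/
def loc : Bool → Bool → Bool → Bool → Bool → Bool → Bool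
  | false, false, a, b, c, d => !b && !d && !(a && c)
  | true, false, a, b, c, d => !d && (a != b) && !(a && c)
  | false, true, a, b, c, d => !b && (c != d) && !(a && c)
  | true, true, a, b, c, d => !b && !d && (a != c)

def lo (p q a b c d : Bool) : ZMod 2 := if loc p q a b c d then 1 else 0

theorem lo_swap : ∀ p q a b c d : Bool, lo p q a b c d = lo q p c d a b := by decide

theorem lo_ne : ∀ p q a b c d : Bool, lo p q a b c d ≠ 0 → loc p q a b c d = true := by decide

theorem local_id : ∀ (p q a b c d : Bool) (x x' y y' : ZMod 2), (a && c) = false → (b && d) = false →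
    ((a || b || (p && q)) = true → x' = x) → ((c || d || (p && q)) = true → y' = y) →
    (if (a || c) = true then 0 else x' * y * lo p q true b c d + x * y' * lo p q a b true d) +
    (if (b || d) = true then 0 else x' * y * lo p q a true c d + x * y' * lo p q a b c true) +
    ((if (a || b || (p && q)) = true then 0 else x' * y * lo p q a b c d) +
      (if (c || d || (p && q)) = true then 0 else x * y' * lo p q a b c d)) =
    if (p && q) = true then 0 else x' * y' * lo true true a b c d := by
  intro p q a b c d x x' y y' h1 h2 h3 h4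
  have e0 : (0 : ZMod 2) + 0 = 0 := rfl
  cases p <;> cases q <;> cases a <;> cases b <;> cases c <;> cases d <;>
    simp only [Bool.and_true, Bool.and_false, Bool.true_and, Bool.false_and, Bool.or_true, Bool.or_false,
      Bool.true_or, Bool.false_or, reduceCtorEq, false_implies, true_implies] at h1 h2 h3 h4 ⊢ <;>
    (try rw [h3]) <;> (try rw [h4]) <;>
    simp only [lo, loc] <;> clear h1 h2 h3 h4 <;> revert x x' y y' <;> decide

theorem sum_compl_ite {α : Type*} [Fintype α] [DecidableEq α] (S : Finset α) (f : α → ZMod 2) :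
    ∑ v ∈ Sᶜ, f v = ∑ v, if v ∈ S then 0 else f v := by
  have : Sᶜ = univ.filter (fun v => v ∉ S) := by ext; simp
  rw [this, sum_filter]
  refine sum_congr rfl fun v _ => ?_
  by_cases h : v ∈ S
  · rw [if_pos h, if_neg (not_not.mpr h)]
  · rw [if_neg h, if_pos h]

theorem sum_mem_ite {α : Type*} [Fintype α] [DecidableEq α] (S : Finset α) (f : α → ZMod 2) :
    ∑ v ∈ S, f v = ∑ v, if v ∈ S then f v else 0 := by
  rw [← sum_filter]
  congr 1
  ext; simp

variable {V : Type} [Fintype V] [LinearOrder V] {n : ℕ} (e : V × Bool ≃ Fin n)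

/-- projection of a set of signed vertices -/
def pr (σ : Finset (Fin n)) : Finset V := σ.image (fun i => (e.symm i).1)

theorem mem_pr {σ : Finset (Fin n)} {v : V} : v ∈ pr e σ ↔ e (v, true) ∈ σ ∨ e (v, false) ∈ σ := by
  unfold pr
  rw [mem_image]
  constructor
  · rintro ⟨i, hi, rfl⟩
    have h : e ((e.symm i).1, (e.symm i).2) = i := by simp
    rcases h2 : (e.symm i).2 with _ | _
    · right; rw [h2] at h; rw [h]; exact hi
    · left; rw [h2] at h; rw [h]; exact hi
  · rintro (h | h)
    · exact ⟨_, h, by simp⟩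
    · exact ⟨_, h, by simp⟩

theorem pr_insert (σ : Finset (Fin n)) (v : V) (s : Bool) : pr e (insert (e (v, s)) σ) = insert v (pr e σ) := by
  unfold pr
  rw [image_insert]
  simp

/-- the bit -/
def bt (σ : Finset (Fin n)) (v : V) (s : Bool) : Bool := decide (e (v, s) ∈ σ)

theorem bt_insert_self (σ : Finset (Fin n)) (v : V) (s : Bool) : bt e (insert (e (v, s)) σ) v s = true := by
  unfold bt
  simp

theorem bt_insert_of_ne (σ : Finset (Fin n)) {v w : V} {s t : Bool} (h : (w, t) ≠ (v, s)) :
    bt e (insert (e (v, s)) σ) w t = bt e σ w t := by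
  unfold bt
  congr 1
  rw [mem_insert]
  have : e (w, t) ≠ e (v, s) := fun h' => h (e.injective h')
  simp [this]

/-- the local factor -/
def lf' (P Q : Finset V) (σ τ : Finset (Fin n)) (v : V) : ZMod 2 :=
  lo (decide (v ∈ P)) (decide (v ∈ Q)) (bt e σ v true) (bt e σ v false) (bt e τ v true) (bt e τ v false)

/-- the chain of a pair of sets -/
def Psi (z : Finset V → ZMod 2) (P Q : Finset V) (σ τ : Finset (Fin n)) : ZMod 2 :=
  z (pr e σ ∪ (P ∩ Q)) * z (pr e τ ∪ (P ∩ Q)) * ∏ v, lf' e P Q σ τ v

theorem Psi_swap (z : Finset V → ZMod 2) (P Q : Finset V) (σ τ : Finset (Fin n)) :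
    Psi e z P Q σ τ = Psi e z Q P τ σ := by
  unfold Psi
  rw [inter_comm Q P, mul_comm (z (pr e σ ∪ P ∩ Q))]
  congr 1
  refine prod_congr rfl fun v _ => ?_
  unfold lf'
  exact lo_swap _ _ _ _ _ _

theorem sum_signed (f : Fin n → ZMod 2) : ∑ w, f w = ∑ v, (f (e (v, true)) + f (e (v, false))) := by
  rw [← Equiv.sum_comp e f, Fintype.sum_prod_type]
  refine sum_congr rfl fun v _ => ?_
  rw [Fintype.sum_bool]

theorem dd_Psi {z : Finset V → ZMod 2} (hz : ∀ S : Finset V, ∑ v ∈ Sᶜ, z (insert v S) = 0) (P Q : Finset V)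
    {ρ τ : Finset (Fin n)} (hd : Disjoint ρ τ) :
    dd (Psi e z P Q) ρ τ = ∑ v ∈ (P ∩ Q)ᶜ, Psi e z (insert v P) (insert v Q) ρ τ := by
  unfold dd
  set S := pr e ρ ∪ (P ∩ Q) with hS
  set T := pr e τ ∪ (P ∩ Q) with hT
  have h1 : ∑ w ∈ (ρ ∪ τ)ᶜ, (Psi e z P Q (insert w ρ) τ + Psi e z P Q ρ (insert w τ)) =
      ∑ w, if w ∈ ρ ∪ τ then 0 else (Psi e z P Q (insert w ρ) τ + Psi e z P Q ρ (insert w τ)) := by
    exact sum_compl_ite _ _
  rw [h1, sum_signed e]
  -- the product over the other vertices
  set M : V → ZMod 2 := fun v => ∏ u ∈ univ.erase v, lf' e P Q ρ τ u with hM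
  have hprod : ∀ v, ∏ u, lf' e P Q ρ τ u = lf' e P Q ρ τ v * M v := by
    intro v
    exact (mul_prod_erase univ _ (mem_univ v)).symm
  have hprodρ : ∀ v s, ∏ u, lf' e P Q (insert (e (v, s)) ρ) τ u =
      lf' e P Q (insert (e (v, s)) ρ) τ v * M v := by
    intro v s
    rw [← mul_prod_erase univ _ (mem_univ v)]
    congr 1
    refine prod_congr rfl fun u hu => ?_
    have huv : u ≠ v := (mem_erase.mp hu).1
    unfold lf'
    rw [bt_insert_of_ne e ρ (fun h => huv (congrArg Prod.fst h)), bt_insert_of_ne e ρ (fun h => huv (congrArg Prod.fst h))]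
  have hprodτ : ∀ v s, ∏ u, lf' e P Q ρ (insert (e (v, s)) τ) u =
      lf' e P Q ρ (insert (e (v, s)) τ) v * M v := by
    intro v s
    rw [← mul_prod_erase univ _ (mem_univ v)]
    congr 1
    refine prod_congr rfl fun u hu => ?_
    have huv : u ≠ v := (mem_erase.mp hu).1
    unfold lf'
    rw [bt_insert_of_ne e τ (fun h => huv (congrArg Prod.fst h)), bt_insert_of_ne e τ (fun h => huv (congrArg Prod.fst h))]
  have hPQ : ∀ v, ∏ u, lf' e (insert v P) (insert v Q) ρ τ u = lf' e (insert v P) (insert v Q) ρ τ v * M v := by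
    intro v
    rw [← mul_prod_erase univ _ (mem_univ v)]
    congr 1
    refine prod_congr rfl fun u hu => ?_
    have huv : u ≠ v := (mem_erase.mp hu).1
    unfold lf'
    have e1 : decide (u ∈ insert v P) = decide (u ∈ P) := by simp [mem_insert, huv]
    have e2 : decide (u ∈ insert v Q) = decide (u ∈ Q) := by simp [mem_insert, huv]
    rw [e1, e2]
  have hPsi1 : ∀ v s, Psi e z P Q (insert (e (v, s)) ρ) τ =
      z (insert v S) * z T * lf' e P Q (insert (e (v, s)) ρ) τ v * M v := by
    intro v s
    unfold Psi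
    rw [hprodρ, pr_insert, insert_union, ← hS, ← hT, mul_assoc]
    ring
  have hPsi2 : ∀ v s, Psi e z P Q ρ (insert (e (v, s)) τ) =
      z S * z (insert v T) * lf' e P Q ρ (insert (e (v, s)) τ) v * M v := by
    intro v s
    unfold Psi
    rw [hprodτ, pr_insert, insert_union, ← hS, ← hT, mul_assoc]
    ring
  have hPsi3 : ∀ v, Psi e z (insert v P) (insert v Q) ρ τ =
      z (insert v S) * z (insert v T) * lf' e (insert v P) (insert v Q) ρ τ v * M v := by
    intro v
    unfold Psi
    have e1 : insert v P ∩ insert v Q = insert v (P ∩ Q) := by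
      ext a; simp only [mem_inter, mem_insert]; tauto
    rw [hPQ, e1, union_insert, union_insert, ← hS, ← hT, mul_assoc]
    ring
  -- the two vanishing sums
  have hz1 : ∑ v, (if v ∈ S then 0 else z (insert v S) * z T * lf' e P Q ρ τ v * M v) = 0 := by
    have h2 : ∑ v ∈ Sᶜ, z (insert v S) * z T * lf' e P Q ρ τ v * M v = 0 := by
      have h3 : ∀ v ∈ Sᶜ, z (insert v S) * z T * lf' e P Q ρ τ v * M v =
          z (insert v S) * (z T * ∏ u, lf' e P Q ρ τ u) := by
        intro v _
        rw [hprod v]; ring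
      rw [sum_congr rfl h3, ← sum_mul, hz, zero_mul]
    rw [sum_compl_ite] at h2
    exact h2
  have hz2 : ∑ v, (if v ∈ T then 0 else z S * z (insert v T) * lf' e P Q ρ τ v * M v) = 0 := by
    have h2 : ∑ v ∈ Tᶜ, z S * z (insert v T) * lf' e P Q ρ τ v * M v = 0 := by
      have h3 : ∀ v ∈ Tᶜ, z S * z (insert v T) * lf' e P Q ρ τ v * M v =
          z (insert v T) * (z S * ∏ u, lf' e P Q ρ τ u) := by
        intro v _
        rw [hprod v]; ring
      rw [sum_congr rfl h3, ← sum_mul, hz, zero_mul]
    rw [sum_compl_ite] at h2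
    exact h2
  have hR : ∑ v ∈ (P ∩ Q)ᶜ, Psi e z (insert v P) (insert v Q) ρ τ =
      ∑ v, if v ∈ P ∩ Q then 0 else Psi e z (insert v P) (insert v Q) ρ τ := by
    exact sum_compl_ite _ _
  rw [hR]
  have key : ∀ v, ((if e (v, true) ∈ ρ ∪ τ then 0 else (Psi e z P Q (insert (e (v, true)) ρ) τ +
      Psi e z P Q ρ (insert (e (v, true)) τ))) +
      (if e (v, false) ∈ ρ ∪ τ then 0 else (Psi e z P Q (insert (e (v, false)) ρ) τ +
      Psi e z P Q ρ (insert (e (v, false)) τ)))) +
      ((if v ∈ S then 0 else z (insert v S) * z T * lf' e P Q ρ τ v * M v) +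
      (if v ∈ T then 0 else z S * z (insert v T) * lf' e P Q ρ τ v * M v)) =
      if v ∈ P ∩ Q then 0 else Psi e z (insert v P) (insert v Q) ρ τ := by
    intro v
    have hac : (bt e ρ v true && bt e τ v true) = false := by
      unfold bt
      by_contra h
      simp only [Bool.and_eq_false_imp, decide_eq_true_eq, decide_eq_false_iff_not, not_forall, not_not] at h
      obtain ⟨h2, h3⟩ := h
      exact disjoint_left.mp hd h2 h3
    have hbd : (bt e ρ v false && bt e τ v false) = false := by
      unfold bt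
      by_contra h
      simp only [Bool.and_eq_false_imp, decide_eq_true_eq, decide_eq_false_iff_not, not_forall, not_not] at h
      obtain ⟨h2, h3⟩ := h
      exact disjoint_left.mp hd h2 h3
    have hSv : (v ∈ S) ↔ (bt e ρ v true || bt e ρ v false || (decide (v ∈ P) && decide (v ∈ Q))) = true := by
      rw [hS, mem_union, mem_pr, mem_inter]
      simp [bt]
    have hTv : (v ∈ T) ↔ (bt e τ v true || bt e τ v false || (decide (v ∈ P) && decide (v ∈ Q))) = true := by
      rw [hT, mem_union, mem_pr, mem_inter]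
      simp [bt]
    have hloc := local_id (decide (v ∈ P)) (decide (v ∈ Q)) (bt e ρ v true) (bt e ρ v false) (bt e τ v true)
      (bt e τ v false) (z S) (z (insert v S)) (z T) (z (insert v T)) hac hbd
      (fun h => by rw [insert_eq_of_mem (hSv.mpr h)]) (fun h => by rw [insert_eq_of_mem (hTv.mpr h)])
    have c1 : (e (v, true) ∈ ρ ∪ τ) ↔ (bt e ρ v true || bt e τ v true) = true := by
      rw [mem_union]; simp [bt]
    have c2 : (e (v, false) ∈ ρ ∪ τ) ↔ (bt e ρ v false || bt e τ v false) = true := by
      rw [mem_union]; simp [bt]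
    have c3 : (v ∈ P ∩ Q) ↔ (decide (v ∈ P) && decide (v ∈ Q)) = true := by
      rw [mem_inter]; simp
    have l1 : lf' e P Q (insert (e (v, true)) ρ) τ v = lo (decide (v ∈ P)) (decide (v ∈ Q)) true (bt e ρ v false)
        (bt e τ v true) (bt e τ v false) := by
      unfold lf'
      rw [bt_insert_self, bt_insert_of_ne e ρ (by simp)]
    have l2 : lf' e P Q (insert (e (v, false)) ρ) τ v = lo (decide (v ∈ P)) (decide (v ∈ Q)) (bt e ρ v true) true
        (bt e τ v true) (bt e τ v false) := by
      unfold lf'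
      rw [bt_insert_self, bt_insert_of_ne e ρ (by simp)]
    have l3 : lf' e P Q ρ (insert (e (v, true)) τ) v = lo (decide (v ∈ P)) (decide (v ∈ Q)) (bt e ρ v true)
        (bt e ρ v false) true (bt e τ v false) := by
      unfold lf'
      rw [bt_insert_self, bt_insert_of_ne e τ (by simp)]
    have l4 : lf' e P Q ρ (insert (e (v, false)) τ) v = lo (decide (v ∈ P)) (decide (v ∈ Q)) (bt e ρ v true)
        (bt e ρ v false) (bt e τ v true) true := by
      unfold lf'
      rw [bt_insert_self, bt_insert_of_ne e τ (by simp)]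
    have l5 : lf' e (insert v P) (insert v Q) ρ τ v = lo true true (bt e ρ v true) (bt e ρ v false)
        (bt e τ v true) (bt e τ v false) := by
      unfold lf'
      simp
    rw [hPsi1, hPsi1, hPsi2, hPsi2, hPsi3, l1, l2, l3, l4, l5]
    have l6 : lf' e P Q ρ τ v = lo (decide (v ∈ P)) (decide (v ∈ Q)) (bt e ρ v true) (bt e ρ v false)
        (bt e τ v true) (bt e τ v false) := rfl
    rw [l6]
    have h4 := congrArg (fun t => t * M v) hloc
    simp only [add_mul, ite_mul, zero_mul] at h4
    simp only [c1, c2, c3, hSv, hTv]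
    exact h4
  rw [← sum_congr rfl fun v _ => key v, sum_add_distrib (f := fun v => (_ : ZMod 2) + _)]
  have h5 : ∑ v, ((if v ∈ S then 0 else z (insert v S) * z T * lf' e P Q ρ τ v * M v) +
      (if v ∈ T then 0 else z S * z (insert v T) * lf' e P Q ρ τ v * M v)) = 0 := by
    rw [sum_add_distrib, hz1, hz2, add_zero]
  rw [h5, add_zero]

/-- extension by linearity -/
def PsiX (z : Finset V → ZMod 2) (x : Finset V → Finset V → ZMod 2) (σ τ : Finset (Fin n)) : ZMod 2 :=
  ∑ P, ∑ Q, x P Q * Psi e z P Q σ τ

theorem PsiX_swap (z : Finset V → ZMod 2) (x : Finset V → Finset V → ZMod 2) (σ τ : Finset (Fin n)) :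
    PsiX e z x τ σ = PsiX e z (fun P Q => x Q P) σ τ := by
  unfold PsiX
  rw [sum_comm]
  refine sum_congr rfl fun P _ => sum_congr rfl fun Q _ => ?_
  rw [Psi_swap]

theorem PsiX_add (z : Finset V → ZMod 2) (x y : Finset V → Finset V → ZMod 2) (σ τ : Finset (Fin n)) :
    PsiX e z (fun P Q => x P Q + y P Q) σ τ = PsiX e z x σ τ + PsiX e z y σ τ := by
  unfold PsiX
  rw [← sum_add_distrib]
  refine sum_congr rfl fun P _ => ?_
  rw [← sum_add_distrib]
  refine sum_congr rfl fun Q _ => ?_
  rw [add_mul]

theorem sum_split (v : V) (f : Finset V → ZMod 2) :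
    ∑ P, f P = ∑ P, if v ∈ P then f P + f (P.erase v) else 0 := by
  have h1 : ∑ P ∈ univ.filter (fun P : Finset V => ¬ v ∈ P), f P =
      ∑ P ∈ univ.filter (fun P : Finset V => v ∈ P), f (P.erase v) := by
    refine sum_nbij' (fun P => insert v P) (fun P => P.erase v) ?_ ?_ ?_ ?_ ?_
    · intro P hP
      exact mem_filter.mpr ⟨mem_univ _, mem_insert_self _ _⟩
    · intro P hP
      exact mem_filter.mpr ⟨mem_univ _, notMem_erase _ _⟩
    · intro P hP
      exact erase_insert (mem_filter.mp hP).2
    · intro P hP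
      exact insert_erase (mem_filter.mp hP).2
    · intro P hP
      rw [erase_insert (mem_filter.mp hP).2]
  rw [← sum_filter_add_sum_filter_not univ (fun P : Finset V => v ∈ P), h1, ← sum_add_distrib, sum_filter]

theorem dd_PsiX {z : Finset V → ZMod 2} (hz : ∀ S : Finset V, ∑ v ∈ Sᶜ, z (insert v S) = 0)
    (x : Finset V → Finset V → ZMod 2) {ρ τ : Finset (Fin n)} (hd : Disjoint ρ τ) :
    dd (PsiX e z x) ρ τ = PsiX e z (dP x) ρ τ := by
  have h1 : dd (PsiX e z x) ρ τ = ∑ P, ∑ Q, x P Q * dd (Psi e z P Q) ρ τ := by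
    unfold dd PsiX
    simp only [mul_sum, mul_add]
    rw [sum_add_distrib]
    rw [sum_comm]
    rw [sum_comm (s := (ρ ∪ τ)ᶜ) (t := univ) (f := fun w P => ∑ Q, x P Q * Psi e z P Q ρ (insert w τ)),
      ← sum_add_distrib]
    refine sum_congr rfl fun P _ => ?_
    rw [sum_comm]
    rw [sum_comm (s := (ρ ∪ τ)ᶜ) (t := univ) (f := fun w Q => x P Q * Psi e z P Q ρ (insert w τ)),
      ← sum_add_distrib]
    refine sum_congr rfl fun Q _ => ?_
    rw [sum_add_distrib]
  rw [h1]
  simp only [dd_Psi e hz _ _ hd]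
  have h2 : ∀ P Q : Finset V, x P Q * ∑ v ∈ (P ∩ Q)ᶜ, Psi e z (insert v P) (insert v Q) ρ τ =
      ∑ v, if v ∈ P ∧ v ∈ Q then 0 else x P Q * Psi e z (insert v P) (insert v Q) ρ τ := by
    intro P Q
    rw [mul_sum, sum_compl_ite]
    simp only [mem_inter]
  have h3 : ∀ P Q : Finset V, dP x P Q * Psi e z P Q ρ τ =
      ∑ v, if v ∈ P ∧ v ∈ Q then (x (P.erase v) Q + x P (Q.erase v) + x (P.erase v) (Q.erase v)) * Psi e z P Q ρ τ
        else 0 := by
    intro P Q
    unfold dP
    rw [sum_mul, sum_mem_ite]
    simp only [mem_inter]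
  unfold PsiX
  simp only [h2, h3]
  have h4 : ∀ F : Finset V → Finset V → V → ZMod 2, ∑ P, ∑ Q, ∑ v, F P Q v = ∑ v, ∑ P, ∑ Q, F P Q v := by
    intro F
    rw [sum_congr rfl fun P _ => sum_comm]
    exact sum_comm
  rw [h4, h4]
  refine sum_congr rfl fun v _ => ?_
  rw [sum_split v]
  refine sum_congr rfl fun P _ => ?_
  by_cases hP : v ∈ P
  · rw [if_pos hP, sum_split v, sum_split v (fun Q => if v ∈ P.erase v ∧ v ∈ Q then 0 else _), ← sum_add_distrib]
    refine sum_congr rfl fun Q _ => ?_
    by_cases hQ : v ∈ Q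
    · simp only [hP, hQ, notMem_erase, and_self, and_false, false_and, if_true, if_false,
        insert_eq_of_mem hP, insert_eq_of_mem hQ, insert_erase hP, insert_erase hQ]
      ring
    · simp only [hQ, and_false, if_false, add_zero]
  · simp only [hP, false_and, if_false, sum_const_zero]

variable (G : SimpleGraph V)

/-- the cliques -/
def Cl (A : Finset V) : Prop := G.IsClique (A : Set V)

theorem Cl_mono (A B : Finset V) (h : A ⊆ B) (hB : Cl G B) : Cl G A :=
  hB.subset (by exact_mod_cast h)

variable {G}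

theorem Psi_ne {z : Finset V → ZMod 2} {P Q : Finset V} {σ τ : Finset (Fin n)} (h : Psi e z P Q σ τ ≠ 0) :
    z (pr e σ ∪ (P ∩ Q)) ≠ 0 ∧ z (pr e τ ∪ (P ∩ Q)) ≠ 0 ∧
    ∀ v, loc (decide (v ∈ P)) (decide (v ∈ Q)) (bt e σ v true) (bt e σ v false) (bt e τ v true)
      (bt e τ v false) = true := by
  unfold Psi at h
  have h1 := left_ne_zero_of_mul h
  have h2 := right_ne_zero_of_mul h
  refine ⟨left_ne_zero_of_mul h1, right_ne_zero_of_mul h1, fun v => ?_⟩
  rw [prod_ne_zero_iff] at h2
  exact lo_ne _ _ _ _ _ _ (h2 v (mem_univ v))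

theorem loc_p : ∀ a b c d : Bool, loc true false a b c d = true → (a || b) = true := by decide
theorem loc_q : ∀ a b c d : Bool, loc false true a b c d = true → (c || d) = true := by decide
theorem loc_ab : ∀ p q a b c d : Bool, loc p q a b c d = true → (a && b) = false ∧ (c && d) = false := by decide
theorem loc_c : ∀ a b c d : Bool, loc true true a b c d = true → b = false ∧ d = false := by decide

theorem Psi_sub {z : Finset V → ZMod 2} {P Q : Finset V} {σ τ : Finset (Fin n)} (h : Psi e z P Q σ τ ≠ 0) :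
    P ⊆ pr e σ ∪ (P ∩ Q) ∧ Q ⊆ pr e τ ∪ (P ∩ Q) := by
  obtain ⟨_, _, h3⟩ := Psi_ne e h
  constructor
  · intro v hv
    by_cases hQ : v ∈ Q
    · exact mem_union_right _ (mem_inter.mpr ⟨hv, hQ⟩)
    · have h4 := h3 v
      rw [decide_eq_true hv, decide_eq_false hQ] at h4
      have h5 := loc_p _ _ _ _ h4
      apply mem_union_left
      rw [mem_pr]
      simpa [bt] using h5
  · intro v hv
    by_cases hP : v ∈ P
    · exact mem_union_right _ (mem_inter.mpr ⟨hP, hv⟩)
    · have h4 := h3 v
      rw [decide_eq_true hv, decide_eq_false hP] at h4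
      have h5 := loc_q _ _ _ _ h4
      apply mem_union_left
      rw [mem_pr]
      simpa [bt] using h5

theorem PsiX_dL {z : Finset V → ZMod 2} (hz1 : ∀ T, z T ≠ 0 → Cl G T)
    {x : Finset V → Finset V → ZMod 2} (hx : ∀ P Q, x P Q ≠ 0 → Cl G (P ∪ Q)) (σ τ : Finset (Fin n)) :
    PsiX e z (dP x) σ τ = PsiX e z (dL (Cl G) x) σ τ := by
  unfold PsiX
  refine sum_congr rfl fun P _ => sum_congr rfl fun Q _ => ?_
  by_cases hcl : Cl G (P ∪ Q)
  · rw [dL_pos hcl]
  · rw [dL, if_neg hcl, zero_mul]
    by_contra hne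
    have h1 := left_ne_zero_of_mul hne
    have h2 := right_ne_zero_of_mul hne
    have hP : Cl G P := Cl_mono G _ _ (Psi_sub e h2).1 (hz1 _ (Psi_ne e h2).1)
    have hQ : Cl G Q := Cl_mono G _ _ (Psi_sub e h2).2 (hz1 _ (Psi_ne e h2).2.1)
    unfold dP at h1
    obtain ⟨u, hu, hu'⟩ := exists_ne_zero_of_sum_ne_zero h1
    obtain ⟨huP, huQ⟩ := mem_inter.mp hu
    apply hcl
    have hE : Cl G ((P.erase u) ∪ (Q.erase u)) := by
      by_cases f1 : x (P.erase u) Q = 0
      · by_cases f2 : x P (Q.erase u) = 0
        · rw [f1, f2, add_zero, zero_add] at hu'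
          exact hx _ _ hu'
        · exact Cl_mono G _ _ (union_subset_union_left (erase_subset _ _)) (hx _ _ f2)
      · exact Cl_mono G _ _ (union_subset_union_right (erase_subset _ _)) (hx _ _ f1)
    intro a ha b hb hab
    rw [mem_coe, mem_union] at ha hb
    by_cases hau : a = u
    · rcases hb with hb | hb
      · exact hP (mem_coe.mpr (by rw [hau]; exact huP)) (mem_coe.mpr hb) hab
      · exact hQ (mem_coe.mpr (by rw [hau]; exact huQ)) (mem_coe.mpr hb) hab
    · by_cases hbu : b = u
      · rcases ha with ha | ha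
        · exact hP (mem_coe.mpr ha) (mem_coe.mpr (by rw [hbu]; exact huP)) hab
        · exact hQ (mem_coe.mpr ha) (mem_coe.mpr (by rw [hbu]; exact huQ)) hab
      · refine hE ?_ ?_ hab
        · rw [mem_coe, mem_union, mem_erase, mem_erase]
          tauto
        · rw [mem_coe, mem_union, mem_erase, mem_erase]
          tauto

theorem even_odd_disj (U : Finset (Fin n)) : Disjoint (evenPart U) (oddPart U) := by
  rw [disjoint_left]
  intro a ha hb
  exact (mem_filter.mp hb).2 (mem_filter.mp ha).2

theorem even_odd_union (U : Finset (Fin n)) : evenPart U ∪ oddPart U = U := by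
  ext a
  unfold evenPart oddPart
  rw [mem_union, mem_filter, mem_filter]
  tauto

theorem z2_sq (a : ZMod 2) : a * a = a := by
  revert a; decide

/-- evaluation of the chain of a diagonal pair -/
theorem ev_diag {k : ℕ} {z : Finset V → ZMod 2} (hz1 : ∀ T, z T ≠ 0 → T.card = k + 1) {P : Finset V}
    (hP : P.card = k + 1) :
    ∑ U ∈ powersetCard (k + 1) univ, Psi e z P P (evenPart U) (oddPart U) = z P := by
  set U0 : Finset (Fin n) := P.image (fun v => e (v, true)) with hU0
  have hinj : Function.Injective (fun v : V => e (v, true)) := by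
    intro a b h
    exact congrArg Prod.fst (e.injective h)
  have hU0c : U0.card = k + 1 := by rw [hU0, card_image_of_injective _ hinj, hP]
  rw [sum_eq_single U0]
  · -- the value
    have hpr : ∀ A : Finset (Fin n), A ⊆ U0 → pr e A ∪ (P ∩ P) = P := by
      intro A hA
      rw [inter_self, union_eq_right]
      intro v hv
      rw [mem_pr] at hv
      rcases hv with hv | hv
      · obtain ⟨w, hw, hw'⟩ := mem_image.mp (hA hv)
        rw [← hinj hw']; exact hw
      · obtain ⟨w, hw, hw'⟩ := mem_image.mp (hA hv)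
        have := congrArg Prod.snd (e.injective hw')
        simp at this
    have he : evenPart U0 ⊆ U0 := filter_subset _ _
    have ho : oddPart U0 ⊆ U0 := filter_subset _ _
    unfold Psi
    rw [hpr _ he, hpr _ ho, z2_sq]
    rw [prod_eq_one, mul_one]
    intro v _
    unfold lf'
    have hf : ∀ A : Finset (Fin n), A ⊆ U0 → bt e A v false = false := by
      intro A hA
      unfold bt
      rw [decide_eq_false_iff_not]
      intro h
      obtain ⟨w, hw, hw'⟩ := mem_image.mp (hA h)
      have := congrArg Prod.snd (e.injective hw')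
      simp at this
    rw [hf _ he, hf _ ho]
    by_cases hv : v ∈ P
    · have hm : e (v, true) ∈ U0 := mem_image_of_mem _ hv
      have hne : bt e (oddPart U0) v true = !(bt e (evenPart U0) v true) := by
        unfold bt evenPart oddPart
        simp only [mem_filter, hm, true_and]
        rw [decide_not]
      rw [hne, decide_eq_true hv]
      cases bt e (evenPart U0) v true <;> decide
    · have hm : e (v, true) ∉ U0 := by
        intro h
        obtain ⟨w, hw, hw'⟩ := mem_image.mp h
        rw [hinj hw'] at hw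
        exact hv hw
      have b1 : bt e (evenPart U0) v true = false := by
        unfold bt
        rw [decide_eq_false_iff_not]
        exact fun h => hm (filter_subset _ _ h)
      have b2 : bt e (oddPart U0) v true = false := by
        unfold bt
        rw [decide_eq_false_iff_not]
        exact fun h => hm (filter_subset _ _ h)
      rw [b1, b2, decide_eq_false hv]
      decide
  · intro U hU hne
    rw [mem_powersetCard_univ] at hU
    by_contra h
    obtain ⟨h1, h2, h3⟩ := Psi_ne e h
    rw [inter_self] at h1 h2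
    have hs : ∀ A : Finset (Fin n), z (pr e A ∪ P) ≠ 0 → pr e A ⊆ P := by
      intro A hA
      have h4 := hz1 _ hA
      have h5 := eq_of_subset_of_card_le (subset_union_right (s₁ := pr e A) (s₂ := P)) (by rw [h4, hP])
      rw [h5]
      exact subset_union_left
    have hs1 := hs _ h1
    have hs2 := hs _ h2
    apply hne
    apply eq_of_subset_of_card_le
    · intro i hi
      rw [← even_odd_union U, mem_union] at hi
      set v := (e.symm i).1 with hv
      have hi' : e (v, (e.symm i).2) = i := by simp [hv]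
      have hvP : v ∈ P := by
        rcases hi with hi | hi
        · apply hs1
          unfold pr
          exact mem_image_of_mem _ hi
        · apply hs2
          unfold pr
          exact mem_image_of_mem _ hi
      have h4 := h3 v
      rw [decide_eq_true hvP] at h4
      have h5 := loc_c _ _ _ _ h4
      rcases h6 : (e.symm i).2 with _ | _
      · exfalso
        rw [h6] at hi'
        unfold bt at h5
        simp only [decide_eq_false_iff_not] at h5
        rw [hi'] at h5
        rcases hi with hi | hi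
        · exact h5.1 hi
        · exact h5.2 hi
      · rw [h6] at hi'
        rw [← hi']
        exact mem_image_of_mem _ hvP
    · rw [hU, hU0c]
  · intro h
    exact absurd (mem_powersetCard_univ.mpr hU0c) h

theorem ev_last {k : ℕ} {z : Finset V → ZMod 2} (hz1 : ∀ T, z T ≠ 0 → T.card = k + 1)
    {x : Finset V → Finset V → ZMod 2} (hx : ∀ P Q, x P Q ≠ 0 → (P ∩ Q).card = k + 1) :
    ev (k + 1) (PsiX e z x) = ∑ P ∈ powersetCard (k + 1) univ, x P P * z P := by
  have h1 : ev (k + 1) (PsiX e z x) = ∑ P, ∑ Q, x P Q *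
      ∑ U ∈ powersetCard (k + 1) univ, Psi e z P Q (evenPart U) (oddPart U) := by
    unfold ev PsiX
    rw [sum_comm]
    refine sum_congr rfl fun P _ => ?_
    rw [sum_comm]
    refine sum_congr rfl fun Q _ => ?_
    rw [mul_sum]
  rw [h1]
  have h2 : ∀ P Q, P ≠ Q → x P Q * ∑ U ∈ powersetCard (k + 1) univ, Psi e z P Q (evenPart U) (oddPart U) = 0 := by
    intro P Q hPQ
    by_cases h : x P Q = 0
    · rw [h, zero_mul]
    · have hc := hx P Q h
      rw [sum_eq_zero, mul_zero]
      intro U _
      by_contra h3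
      obtain ⟨h4, h5, _⟩ := Psi_ne e h3
      obtain ⟨h6, h7⟩ := Psi_sub e h3
      apply hPQ
      have e1 := eq_of_subset_of_card_le (subset_union_right (s₁ := pr e (evenPart U)) (s₂ := P ∩ Q))
        (by rw [hz1 _ h4, hc])
      have e2 := eq_of_subset_of_card_le (subset_union_right (s₁ := pr e (oddPart U)) (s₂ := P ∩ Q))
        (by rw [hz1 _ h5, hc])
      rw [← e1] at h6
      rw [← e2] at h7
      exact Subset.antisymm (h6.trans inter_subset_right) (h7.trans inter_subset_left)
  have h3 : ∀ P, ∑ Q, x P Q * ∑ U ∈ powersetCard (k + 1) univ, Psi e z P Q (evenPart U) (oddPart U) =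
      if P ∈ powersetCard (k + 1) univ then x P P * z P else 0 := by
    intro P
    rw [sum_eq_single P]
    · split_ifs with h
      · rw [ev_diag e hz1 (mem_powersetCard_univ.mp h)]
      · have : x P P = 0 := by
          by_contra h4
          have h5 := hx P P h4
          rw [inter_self] at h5
          exact h (mem_powersetCard_univ.mpr h5)
        rw [this, zero_mul]
    · intro Q _ hQ
      exact h2 P Q hQ.symm
    · intro h; exact absurd (mem_univ _) h
  rw [sum_congr rfl fun P _ => h3 P, ← sum_filter]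
  congr 1
  ext P
  simp

/-- the octahedralization -/
abbrev OG (G : SimpleGraph V) : SimpleGraph (V × Bool) := G.comap Prod.fst

/-- **Theorem.** If the mod 2 van Kampen obstruction of the octahedralization vanishes in degree `2 k + 2`, then every
cocycle of the clique complex vanishes on every cycle in degree `k`. -/
theorem pairing_zero (k : ℕ) (hVK : VK2 (clF (OG G) e) (2 * k + 2)) {z : Finset V → ZMod 2}
    (hz1 : ∀ T, z T ≠ 0 → Cl G T ∧ T.card = k + 1)
    (hz2 : ∀ S : Finset V, ∑ v ∈ Sᶜ, z (insert v S) = 0) {φ : Finset V → ZMod 2}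
    (hφ : ∀ R : Finset V, Cl G R → R.card = k + 2 → ∑ v ∈ R, φ (R.erase v) = 0) :
    ∑ P ∈ powersetCard (k + 1) univ, φ P * z P = 0 := by
  have hC := Cl_mono G
  have hinv := inv_all hC k φ hφ
  have hcl : ∀ T, z T ≠ 0 → Cl G T := fun T hT => (hz1 T hT).1
  -- evaluation of the last function
  have h1 : ev (k + 1) (PsiX e z (xs (Cl G) k φ (k + 1))) = ∑ P ∈ powersetCard (k + 1) univ, φ P * z P := by
    rw [ev_last e (fun T hT => (hz1 T hT).2) (fun P Q h => ((hinv (k + 1) le_rfl).supp P Q h).1)]
    refine sum_congr rfl fun P hP => ?_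
    rw [mem_powersetCard_univ] at hP
    by_cases h : z P = 0
    · rw [h, mul_zero, mul_zero]
    · rw [xs_last hC k φ hφ hP (hcl P h)]
  have h2 : ∀ j, j ≤ k + 1 → ev (2 * k + 2 - j) (PsiX e z (xs (Cl G) k φ j)) =
      ev (2 * k + 2) (PsiX e z (xs (Cl G) k φ 0)) := by
    intro j hj
    induction j with
    | zero => rfl
    | succ j ih =>
      rw [← ih (by omega)]
      have hI := hinv j (by omega)
      have hadd := half_add hI.symm (hI.diag (by omega))
      set y := half (xs (Cl G) k φ j) with hy
      have h3 := ev_dd (2 * k + 2 - (j + 1)) (PsiX e z y)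
      have h4 : 2 * k + 2 - (j + 1) + 1 = 2 * k + 2 - j := by omega
      rw [h4] at h3
      have h5 : (fun σ τ => PsiX e z y σ τ + PsiX e z y τ σ) = PsiX e z (xs (Cl G) k φ j) := by
        funext σ τ
        rw [PsiX_swap e z y σ τ, ← PsiX_add]
        congr 1
        funext P Q
        exact hadd P Q
      rw [h5] at h3
      rw [← h3]
      unfold ev
      refine sum_congr rfl fun U _ => ?_
      rw [dd_PsiX e hz2 y (even_odd_disj U), PsiX_dL e hcl]
      · rfl
      · intro P Q hPQ
        refine (hI.supp P Q ?_).2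
        intro h0
        exact hPQ (half_low h0)
  rw [← h1]
  have h3 := h2 (k + 1) le_rfl
  have h4 : 2 * k + 2 - (k + 1) = k + 1 := by omega
  rw [h4] at h3
  rw [h3]
  have hI := hinv 0 (by omega)
  refine hVK (PsiX e z (xs (Cl G) k φ 0)) ?_ ?_ ?_
  · intro σ τ
    rw [PsiX_swap e z _ τ σ]
    congr 1
    funext P Q
    exact hI.symm Q P
  · intro σ τ h
    unfold PsiX at h
    obtain ⟨P, _, h⟩ := exists_ne_zero_of_sum_ne_zero h
    obtain ⟨Q, _, h⟩ := exists_ne_zero_of_sum_ne_zero h
    have h5 := right_ne_zero_of_mul h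
    obtain ⟨h6, h7, h8⟩ := Psi_ne e h5
    have hgen : ∀ A : Finset (Fin n), Cl G (pr e A) → (∀ v, (bt e A v true && bt e A v false) = false) →
        A ∈ clF (OG G) e := by
      intro A hA hA'
      rw [mem_clF]
      intro a ha b hb hab
      rw [mem_coe, mem_map] at ha hb
      obtain ⟨i, hi, rfl⟩ := ha
      obtain ⟨j, hj, rfl⟩ := hb
      simp only [Equiv.coe_toEmbedding, SimpleGraph.comap_adj] at hab ⊢
      have hi' : (e.symm i).1 ∈ pr e A := mem_image_of_mem _ hi
      have hj' : (e.symm j).1 ∈ pr e A := mem_image_of_mem _ hj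
      refine hA (mem_coe.mpr hi') (mem_coe.mpr hj') ?_
      intro h9
      have h10 : (e.symm i).2 ≠ (e.symm j).2 := fun h => hab (Prod.ext h9 h)
      have h11 : ∀ s, e ((e.symm i).1, s) ∈ A := by
        intro s
        by_cases hs : s = (e.symm i).2
        · rw [hs]; simpa using hi
        · have : s = (e.symm j).2 := by
            revert hs h10
            cases s <;> cases (e.symm i).2 <;> cases (e.symm j).2 <;> simp
          rw [this, h9]; simpa using hj
      have h12 := hA' (e.symm i).1
      unfold bt at h12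
      rw [decide_eq_true (h11 true), decide_eq_true (h11 false)] at h12
      simp at h12
    constructor
    · exact hgen σ (Cl_mono G _ _ subset_union_left (hcl _ h6)) fun v => (loc_ab _ _ _ _ _ _ (h8 v)).1
    · exact hgen τ (Cl_mono G _ _ subset_union_left (hcl _ h7)) fun v => (loc_ab _ _ _ _ _ _ (h8 v)).2
  · intro ρ τ hd _
    have h5 := dd_PsiX e hz2 (xs (Cl G) k φ 0) hd
    rw [PsiX_dL e hcl (fun P Q h => (hI.supp P Q h).2)] at h5
    have h6 : PsiX e z (dL (Cl G) (xs (Cl G) k φ 0)) ρ τ = 0 := by
      unfold PsiX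
      refine sum_eq_zero fun P _ => sum_eq_zero fun Q _ => ?_
      rw [hI.cyc P Q, zero_mul]
    rw [h6] at h5
    exact h5

end Pool.Agent.H77RA
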