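import Pool.Agent.H77RA.B1
import Pool.Agent.H77RA.C3

/-!
# From the pairing of cocycles and cycles to the rank criterion
-/

set_option autoImplicit false
set_option linter.unusedSectionVars false

open scoped Matrix

namespace Pool.Agent.H77RA

open Finset Pool.Agent.W326.DU

section linalg

variable {F : Type} [Field F] {a b c : ℕ}

/-- the matrix of a linear map on row vectors -/
def rowMat {m n : ℕ} (T : (Fin m → F) →ₗ[F] (Fin n → F)) : Matrix (Fin m) (Fin n) F :=
  Matrix.of (fun i j => T (Pi.single i 1) j)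

theorem vecMul_rowMat {m n : ℕ} (T : (Fin m → F) →ₗ[F] (Fin n → F)) (v : Fin m → F) :
    Matrix.vecMul v (rowMat T) = T v := by
  have h1 : v = ∑ i, v i • (Pi.single i (1 : F) : Fin m → F) := by
    funext j
    rw [Finset.sum_apply, Finset.sum_eq_single j]
    · simp
    · intro i _ hij
      simp [Pi.single_eq_of_ne hij.symm]
    · intro h; exact absurd (mem_univ _) h
  conv_rhs => rw [h1]
  rw [map_sum]
  funext j
  rw [Finset.sum_apply]
  unfold Matrix.vecMul dotProduct
  refine sum_congr rfl fun i _ => ?_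
  rw [map_smul]
  rfl

/-- splitting of an exact pair -/
theorem split_of_exact (A : Matrix (Fin b) (Fin a) F) (B : Matrix (Fin c) (Fin b) F)
    (h : ∀ v, Matrix.vecMul v A = 0 → ∃ w, v = Matrix.vecMul w B) :
    ∃ (H : Matrix (Fin a) (Fin b) F) (H' : Matrix (Fin b) (Fin c) F), A * H + H' * B = 1 := by
  set f : (Fin c → F) →ₗ[F] (Fin b → F) := Matrix.vecMulLinear B with hf
  set g : (Fin b → F) →ₗ[F] (Fin a → F) := Matrix.vecMulLinear A with hg
  obtain ⟨s', hs'⟩ := g.rangeRestrict.exists_rightInverse_of_surjective (LinearMap.range_rangeRestrict g)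
  obtain ⟨T, hT⟩ := LinearMap.exists_extend s'
  have hgT : ∀ v, g (T (g v)) = g v := by
    intro v
    have h1 : T (g v) = s' ⟨g v, LinearMap.mem_range_self g v⟩ := by
      have := congrArg (fun L => L ⟨g v, LinearMap.mem_range_self g v⟩) hT
      exact this
    rw [h1]
    have h2 := congrArg (fun L => (L ⟨g v, LinearMap.mem_range_self g v⟩ : LinearMap.range g)) hs'
    exact congrArg Subtype.val h2
  obtain ⟨t, ht⟩ := f.rangeRestrict.exists_rightInverse_of_surjective (LinearMap.range_rangeRestrict f)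
  have hker : ∀ v, (LinearMap.id - T.comp g : (Fin b → F) →ₗ[F] (Fin b → F)) v ∈ LinearMap.range f := by
    intro v
    obtain ⟨w, hw⟩ := h ((LinearMap.id - T.comp g : (Fin b → F) →ₗ[F] (Fin b → F)) v) (by
      change g (v - T (g v)) = 0
      rw [map_sub, hgT, sub_self])
    exact ⟨w, hw.symm⟩
  set T' : (Fin b → F) →ₗ[F] (Fin c → F) :=
    t.comp (LinearMap.codRestrict (LinearMap.range f) (LinearMap.id - T.comp g) hker) with hT'
  have hfT' : ∀ v, f (T' v) = v - T (g v) := by
    intro v
    have h2 := congrArg (fun L => (L (LinearMap.codRestrict (LinearMap.range f) (LinearMap.id - T.comp g) hker v) :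
      LinearMap.range f)) ht
    exact congrArg Subtype.val h2
  refine ⟨rowMat T, rowMat T', ?_⟩
  apply Matrix.ext_of_single_vecMul
  intro i
  rw [Matrix.vecMul_add, Matrix.vecMul_one, ← Matrix.vecMul_vecMul, ← Matrix.vecMul_vecMul, vecMul_rowMat,
    vecMul_rowMat]
  change T (g _) + f (T' _) = _
  rw [hfT']
  abel

/-- lifting to the integers -/
theorem det_lift {n m l : ℕ} (A : Matrix (Fin n) (Fin m) ℤ) (B : Matrix (Fin l) (Fin n) ℤ)
    (H : Matrix (Fin m) (Fin n) (ZMod 2)) (H' : Matrix (Fin n) (Fin l) (ZMod 2))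
    (h : A.map (Int.castRingHom (ZMod 2)) * H + H' * B.map (Int.castRingHom (ZMod 2)) = 1) :
    ∃ (K : Matrix (Fin m) (Fin n) ℤ) (K' : Matrix (Fin n) (Fin l) ℤ), (A * K + K' * B).det ≠ 0 := by
  have hlift : ∀ {p q : ℕ} (X : Matrix (Fin p) (Fin q) (ZMod 2)), ∃ Y : Matrix (Fin p) (Fin q) ℤ,
      Y.map (Int.castRingHom (ZMod 2)) = X := by
    intro p q X
    refine ⟨Matrix.of (fun i j => ((X i j).val : ℤ)), ?_⟩
    ext i j
    change ((((X i j).val : ℕ) : ℤ) : ZMod 2) = X i j
    simp
  obtain ⟨K, hK⟩ := hlift H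
  obtain ⟨K', hK'⟩ := hlift H'
  refine ⟨K, K', ?_⟩
  intro h0
  have h1 : ((A * K + K' * B).map (Int.castRingHom (ZMod 2))).det = 0 := by
    have h2 := RingHom.map_det (Int.castRingHom (ZMod 2)) (A * K + K' * B)
    rw [h0, map_zero] at h2
    exact h2.symm
  rw [Matrix.map_add _ (map_add _), Matrix.map_mul, Matrix.map_mul, hK, hK', h, Matrix.det_one] at h1
  exact one_ne_zero h1

end linalg

section

variable {V : Type} [Fintype V] [LinearOrder V] (G : SimpleGraph V)

theorem sgn_two (v : V) (T : Finset V) (x : ZMod 2) : sgn v T • x = x := by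
  unfold sgn
  rcases neg_one_pow_eq_or ℤ (T.filter (fun u => u < v)).card with h | h
  · rw [h, one_smul]
  · rw [h, neg_smul, one_smul]
    revert x; decide

theorem exact_of_pairing (k : ℕ)
    (hpair : ∀ z φ : Finset V → ZMod 2, (∀ T, z T ≠ 0 → Cl G T ∧ T.card = k + 1) →
      (∀ S : Finset V, ∑ v ∈ Sᶜ, z (insert v S) = 0) →
      (∀ R : Finset V, Cl G R → R.card = k + 2 → ∑ v ∈ R, φ (R.erase v) = 0) →
      ∑ P ∈ powersetCard (k + 1) univ, φ P * z P = 0)
    (v : Fin (Fintype.card (XC G (k + 1))) → ZMod 2) (hv : Matrix.vecMul v (bM G (ZMod 2) k) = 0) :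
    ∃ w, v = Matrix.vecMul w (bM G (ZMod 2) (k + 1)) := by
  classical
  by_contra hne
  set Rg : Submodule (ZMod 2) (Fin (Fintype.card (XC G (k + 1))) → ZMod 2) :=
    LinearMap.range (Matrix.vecMulLinear (bM G (ZMod 2) (k + 1))) with hRg
  have hvR : v ∉ Rg := by
    rintro ⟨w, hw⟩
    exact hne ⟨w, hw.symm⟩
  obtain ⟨ψ, hψ1, hψ2⟩ := Submodule.exists_dual_map_eq_bot_of_notMem hvR inferInstance
  have hψ3 : ∀ w, ψ (Matrix.vecMul w (bM G (ZMod 2) (k + 1))) = 0 := by
    intro w
    have h1 : ψ (Matrix.vecMul w (bM G (ZMod 2) (k + 1))) ∈ Rg.map ψ :=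
      Submodule.mem_map_of_mem ⟨w, rfl⟩
    rw [hψ2] at h1
    exact h1
  -- expansion of `ψ`
  set c : Fin (Fintype.card (XC G (k + 1))) → ZMod 2 := fun i => ψ (Pi.single i 1) with hc
  have hψ : ∀ u : Fin (Fintype.card (XC G (k + 1))) → ZMod 2, ψ u = ∑ i, c i * u i := by
    intro u
    have h1 : u = ∑ i, u i • (Pi.single i (1 : ZMod 2) : Fin (Fintype.card (XC G (k + 1))) → ZMod 2) := by
      funext j
      rw [Finset.sum_apply, Finset.sum_eq_single j]
      · simp
      · intro i _ hij
        simp [Pi.single_eq_of_ne hij.symm]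
      · intro h; exact absurd (mem_univ _) h
    conv_lhs => rw [h1]
    rw [map_sum]
    refine sum_congr rfl fun i _ => ?_
    rw [map_smul, smul_eq_mul, mul_comm]
  have hsum : ∀ x y : Fin (Fintype.card (XC G (k + 1))) → ZMod 2,
      ∑ P ∈ powersetCard (k + 1) univ, toC G (k + 1) x P * toC G (k + 1) y P = ∑ i, x i * y i := by
    intro x y
    have h1 : ∑ P ∈ powersetCard (k + 1) univ, toC G (k + 1) x P * toC G (k + 1) y P =
        ∑ P : Finset V, toC G (k + 1) x P * toC G (k + 1) y P := by
      refine sum_subset (subset_univ _) fun P _ hP => ?_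
      rw [mem_powersetCard_univ] at hP
      unfold toC
      rw [dif_neg (fun h => hP h.2), zero_mul]
    rw [h1, ← Equiv.sum_comp (ee G (k + 1)) (fun i => x i * y i)]
    rw [← sum_filter_add_sum_filter_not univ (fun P : Finset V => G.IsClique (P : Set V) ∧ P.card = k + 1),
      sum_eq_zero (s := univ.filter (fun P : Finset V => ¬ (G.IsClique (P : Set V) ∧ P.card = k + 1))), add_zero]
    · rw [Finset.sum_subtype (univ.filter (fun P : Finset V => G.IsClique (P : Set V) ∧ P.card = k + 1))
        (p := fun P : Finset V => G.IsClique (P : Set V) ∧ P.card = k + 1) (by simp)]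
      refine Fintype.sum_congr _ _ fun P => ?_
      unfold toC
      rw [dif_pos P.2, dif_pos P.2]
    · intro P hP
      unfold toC
      rw [dif_neg (mem_filter.mp hP).2, zero_mul]
  have h0 := hpair (toC G (k + 1) v) (toC G (k + 1) c) (fun T hT => (toC_sup G (k + 1) v T hT).2) ?_ ?_
  · rw [hsum, ← hψ] at h0
    exact hψ1 h0
  · -- the cycle condition
    have h1 : bdR (fun _ : V => AddMonoidHom.mulRight (1 : ZMod 2)) (toC G (k + 1) v) = 0 := by
      refine frC_inj G (bdR_sup G (toC_sup G (k + 1) v)) (fun T hT => absurd rfl hT) ?_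
      rw [← vecMul_dMat, frC_zero]
      exact hv
    intro S
    have h2 := congrFun h1 S
    unfold bdR at h2
    rw [Pi.zero_apply] at h2
    rw [← h2]
    refine sum_congr rfl fun u _ => ?_
    rw [sgn_two]
    simp
  · -- the cocycle condition
    intro R hR hRc
    set σ : XC G (k + 2) := ⟨R, hR, hRc⟩ with hσ
    have h1 := hψ3 (Pi.single (ee G (k + 2) σ) 1)
    rw [hψ] at h1
    rw [← h1]
    have h2 : ∀ i, Matrix.vecMul (Pi.single (ee G (k + 2) σ) 1) (bM G (ZMod 2) (k + 1)) i =
        inc G (fun _ => (1 : ZMod 2)) σ ((ee G (k + 1)).symm i) := by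
      intro i
      rw [Matrix.single_one_vecMul]
      change inc G (fun _ => (1 : ZMod 2)) ((ee G (k + 2)).symm (ee G (k + 2) σ)) ((ee G (k + 1)).symm i) = _
      rw [Equiv.symm_apply_apply]
    simp only [h2]
    rw [← Equiv.sum_comp (ee G (k + 1))]
    simp only [Equiv.symm_apply_apply]
    unfold inc
    simp only [mul_sum, sgn_two]
    rw [sum_comm]
    have h3 : ∀ u : V, (∑ τ : XC G (k + 1), c (ee G (k + 1) τ) *
        (if u ∉ τ.1 ∧ insert u τ.1 = σ.1 then (1 : ZMod 2) else 0)) =
        if u ∈ R then toC G (k + 1) c (R.erase u) else 0 := by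
      intro u
      by_cases hu : u ∈ R
      · rw [if_pos hu]
        have h4 : G.IsClique ((R.erase u : Finset V) : Set V) ∧ (R.erase u).card = k + 1 := by
          refine ⟨Cl_mono G _ _ (erase_subset _ _) hR, ?_⟩
          rw [card_erase_of_mem hu, hRc]
          rfl
        rw [sum_eq_single ⟨R.erase u, h4⟩]
        · rw [if_pos ⟨notMem_erase _ _, insert_erase hu⟩, mul_one]
          unfold toC
          rw [dif_pos h4]
        · intro τ _ hτ
          rw [if_neg, mul_zero]
          rintro ⟨h5, h6⟩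
          apply hτ
          apply Subtype.ext
          change τ.1 = R.erase u
          have h7 : insert u τ.1 = R := h6
          rw [← h7, erase_insert h5]
        · intro h; exact absurd (mem_univ _) h
      · rw [if_neg hu]
        refine sum_eq_zero fun τ _ => ?_
        rw [if_neg, mul_zero]
        rintro ⟨_, h6⟩
        apply hu
        have h7 : insert u τ.1 = R := h6
        rw [← h7]
        exact mem_insert_self _ _
    rw [sum_congr rfl fun u _ => h3 u, ← sum_filter]
    refine sum_congr ?_ fun _ _ => rfl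
    ext u; simp

end

end Pool.Agent.H77RA
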