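import Pool.Agent.H77RA.D1
import Pool.Agent.H77RA.C3

/-!
# The odd map on the deleted join of the octahedralization
-/

set_option autoImplicit false
set_option linter.unusedSectionVars false

namespace Pool.Agent.H77RA

open Finset Pool.Agent.W326.DU Pool.Agent.W555.KS Pool.Agent.Y131.KS Pool.Agent.R782.Bal

variable {V : Type} [Fintype V] [DecidableEq V] (G : SimpleGraph V)

/-- the bump function of a lattice point -/
noncomputable def sF (a : V → ℤ) (y : V → ℝ) : unitInterval :=
  Set.projIcc 0 1 zero_le_one (2 - ‖y - fun v => (a v : ℝ)‖)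

theorem sF_cont (a : V → ℤ) : Continuous (sF a) := by
  unfold sF
  exact continuous_projIcc.comp (continuous_const.sub (continuous_id.sub continuous_const).norm)

theorem sF_ne {a : V → ℤ} {y : V → ℝ} (h : sF a y ≠ 0) : ∀ v, |y v - a v| < 2 := by
  intro v
  by_contra h1
  push Not at h1
  apply h
  unfold sF
  have h2 : |y v - a v| ≤ ‖y - fun v => (a v : ℝ)‖ := norm_le_pi_norm (y - fun v => (a v : ℝ)) v
  rw [Set.projIcc_of_le_left zero_le_one (by linarith)]
  rfl

theorem sF_one {a : V → ℤ} {y : V → ℝ} (h : ∀ v, |y v - a v| ≤ 1) : sF a y = 1 := by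
  unfold sF
  have h2 : ‖y - fun v => (a v : ℝ)‖ ≤ 1 := by
    rw [pi_norm_le_iff_of_nonneg zero_le_one]
    exact h
  rw [Set.projIcc_of_right_le zero_le_one (by linarith)]
  rfl

open Classical in
/-- the lattice points in a box with clique support -/
noncomputable def boxF (N : ℤ) : Finset (V → ℤ) :=
  (Finset.Icc (fun _ => -N) (fun _ => N)).filter (fun a => G.IsClique {v | a v ≠ 0})

/-- the list of pairs -/
noncomputable def lF (N : ℤ) : List (RAAG G.Adj × ((V → ℝ) → unitInterval)) :=
  (boxF G N).toList.map (fun a => (gL G a, sF a))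

open Classical in
theorem count_le (N : ℤ) (y : V → ℝ) :
    (lF G N).countP (fun q => decide (q.2 y ≠ 0)) ≤ 6 ^ Fintype.card V := by
  unfold lF
  rw [List.countP_map, List.countP_eq_length_filter]
  have h1 : ((boxF G N).toList.filter ((fun q : RAAG G.Adj × ((V → ℝ) → unitInterval) =>
      decide (q.2 y ≠ 0)) ∘ fun a => (gL G a, sF a))).toFinset ⊆
      Fintype.piFinset (fun v => Finset.Icc (⌊y v⌋ - 2) (⌊y v⌋ + 3)) := by
    intro a ha
    rw [List.mem_toFinset, List.mem_filter] at ha
    have h2 : sF a y ≠ 0 := by simpa using ha.2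
    rw [Fintype.mem_piFinset]
    intro v
    have h3 := abs_lt.mp (sF_ne h2 v)
    have h4 := Int.floor_le (y v)
    have h5 := Int.lt_floor_add_one (y v)
    rw [Finset.mem_Icc]
    constructor
    · have : ((⌊y v⌋ - 2 : ℤ) : ℝ) < a v + 0 + 0 + 0 ∨ True := Or.inr trivial
      have h6 : ((⌊y v⌋ : ℤ) : ℝ) - 2 < a v := by linarith
      have h7 : ⌊y v⌋ - 2 < a v := by exact_mod_cast h6
      exact h7.le
    · have h6 : (a v : ℝ) < ((⌊y v⌋ : ℤ) : ℝ) + 3 := by linarith
      have h7 : a v < ⌊y v⌋ + 3 := by exact_mod_cast h6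
      exact h7.le
  have h2 := card_le_card h1
  rw [List.toFinset_card_of_nodup ((Finset.nodup_toList _).filter _)] at h2
  refine h2.trans ?_
  rw [Fintype.card_piFinset]
  rw [Finset.prod_congr rfl (g := fun _ => 6)]
  · simp
  · intro v _
    rw [Int.card_Icc]
    have : ⌊y v⌋ + 3 + 1 - (⌊y v⌋ - 2) = 6 := by ring
    rw [this]
    rfl

/-- A direction function with values in `ℝ^N` on the pairs of distinct points of `W`: a continuous function `θ` without
zeros and with `θ(y,x) = -θ(x,y)`. For a subset of `ℝ^N`, `θ(x,y) = x - y` is such a function. -/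
def DirF (W : Type) [TopologicalSpace W] (N : ℕ) : Prop :=
  ∃ θ : W → W → (Fin N → ℝ), ContinuousOn (fun p : W × W => θ p.1 p.2) {p | p.1 ≠ p.2} ∧
    ∀ x y, x ≠ y → θ x y ≠ 0 ∧ θ y x = -θ x y

theorem dirF_of_inj {W : Type} [TopologicalSpace W] {N : ℕ} (i : W → (Fin N → ℝ)) (hc : Continuous i)
    (hi : Function.Injective i) : DirF W N := by
  refine ⟨fun x y => i x - i y, ?_, fun x y h => ⟨sub_ne_zero.mpr (hi.ne h), (neg_sub _ _).symm⟩⟩
  exact ((hc.comp continuous_fst).sub (hc.comp continuous_snd)).continuousOn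

/-- the coordinates of the point of the union of the flats -/
def cF {n : ℕ} (e : V × Bool ≃ Fin n) (x : Fin n → ℝ) (v : V) : ℝ :=
  max (x (e (v, true))) 0 - max (x (e (v, false))) 0

theorem cF_cont {n : ℕ} (e : V × Bool ≃ Fin n) : Continuous (cF e : (Fin n → ℝ) → V → ℝ) := by
  unfold cF
  fun_prop

variable {W : Type} [TopologicalSpace W] [ContractibleSpace W] [MulAction (RAAG G.Adj) W]
  [ContinuousConstSMul (RAAG G.Adj) W] [ProperlyDiscontinuousSMul (RAAG G.Adj) W]

open Pointwise in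
/-- The map of the cone over the deleted join. -/
theorem exists_f1 {n : ℕ} (e : V × Bool ≃ Fin n) :
    ∃ f1 : (Fin n → ℝ) → W, Continuous f1 ∧ ∀ x ∈ dJoin (clF (OG G) e), f1 x ≠ f1 (-x) := by
  classical
  obtain ⟨p, ⟨H⟩⟩ := id_nullhomotopic W
  set HH : C(unitInterval × W, W) := H.toContinuousMap with hHH
  have hH0 : ∀ w, HH (0, w) = w := fun w => H.apply_zero w
  have hH1 : ∀ w, HH (1, w) = p := fun w => H.apply_one w
  set K : Set W := KK HH p (SS G) (6 ^ Fintype.card V) with hK
  have hKc : IsCompact K := KK_compact HH p (SS_finite G) _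
  have hT : Set.Finite {γ : RAAG G.Adj | (fun w => γ • w) '' K ∩ K ≠ ∅} := by
    have := ProperlyDiscontinuousSMul.finite_disjoint_inter_image (Γ := RAAG G.Adj) hKc hKc
    simpa [Set.nonempty_iff_ne_empty] using this
  -- bound for the exponent sums
  obtain ⟨B, hB⟩ : ∃ B : ℕ, ∀ γ ∈ {γ : RAAG G.Adj | (fun w => γ • w) '' K ∩ K ≠ ∅}, ∀ v,
      |Multiplicative.toAdd (chi G v γ)| ≤ B := by
    have h1 : Set.Finite ((fun γ : RAAG G.Adj => ∑ v, (Multiplicative.toAdd (chi G v γ)).natAbs) ''
        {γ : RAAG G.Adj | (fun w => γ • w) '' K ∩ K ≠ ∅}) := hT.image _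
    obtain ⟨B, hB⟩ := h1.bddAbove
    refine ⟨B, fun γ hγ v => ?_⟩
    have h2 := hB ⟨γ, hγ, rfl⟩
    have h3 : (Multiplicative.toAdd (chi G v γ)).natAbs ≤ B :=
      (Finset.single_le_sum (f := fun v => (Multiplicative.toAdd (chi G v γ)).natAbs)
        (fun _ _ => Nat.zero_le _) (mem_univ v)).trans h2
    rw [Int.abs_eq_natAbs]
    exact_mod_cast h3
  set R : ℕ := Fintype.card V * (B + 4) + 1 with hR
  set F : (V → ℝ) → W := fun y => foldF HH (lF G (R + 1)) y p with hF
  have hFc : Continuous F := by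
    refine foldF_cont HH _ ?_ p
    intro q hq
    obtain ⟨a, _, rfl⟩ := List.mem_map.mp hq
    exact sF_cont a
  -- location of the values
  have hloc : ∀ y : V → ℝ, (∀ v, |y v| ≤ R) → G.IsClique {v | y v ≠ 0} →
      ∃ a : V → ℤ, (∀ v, |y v - a v| ≤ 1) ∧ (gL G a)⁻¹ • F y ∈ K := by
    intro y hy hcl
    set a : V → ℤ := fun v => ⌊y v⌋ with ha
    have h1 : ∀ v, |y v - a v| ≤ 1 := by
      intro v
      rw [abs_le]
      have h4 := Int.floor_le (y v)
      have h5 := Int.lt_floor_add_one (y v)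
      simp only [ha]
      constructor <;> linarith
    have hcla : G.IsClique {v | a v ≠ 0} := by
      refine hcl.subset ?_
      intro v hv
      simp only [Set.mem_setOf_eq, ha] at hv ⊢
      intro h2
      rw [h2] at hv
      simp at hv
    have hmem : a ∈ boxF G (R + 1) := by
      unfold boxF
      rw [mem_filter, Finset.mem_Icc]
      refine ⟨⟨fun v => ?_, fun v => ?_⟩, hcla⟩
      · have h2 := abs_le.mp (hy v)
        have h3 := abs_le.mp (h1 v)
        have h4 : (-(((R : ℤ) + 1 : ℤ)) : ℝ) ≤ a v := by push_cast; linarith [h2.1, h3.2]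
        exact_mod_cast h4
      · have h2 := abs_le.mp (hy v)
        have h3 := abs_le.mp (h1 v)
        have h4 : (a v : ℝ) ≤ (((R : ℤ) + 1 : ℤ) : ℝ) := by push_cast; linarith [h2.2, h3.1]
        exact_mod_cast h4
    refine ⟨a, h1, ?_⟩
    refine KK_mono HH p (SS G) (count_le G (R + 1) y) ?_
    refine foldF_mem HH p hH0 hH1 (SS G) (lF G (R + 1)) y (gL G a) ?_ ?_ p
    · intro q hq hq'
      obtain ⟨a', ha', rfl⟩ := List.mem_map.mp hq
      rw [Finset.mem_toList] at ha'
      unfold boxF at ha'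
      refine near_mem G hcla (mem_filter.mp ha').2 ?_
      intro v
      have h2 := abs_lt.mp (sF_ne hq' v)
      have h3 := abs_le.mp (h1 v)
      have h4 : |((a v - a' v : ℤ) : ℝ)| ≤ 4 := by
        rw [abs_le]; push_cast
        constructor <;> linarith [h2.1, h2.2, h3.1, h3.2]
      exact_mod_cast h4
    · refine ⟨(gL G a, sF a), List.mem_map.mpr ⟨a, Finset.mem_toList.mpr hmem, rfl⟩, sF_one h1⟩
  -- the odd map
  have hneg : ∀ x ∈ dJoin (clF (OG G) e), -x ∈ dJoin (clF (OG G) e) := by
    intro x hx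
    rw [dJoin_eq (clF_cx _ _)] at hx ⊢
    exact X_neg (clF_cx _ _) hx
  have hpos : ∀ x ∈ dJoin (clF (OG G) e), ∀ v, ¬ (0 < x (e (v, true)) ∧ 0 < x (e (v, false))) := by
    rintro x ⟨_, hx, _⟩ v ⟨h1, h2⟩
    rw [mem_clF] at hx
    have h3 := hx (x := (v, true)) (by
      rw [mem_coe, mem_map]
      exact ⟨e (v, true), mem_filter.mpr ⟨mem_univ _, h1⟩, by simp⟩) (y := (v, false)) (by
      rw [mem_coe, mem_map]
      exact ⟨e (v, false), mem_filter.mpr ⟨mem_univ _, h2⟩, by simp⟩) (by simp)
    simp at h3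
  have hclq : ∀ x ∈ dJoin (clF (OG G) e), G.IsClique {v | cF e x v ≠ 0} := by
    rintro x ⟨_, hx, _⟩ u hu w hw huw
    rw [mem_clF] at hx
    have key : ∀ v, cF e x v ≠ 0 → ∃ s, 0 < x (e (v, s)) := by
      intro v hv
      by_contra h
      push Not at h
      apply hv
      unfold cF
      rw [max_eq_right (h true), max_eq_right (h false), sub_zero]
    obtain ⟨s, hs⟩ := key u hu
    obtain ⟨t, ht⟩ := key w hw
    have h3 := hx (x := (u, s)) (by
      rw [mem_coe, mem_map]
      exact ⟨e (u, s), mem_filter.mpr ⟨mem_univ _, hs⟩, by simp⟩) (y := (w, t)) (by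
      rw [mem_coe, mem_map]
      exact ⟨e (w, t), mem_filter.mpr ⟨mem_univ _, ht⟩, by simp⟩) (by
        intro h; exact huw (congrArg Prod.fst h))
    simpa using h3
  have hbd : ∀ x ∈ dJoin (clF (OG G) e), ∀ v, |cF e x v| ≤ 1 := by
    rintro x ⟨hx, _, _⟩ v
    have h1 : ∀ i, |x i| ≤ 1 := by
      intro i
      rw [← hx]
      exact Finset.single_le_sum (f := fun i => |x i|) (fun _ _ => abs_nonneg _) (mem_univ i)
    have h2 : ∀ i, 0 ≤ max (x i) 0 ∧ max (x i) 0 ≤ 1 := by
      intro i
      refine ⟨le_max_right _ _, max_le ((le_abs_self _).trans (h1 i)) zero_le_one⟩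
    unfold cF
    have h3 := h2 (e (v, true))
    have h4 := h2 (e (v, false))
    rw [abs_le]
    constructor <;> linarith [h3.1, h3.2, h4.1, h4.2]
  have hsum : ∀ x ∈ dJoin (clF (OG G) e), ∑ v, |cF e x v - cF e (-x) v| = 1 := by
    intro x hx
    have h0 := hx.1
    rw [← Equiv.sum_comp e (fun i => |x i|), Fintype.sum_prod_type] at h0
    rw [← h0]
    refine sum_congr rfl fun v _ => ?_
    rw [Fintype.sum_bool]
    have h1 := hpos x hx v
    have h2 := hpos (-x) (hneg x hx) v
    simp only [Pi.neg_apply, Left.neg_pos_iff] at h2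
    unfold cF
    simp only [Pi.neg_apply]
    rcases le_total (x (e (v, true))) 0 with ha | ha <;> rcases le_total (x (e (v, false))) 0 with hb | hb
    · rw [max_eq_right ha, max_eq_right hb, max_eq_left (neg_nonneg.mpr ha), max_eq_left (neg_nonneg.mpr hb),
        abs_of_nonpos ha, abs_of_nonpos hb]
      rcases ha.eq_or_lt with ha' | ha'
      · rw [ha']
        rw [abs_of_nonneg (by linarith)]
        ring
      · rcases hb.eq_or_lt with hb' | hb'
        · rw [hb']
          rw [abs_of_nonpos (by linarith)]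
          ring
        · exact absurd ⟨ha', hb'⟩ h2
    · rw [max_eq_right ha, max_eq_left hb, max_eq_left (neg_nonneg.mpr ha), max_eq_right (neg_nonpos.mpr hb),
        abs_of_nonpos ha, abs_of_nonneg hb, abs_of_nonpos (by linarith)]
      ring
    · rw [max_eq_left ha, max_eq_right hb, max_eq_right (neg_nonpos.mpr ha), max_eq_left (neg_nonneg.mpr hb),
        abs_of_nonneg ha, abs_of_nonpos hb, abs_of_nonneg (by linarith)]
      ring
    · rw [max_eq_left ha, max_eq_left hb, max_eq_right (neg_nonpos.mpr ha), max_eq_right (neg_nonpos.mpr hb),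
        abs_of_nonneg ha, abs_of_nonneg hb]
      rcases ha.eq_or_lt with ha' | ha'
      · rw [← ha']
        rw [abs_of_nonpos (by linarith)]
        ring
      · rcases hb.eq_or_lt with hb' | hb'
        · rw [← hb']
          rw [abs_of_nonneg (by linarith)]
          ring
        · exact absurd ⟨ha', hb'⟩ h1
  set f1 : (Fin n → ℝ) → W := fun x => F ((R : ℝ) • cF e x) with hf1
  have hf1c : Continuous f1 := by
    have h1 : Continuous (fun x : Fin n → ℝ => (R : ℝ) • cF e x) := (cF_cont e).const_smul (R : ℝ)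
    exact hFc.comp h1
  have hne : ∀ x ∈ dJoin (clF (OG G) e), f1 x ≠ f1 (-x) := by
    intro x hx heq
    have hx' := hneg x hx
    have hRpos : (0 : ℝ) < R := by
      rw [hR]; push_cast; positivity
    have hb : ∀ x ∈ dJoin (clF (OG G) e), ∀ v, |((R : ℝ) • cF e x) v| ≤ R := by
      intro x hx v
      rw [Pi.smul_apply, smul_eq_mul, abs_mul, abs_of_pos hRpos]
      have := hbd x hx v
      nlinarith
    have hc : ∀ x ∈ dJoin (clF (OG G) e), G.IsClique {v | ((R : ℝ) • cF e x) v ≠ 0} := by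
      intro x hx
      refine (hclq x hx).subset ?_
      intro v hv
      simp only [Set.mem_setOf_eq, Pi.smul_apply, smul_eq_mul] at hv ⊢
      exact right_ne_zero_of_mul hv
    obtain ⟨a, ha, haK⟩ := hloc _ (hb x hx) (hc x hx)
    obtain ⟨a', ha', haK'⟩ := hloc _ (hb (-x) hx') (hc (-x) hx')
    have hmem : (gL G a)⁻¹ * gL G a' ∈ {γ : RAAG G.Adj | (fun w => γ • w) '' K ∩ K ≠ ∅} := by
      rw [Set.mem_setOf_eq, ← Set.nonempty_iff_ne_empty]
      refine ⟨(gL G a)⁻¹ • f1 x, ⟨(gL G a')⁻¹ • f1 (-x), haK', ?_⟩, haK⟩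
      simp only
      rw [smul_smul, mul_assoc, mul_inv_cancel, mul_one, heq]
    have h1 : ∀ v, |((R : ℝ) • cF e x) v - ((R : ℝ) • cF e (-x)) v| ≤ B + 2 := by
      intro v
      have h2 := hB _ hmem v
      rw [map_mul, map_inv, chi_gL, chi_gL] at h2
      have h3 : |(a' v : ℝ) - a v| ≤ B := by
        have h4 : |(-a v + a' v : ℤ)| ≤ (B : ℤ) := h2
        have h5 : ((|(-a v + a' v : ℤ)| : ℤ) : ℝ) ≤ ((B : ℤ) : ℝ) := by exact_mod_cast h4
        push_cast at h5
        rw [show (a' v : ℝ) - a v = -a v + a' v by ring]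
        exact h5
      have h4 := ha v
      have h5 := ha' v
      rw [abs_le] at h3 h4 h5 ⊢
      constructor <;> linarith [h3.1, h3.2, h4.1, h4.2, h5.1, h5.2]
    have h2 : ∑ v, |((R : ℝ) • cF e x) v - ((R : ℝ) • cF e (-x)) v| = R := by
      have h3 := congrArg (fun t => (R : ℝ) * t) (hsum x hx)
      simp only [mul_one] at h3
      rw [Finset.mul_sum] at h3
      rw [← h3, h3]
      conv_rhs => rw [← h3]
      refine sum_congr rfl fun v _ => ?_
      rw [Pi.smul_apply, Pi.smul_apply, smul_eq_mul, smul_eq_mul, ← mul_sub, abs_mul, abs_of_pos hRpos]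
    have h3 : (R : ℝ) ≤ Fintype.card V * (B + 2) := by
      rw [← h2]
      refine (sum_le_sum fun v _ => h1 v).trans ?_
      rw [sum_const, nsmul_eq_mul, card_univ]
    have h4 : (R : ℝ) = Fintype.card V * (B + 4) + 1 := by
      rw [hR]; push_cast; ring
    have h5 : (0 : ℝ) ≤ Fintype.card V := Nat.cast_nonneg _
    nlinarith
  exact ⟨f1, hf1c, hne⟩

/-- **Theorem.** Let a right-angled Artin group act properly discontinuously on a contractible space `W` which has a
direction function with values in `ℝ^N`. Then the deleted join of the octahedralization of the flag complex has an odd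
map to `ℝ^N` without zeros. -/
theorem oddMap_of_action {N : ℕ} (hθ : DirF W N) {n : ℕ} (e : V × Bool ≃ Fin n) :
    OddMap (clF (OG G) e) N := by
  obtain ⟨θ, hθc, hθ'⟩ := hθ
  obtain ⟨f1, hf1c, hne⟩ := exists_f1 (W := W) G e
  refine ⟨fun x => θ (f1 x) (f1 (-x)), ?_, ?_⟩
  · refine hθc.comp ((hf1c.prodMk (hf1c.comp continuous_neg)).continuousOn) ?_
    intro x hx
    exact hne x hx
  · intro x hx
    have h1 := hθ' _ _ (hne x hx)
    refine ⟨?_, h1.1⟩
    change θ (f1 (-x)) (f1 (- -x)) = -θ (f1 x) (f1 (-x))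
    rw [neg_neg]
    exact h1.2

end Pool.Agent.H77RA
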