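import Mathlib
import Pool.Agent.Y131.KS.Odd

/-!
# Prisms and the annulus over the deleted join
-/

set_option autoImplicit false
set_option linter.unusedSectionVars false

namespace Pool.Agent.H77RA

open Finset Pool.Agent.W555.KS Pool.Agent.Helper133.BU Pool.Agent.W357.KS.Fan Pool.Agent.Y131.KS

section alg

variable {X : Type*} (f : X → X)

/-- the image of a chain -/
noncomputable def mpC : Chain X →ₗ[ZMod 2] Chain X :=
  Finsupp.lmapDomain (ZMod 2) (ZMod 2) (List.map f)

theorem mpC_single (l : List X) (a : ZMod 2) : mpC f (Finsupp.single l a) = Finsupp.single (l.map f) a := by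
  simp [mpC]

theorem mpC_cone (v : X) (c : Chain X) : mpC f (cone v c) = cone (f v) (mpC f c) := by
  induction c using Finsupp.induction_linear with
  | zero => simp
  | add f g hf hg => simp only [map_add, hf, hg]
  | single l b => rw [cone_single, mpC_single, mpC_single, cone_single, List.map_cons]

theorem mpC_bdL (l : List X) : mpC f (bdL l) = bdL (l.map f) := by
  rw [bdL_map]
  rfl

/-- the prism over a list -/
noncomputable def prL : List X → Chain X
  | [] => 0
  | v :: l => Finsupp.single (v :: f v :: l.map f) 1 + cone v (prL l)

/-- the prism over a chain -/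
noncomputable def prC : Chain X →ₗ[ZMod 2] Chain X := Finsupp.linearCombination (ZMod 2) (prL f)

theorem prC_single (l : List X) (a : ZMod 2) : prC f (Finsupp.single l a) = a • prL f l := by
  simp [prC]

theorem prC_cone (v : X) (c : Chain X) :
    prC f (cone v c) = cone v (cone (f v) (mpC f c)) + cone v (prC f c) := by
  induction c using Finsupp.induction_linear with
  | zero => simp
  | add f g hf hg => simp only [map_add, hf, hg]; abel
  | single l b =>
    rw [cone_single, prC_single, prC_single, mpC_single, cone_single, cone_single, prL, smul_add, map_smul,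
      Finsupp.smul_single, smul_eq_mul, mul_one]

theorem bd_prL (l : List X) :
    bd (prL f l) = Finsupp.single l 1 + Finsupp.single (l.map f) 1 + prC f (bdL l) := by
  induction l with
  | nil =>
    simp only [prL, bdL, map_zero, List.map_nil, add_zero]
    rw [add_self]
  | cons v l ih =>
    rw [prL, map_add, bd_cone, bd_single, one_smul, ih]
    simp only [bdL, map_add, cone_single, prC_cone, prC_single, one_smul, mpC_bdL]
    have e1 := add_self (cone v (Finsupp.single (l.map f) (1 : ZMod 2)))
    rw [cone_single] at e1
    rw [List.map_cons]
    have key : ∀ a b c d p q : Chain X,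
        a + (b + c) + (p + ((q + b) + d)) = (q + a) + (p + (c + d)) + (b + b) := by
      intros; abel
    rw [key, add_self, add_zero]

theorem bd_prC (c : Chain X) : bd (prC f c) = c + mpC f c + prC f (bd c) := by
  induction c using Finsupp.induction_linear with
  | zero => simp
  | add f g hf hg => simp only [map_add, hf, hg]; abel
  | single l a =>
    rw [prC_single, map_smul, bd_prL, bd_single, map_smul, mpC_single, smul_add, smul_add, Finsupp.smul_single,
      Finsupp.smul_single, smul_eq_mul, mul_one]

theorem prL_mem (l : List X) : prL f l ∈ S (fun l' => l'.length = l.length + 1 ∧ ∀ u ∈ l', ∃ v ∈ l, u = v ∨ u = f v) := by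
  induction l with
  | nil => exact Submodule.zero_mem _
  | cons x t ih =>
    rw [prL]
    refine Submodule.add_mem _ (single_mem_S ?_ 1) (cone_mem_S x ?_ ih)
    · refine ⟨by simp, ?_⟩
      intro u hu
      rcases List.mem_cons.mp hu with rfl | hu
      · exact ⟨u, by simp, Or.inl rfl⟩
      · rcases List.mem_cons.mp hu with rfl | hu
        · exact ⟨x, by simp, Or.inr rfl⟩
        · obtain ⟨v, hv, rfl⟩ := List.mem_map.mp hu
          exact ⟨v, by simp [hv], Or.inr rfl⟩
    · rintro l' ⟨h1, h2⟩
      refine ⟨by simp [h1], ?_⟩
      intro u hu
      rcases List.mem_cons.mp hu with rfl | hu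
      · exact ⟨u, by simp, Or.inl rfl⟩
      · obtain ⟨v, hv, h⟩ := h2 u hu
        exact ⟨v, by simp [hv], h⟩

end alg

section neg

variable {X : Type*} [AddCommGroup X] [Module ℝ X] (e : ℝ)

theorem nu_mp (c : Chain X) : nu (mpC (fun v : X => e • v) c) = mpC (fun v : X => e • v) (nu c) := by
  induction c using Finsupp.induction_linear with
  | zero => simp
  | add f g hf hg => simp only [map_add, hf, hg]
  | single l b =>
    rw [mpC_single, nu_single, nu_single, mpC_single, List.map_map, List.map_map]
    congr 1
    refine List.map_congr_left fun v _ => ?_
    simp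

theorem nu_prL (l : List X) : nu (prL (fun v : X => e • v) l) = prL (fun v : X => e • v) (l.map (fun v => -v)) := by
  induction l with
  | nil => simp [prL]
  | cons v l ih =>
    have h1 : (v :: (fun v : X => e • v) v :: List.map (fun v : X => e • v) l).map (fun v => -v) =
        -v :: (fun v : X => e • v) (-v) :: (l.map (fun v => -v)).map (fun v : X => e • v) := by
      simp
    rw [List.map_cons, prL, prL, map_add, nu_cone, ih, nu_single, h1]

theorem nu_prC (c : Chain X) : nu (prC (fun v : X => e • v) c) = prC (fun v : X => e • v) (nu c) := by
  induction c using Finsupp.induction_linear with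
  | zero => simp
  | add f g hf hg => simp only [map_add, hf, hg]
  | single l b => rw [prC_single, map_smul, nu_prL, nu_single, prC_single]

theorem bary_map (l : List X) : bary (l.map (fun v => e • v)) = e • bary l := by
  have : (l.map (fun v => e • v)).sum = e • l.sum := by
    induction l with
    | nil => simp
    | cons x t ih => simp [ih]
  unfold bary
  rw [List.length_map, this, smul_comm]

theorem sub_mp (k : ℕ) (c : Chain X) :
    sub k (mpC (fun v : X => e • v) c) = mpC (fun v : X => e • v) (sub k c) := by
  induction k generalizing c with
  | zero => rfl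
  | succ k ih =>
    induction c using Finsupp.induction_linear with
    | zero => simp
    | add f g hf hg => simp only [map_add, hf, hg]
    | single l a =>
      rw [mpC_single, sub_succ_single, sub_succ_single, map_smul, mpC_cone, bary_map, ← mpC_bdL, ih]

theorem iter_mp (r k : ℕ) (c : Chain X) :
    (sub k)^[r] (mpC (fun v : X => e • v) c) = mpC (fun v : X => e • v) ((sub k)^[r] c) := by
  induction r generalizing c with
  | zero => rfl
  | succ r ih => rw [Function.iterate_succ_apply, sub_mp, ih, Function.iterate_succ_apply]

end neg

end Pool.Agent.H77RA
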