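import Mathlib
import Pool.Agent.H77RA.T1

/-!
# The annulus over the deleted join and the local cochain
-/

set_option autoImplicit false
set_option linter.unusedSectionVars false

namespace Pool.Agent.H77RA

open Finset Pool.Agent.W555.KS Pool.Agent.Helper133.BU Pool.Agent.W357.KS.Fan Pool.Agent.Y131.KS

variable {n : ℕ}

/-- cell of the annulus -/
def Ast (σ τ : Finset (Fin n)) (e : ℝ) : Set (Fin n → ℝ) :=
  {x | (∀ i, i ∉ σ → x i ≤ 0) ∧ (∀ i, i ∉ τ → 0 ≤ x i) ∧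
    e ≤ ∑ i, (if i ∈ τ then -x i else x i) ∧ ∑ i, (if i ∈ τ then -x i else x i) ≤ 1}

/-- cells of the annulus -/
def AC (L : Finset (Finset (Fin n))) (e : ℝ) : Set (Set (Fin n → ℝ)) :=
  {C | ∃ σ ∈ L, ∃ τ ∈ L, Disjoint σ τ ∧ C = Ast σ τ e}

/-- the annulus -/
def YY (L : Finset (Finset (Fin n))) (e : ℝ) : Set (Fin n → ℝ) :=
  (fun p : ℝ × (Fin n → ℝ) => p.1 • p.2) '' (Set.Icc e 1 ×ˢ X L)

theorem YY_compact (L : Finset (Finset (Fin n))) (e : ℝ) : IsCompact (YY L e) :=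
  (isCompact_Icc.prod (X_compact L)).image (by fun_prop)

theorem X_sub_YY {L : Finset (Finset (Fin n))} {e : ℝ} (he : e ≤ 1) {x : Fin n → ℝ} (hx : x ∈ X L) :
    x ∈ YY L e := ⟨(1, x), ⟨⟨he, le_rfl⟩, hx⟩, one_smul _ _⟩

theorem smul_YY {L : Finset (Finset (Fin n))} {e : ℝ} (he : e ≤ 1) {x : Fin n → ℝ} (hx : x ∈ X L) :
    e • x ∈ YY L e := ⟨(e, x), ⟨⟨le_rfl, he⟩, hx⟩, rfl⟩

theorem YY_neg {L : Finset (Finset (Fin n))} (hL : IsCx L) {e : ℝ} {x : Fin n → ℝ} (hx : x ∈ YY L e) :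
    -x ∈ YY L e := by
  obtain ⟨⟨t, y⟩, ⟨ht, hy⟩, rfl⟩ := hx
  exact ⟨(t, -y), ⟨ht, X_neg hL hy⟩, by simp⟩

theorem YY_ne {L : Finset (Finset (Fin n))} {e : ℝ} (he : 0 < e) {x : Fin n → ℝ} (hx : x ∈ YY L e) : x ≠ 0 := by
  obtain ⟨⟨t, y⟩, ⟨ht, hy⟩, rfl⟩ := hx
  have h1 := X_abs hy
  intro h0
  have ht0 : t ≠ 0 := by
    have := ht.1
    have h2 : 0 < t := lt_of_lt_of_le he this
    exact h2.ne'
  have h3 : y = 0 := (smul_eq_zero.mp h0).resolve_left ht0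
  rw [h3] at h1
  simp at h1

theorem YY_norm {L : Finset (Finset (Fin n))} {e : ℝ} (he : 0 < e) {x : Fin n → ℝ} (hx : x ∈ YY L e) :
    ‖x‖ ≤ 1 := by
  obtain ⟨⟨t, y⟩, ⟨ht, hy⟩, rfl⟩ := hx
  have h1 := X_norm_le hy
  have ht0 : 0 ≤ t := he.le.trans ht.1
  have ht1 : t ≤ 1 := ht.2
  show ‖t • y‖ ≤ 1
  rw [norm_smul, Real.norm_of_nonneg ht0]
  exact mul_le_one₀ ht1 (norm_nonneg _) h1

theorem Ast_convex (σ τ : Finset (Fin n)) (e : ℝ) : Convex ℝ (Ast σ τ e) := by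
  intro x hx y hy a b ha hb hab
  have key : ∑ i, (if i ∈ τ then -(a • x + b • y) i else (a • x + b • y) i) =
      a * ∑ i, (if i ∈ τ then -x i else x i) + b * ∑ i, (if i ∈ τ then -y i else y i) := by
    have : ∀ i, (if i ∈ τ then -(a • x + b • y) i else (a • x + b • y) i) =
        a * (if i ∈ τ then -x i else x i) + b * (if i ∈ τ then -y i else y i) := by
      intro i
      simp only [Pi.add_apply, Pi.smul_apply, smul_eq_mul]
      split_ifs <;> ring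
    simp_rw [this]
    rw [Finset.sum_add_distrib, ← Finset.mul_sum, ← Finset.mul_sum]
  obtain ⟨x1, x2, x3, x4⟩ := hx
  obtain ⟨y1, y2, y3, y4⟩ := hy
  refine ⟨?_, ?_, ?_, ?_⟩
  · intro i hi
    simp only [Pi.add_apply, Pi.smul_apply, smul_eq_mul]
    have h1 := x1 i hi
    have h2 := y1 i hi
    nlinarith
  · intro i hi
    simp only [Pi.add_apply, Pi.smul_apply, smul_eq_mul]
    have h1 := x2 i hi
    have h2 := y2 i hi
    positivity
  · rw [key]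
    nlinarith
  · rw [key]
    nlinarith

theorem AC_convex (L : Finset (Finset (Fin n))) (e : ℝ) : ∀ C ∈ AC L e, Convex ℝ C := by
  rintro C ⟨σ, -, τ, -, -, rfl⟩
  exact Ast_convex σ τ e

theorem smul_Cst {σ τ : Finset (Fin n)} {e t : ℝ} (he : 0 < e) (ht : t ∈ Set.Icc e 1) {x : Fin n → ℝ}
    (hx : x ∈ Cst σ τ) : t • x ∈ Ast σ τ e := by
  obtain ⟨x1, x2, x3⟩ := hx
  have ht0 : 0 ≤ t := he.le.trans ht.1
  have key : ∑ i, (if i ∈ τ then -(t • x) i else (t • x) i) = t := by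
    have : ∀ i, (if i ∈ τ then -(t • x) i else (t • x) i) = t * (if i ∈ τ then -x i else x i) := by
      intro i
      simp only [Pi.smul_apply, smul_eq_mul]
      split_ifs <;> ring
    simp_rw [this]
    rw [← Finset.mul_sum, x3, mul_one]
  refine ⟨?_, ?_, ?_, ?_⟩
  · intro i hi
    have h1 := x1 i hi
    simp only [Pi.smul_apply, smul_eq_mul]
    exact mul_nonpos_of_nonneg_of_nonpos ht0 h1
  · intro i hi
    have h1 := x2 i hi
    simp only [Pi.smul_apply, smul_eq_mul]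
    exact mul_nonneg ht0 h1
  · rw [key]; exact ht.1
  · rw [key]; exact ht.2

theorem Ast_sub {L : Finset (Finset (Fin n))} {e : ℝ} (he : 0 < e) {C : Set (Fin n → ℝ)} (hC : C ∈ AC L e) :
    C ⊆ YY L e := by
  obtain ⟨σ, hσ, τ, hτ, h, rfl⟩ := hC
  rintro x ⟨x1, x2, x3, x4⟩
  obtain ⟨t, ht⟩ : ∃ t, t = ∑ i, (if i ∈ τ then -x i else x i) := ⟨_, rfl⟩
  rw [← ht] at x3 x4
  have ht0 : 0 < t := lt_of_lt_of_le he x3
  refine ⟨(t, t⁻¹ • x), ⟨⟨x3, x4⟩, σ, hσ, τ, hτ, h, ?_, ?_, ?_⟩, ?_⟩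
  · intro i hi
    have h1 := x1 i hi
    simp only [Pi.smul_apply, smul_eq_mul]
    exact mul_nonpos_of_nonneg_of_nonpos (inv_nonneg.mpr ht0.le) h1
  · intro i hi
    have h1 := x2 i hi
    simp only [Pi.smul_apply, smul_eq_mul]
    exact mul_nonneg (inv_nonneg.mpr ht0.le) h1
  · have : ∀ i, (if i ∈ τ then -(t⁻¹ • x) i else (t⁻¹ • x) i) = t⁻¹ * (if i ∈ τ then -x i else x i) := by
      intro i
      simp only [Pi.smul_apply, smul_eq_mul]
      split_ifs <;> ring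
    simp_rw [this]
    rw [← Finset.mul_sum, ← ht, inv_mul_cancel₀ ht0.ne']
  · show t • t⁻¹ • x = x
    rw [smul_smul, mul_inv_cancel₀ ht0.ne', one_smul]

theorem pr_good {L : Finset (Finset (Fin n))} {e : ℝ} (he : 0 < e) (he1 : e ≤ 1) {q : ℕ} {c : Chain (Fin n → ℝ)}
    (hc : c ∈ S (P L q)) :
    prC (fun v => e • v) c ∈ S (fun l => ∃ C ∈ AC L e, Good (q + 1) 2 C l) := by
  refine lin_mem _ (fun l hl => ?_) hc
  obtain ⟨C, ⟨σ, hσ, τ, hτ, hd, rfl⟩, h1, h2, h3⟩ := P_good hl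
  rw [prC_single, one_smul]
  refine S_mono ?_ (prL_mem _ l)
  rintro l' ⟨h4, h5⟩
  have hA : Ast σ τ e ∈ AC L e := ⟨σ, hσ, τ, hτ, hd, rfl⟩
  have h6 : ∀ u ∈ l', u ∈ Ast σ τ e := by
    intro u hu
    obtain ⟨v, hv, rfl | rfl⟩ := h5 u hu
    · have := smul_Cst he (t := 1) ⟨he1, le_rfl⟩ (h2 _ hv)
      rwa [one_smul] at this
    · exact smul_Cst he ⟨le_rfl, he1⟩ (h2 v hv)
  refine ⟨_, hA, by rw [h4, h1], h6, ?_⟩
  intro u hu v hv
  have e1 := YY_norm he (Ast_sub he hA (h6 u hu))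
  have e2 := YY_norm he (Ast_sub he hA (h6 v hv))
  calc ‖u - v‖ ≤ ‖u‖ + ‖v‖ := norm_sub_le _ _
    _ ≤ 2 := by linarith

/-! ### the cochain -/

open Classical in
/-- the cochain of the labels on `U` -/
noncomputable def EL (U : Set (Fin n → ℝ)) (a : (Fin n → ℝ) → ℕ) (s : (Fin n → ℝ) → ZMod 2)
    (l : List (Fin n → ℝ)) : ZMod 2 :=
  if ∀ v ∈ l, v ∈ U then Wc s (sortC a (Finsupp.single l 1)) else 0

/-- the cochain on chains -/
noncomputable def Ec (U : Set (Fin n → ℝ)) (a : (Fin n → ℝ) → ℕ) (s : (Fin n → ℝ) → ZMod 2) :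
    Chain (Fin n → ℝ) →ₗ[ZMod 2] ZMod 2 := Finsupp.linearCombination (ZMod 2) (EL U a s)

theorem Ec_single (U : Set (Fin n → ℝ)) (a : (Fin n → ℝ) → ℕ) (s : (Fin n → ℝ) → ZMod 2)
    (l : List (Fin n → ℝ)) : Ec U a s (Finsupp.single l 1) = EL U a s l := by
  simp [Ec]

theorem Ec_eq (U : Set (Fin n → ℝ)) (a : (Fin n → ℝ) → ℕ) (s : (Fin n → ℝ) → ZMod 2)
    {c : Chain (Fin n → ℝ)} (hc : c ∈ S (fun l => ∀ v ∈ l, v ∈ U)) : Ec U a s c = Wc s (sortC a c) := by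
  refine sub_eq_zero.mp (lin_eq_zero (Ec U a s - (Wc s).comp (sortC a)) ?_ hc)
  intro l hl
  rw [LinearMap.sub_apply, Ec_single, EL, if_pos hl, LinearMap.comp_apply, sub_self]

theorem Wc_bd (s : (Fin n → ℝ) → ZMod 2) (c : Chain (Fin n → ℝ)) : Wc s (bd c) = 0 := by
  induction c using Finsupp.induction_linear with
  | zero => simp
  | add f g hf hg => simp only [map_add, hf, hg, add_zero]
  | single l b => rw [bd_single, map_smul, Wc_bdL, smul_zero]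

theorem Ec_bd_in (U : Set (Fin n → ℝ)) (a : (Fin n → ℝ) → ℕ) (s : (Fin n → ℝ) → ZMod 2)
    {l : List (Fin n → ℝ)} (hl : ∀ v ∈ l, v ∈ U) : Ec U a s (bdL l) = 0 := by
  rw [Ec_eq U a s (S_mono (fun l' hl' v hv => hl v (hl'.2 hv)) (bdL_mem_S l)), ← bd_sortC_single,
    Wc_bdL]

theorem W_neg (s : (Fin n → ℝ) → ZMod 2) (l : List (Fin n → ℝ)) (hs : ∀ v ∈ l, s (-v) = s v + 1) :
    W s (l.map (fun v => -v)) = W s l := by
  rw [← al_neg s l hs]
  have h2 := al_neg s (l.map (fun v => -v)) (by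
    intro v hv
    obtain ⟨w, hw, rfl⟩ := List.mem_map.mp hv
    rw [neg_neg, hs w hw, add_assoc, z2_add_self, add_zero])
  rw [← h2, List.map_map]
  have : ((fun v : Fin n → ℝ => -v) ∘ fun v => -v) = id := by
    funext v
    simp
  rw [this, List.map_id, add_comm]

theorem Wc_nu (s : (Fin n → ℝ) → ZMod 2) {c : Chain (Fin n → ℝ)}
    (hc : c ∈ S (fun l => ∀ v ∈ l, s (-v) = s v + 1)) : Wc s (nu c) = Wc s c := by
  refine sub_eq_zero.mp (lin_eq_zero ((Wc s).comp nu - Wc s) ?_ hc)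
  intro l hl
  rw [LinearMap.sub_apply, LinearMap.comp_apply, nu_single, Wc_single, Wc_single, W_neg s l hl, sub_self]

theorem Ec_nu (U : Set (Fin n → ℝ)) (a : (Fin n → ℝ) → ℕ) (s : (Fin n → ℝ) → ZMod 2)
    (hU : ∀ x ∈ U, -x ∈ U) (ha : ∀ x, a (-x) = a x) {c : Chain (Fin n → ℝ)}
    (hc : c ∈ S (fun l => ∀ v ∈ l, s (-v) = s v + 1)) : Ec U a s (nu c) = Ec U a s c := by
  refine sub_eq_zero.mp (lin_eq_zero ((Ec U a s).comp nu - Ec U a s) ?_ hc)
  intro l hl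
  rw [LinearMap.sub_apply, LinearMap.comp_apply, nu_single, Ec_single, Ec_single, EL, EL]
  have h1 : (∀ v ∈ l.map (fun v => -v), v ∈ U) ↔ ∀ v ∈ l, v ∈ U := by
    constructor
    · intro h v hv
      have := hU _ (h (-v) (List.mem_map.mpr ⟨v, hv, rfl⟩))
      rwa [neg_neg] at this
    · intro h v hv
      obtain ⟨w, hw, rfl⟩ := List.mem_map.mp hv
      exact hU _ (h w hw)
  by_cases h2 : ∀ v ∈ l, v ∈ U
  · rw [if_pos (h1.mpr h2), if_pos h2, ← nu_single, sortC_nu a ha, Wc_nu s (sortC_mem a (single_mem_S hl 1)),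
      sub_self]
  · rw [if_neg (fun h => h2 (h1.mp h)), if_neg h2, sub_self]

theorem Wc_mp (a : (Fin n → ℝ) → ℕ) (s : (Fin n → ℝ) → ZMod 2) (f : (Fin n → ℝ) → (Fin n → ℝ))
    (c : Chain (Fin n → ℝ)) :
    Wc s (sortC a (mpC f c)) = Wc (fun v => s (f v)) (sortC (fun v => a (f v)) c) := by
  induction c using Finsupp.induction_linear with
  | zero => simp
  | add f g hf hg => simp only [map_add, hf, hg]
  | single l b =>
    rw [mpC_single, sortC_single, sortC_single, Wc_single, Wc_single, ← W_map s f]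
    congr 2
    exact (List.map_insertionSort (r := fun x y => a (f x) ≤ a (f y)) (s := fun x y => a x ≤ a y)
      f l (fun x _ y _ => Iff.rfl)).symm

end Pool.Agent.H77RA
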