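import Mathlib
import Pool.Agent.H77RA.T2

/-!
# A local odd map near the zero set makes the obstruction vanish
-/

set_option autoImplicit false
set_option linter.unusedSectionVars false

namespace Pool.Agent.H77RA

open Finset Pool.Agent.W555.KS Pool.Agent.Helper133.BU Pool.Agent.W357.KS.Fan Pool.Agent.Y131.KS

variable {n : ℕ}

/-- the label -/
noncomputable def lbA {m : ℕ} (θ : (Fin n → ℝ) → (Fin (m + 1) → ℝ)) (x : Fin n → ℝ) : ℕ :=
  (arg (fun i => |θ x i|) : Fin (m + 1))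

open Classical in
/-- the sign -/
noncomputable def lbS {m : ℕ} (θ : (Fin n → ℝ) → (Fin (m + 1) → ℝ)) (x : Fin n → ℝ) : ZMod 2 :=
  if θ x = 0 then s0 x else if 0 < θ x (arg (fun i => |θ x i|)) then 1 else 0

section lab

variable {m : ℕ} {θ : (Fin n → ℝ) → (Fin (m + 1) → ℝ)} (hodd : ∀ x, θ (-x) = -θ x)

theorem s0_neg {x : Fin n → ℝ} (hx : x ≠ 0) : s0 (-x) = s0 x + 1 := by
  classical
  obtain ⟨i, hi⟩ : ∃ i, x i ≠ 0 := by
    by_contra h
    push Not at h
    exact hx (funext h)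
  obtain ⟨i, hi, hmin⟩ : ∃ i, x i ≠ 0 ∧ ∀ j < i, x j = 0 := by
    have hne : (univ.filter (fun i => x i ≠ 0)).Nonempty := ⟨i, by simp [hi]⟩
    refine ⟨(univ.filter (fun i => x i ≠ 0)).min' hne, ?_, ?_⟩
    · have := Finset.min'_mem _ hne
      rw [mem_filter] at this
      exact this.2
    · intro j hj
      by_contra h
      exact absurd (Finset.min'_le _ j (by simp [h])) (not_le.mpr hj)
  have key : ∀ y : Fin n → ℝ, y i ≠ 0 → (∀ j < i, y j = 0) → (s0 y = if 0 < y i then 1 else 0) := by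
    intro y hy hy2
    unfold s0
    refine if_congr ?_ rfl rfl
    constructor
    · rintro ⟨k, hk, hk2⟩
      rcases lt_trichotomy k i with h | h | h
      · rw [hy2 k h] at hk
        exact absurd hk (lt_irrefl _)
      · rwa [← h]
      · exact absurd (hk2 i h) hy
    · intro h
      exact ⟨i, h, hy2⟩
  rw [key x hi hmin, key (-x) (by simpa using hi) (fun j hj => by simp [hmin j hj])]
  rcases lt_or_gt_of_ne hi with h | h
  · have h1 : ¬ 0 < x i := not_lt.mpr h.le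
    have h2 : 0 < (-x) i := by simpa using h
    rw [if_pos h2, if_neg h1, zero_add]
  · have h1 : ¬ 0 < (-x) i := by simpa using h.le
    rw [if_neg h1, if_pos h]
    decide

include hodd in
theorem lbA_neg (x : Fin n → ℝ) : lbA θ (-x) = lbA θ x := by
  have habs : (fun i => |θ (-x) i|) = fun i => |θ x i| := by
    funext i; rw [hodd, Pi.neg_apply, abs_neg]
  unfold lbA
  rw [habs]

theorem lb_norm (x : Fin n → ℝ) : ‖θ x‖ = |θ x (arg (fun i => |θ x i|))| := by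
  apply le_antisymm
  · rw [pi_norm_le_iff_of_nonneg (abs_nonneg _)]
    intro i
    exact arg_spec (fun i => |θ x i|) i
  · exact norm_le_pi_norm (θ x) _

include hodd in
theorem lbS_neg {x : Fin n → ℝ} (hx : x ≠ 0) : lbS θ (-x) = lbS θ x + 1 := by
  have habs : (fun i => |θ (-x) i|) = fun i => |θ x i| := by
    funext i; rw [hodd, Pi.neg_apply, abs_neg]
  unfold lbS
  by_cases h0 : θ x = 0
  · have h1 : θ (-x) = 0 := by rw [hodd, h0, neg_zero]
    rw [if_pos h0, if_pos h1, s0_neg hx]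
  · have h1 : θ (-x) ≠ 0 := by
      rw [hodd]
      exact neg_ne_zero.mpr h0
    rw [if_neg h0, if_neg h1, habs, hodd, Pi.neg_apply]
    have h2 : θ x (arg (fun i => |θ x i|)) ≠ 0 := by
      intro h
      have h3 := lb_norm (θ := θ) x
      rw [h, abs_zero] at h3
      exact h0 (norm_eq_zero.mp h3)
    rcases lt_or_gt_of_ne h2 with h | h
    · have h3 : ¬ 0 < θ x (arg (fun i => |θ x i|)) := not_lt.mpr h.le
      have h4 : 0 < -θ x (arg (fun i => |θ x i|)) := by linarith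
      rw [if_pos h4, if_neg h3, zero_add]
    · have h3 : ¬ 0 < -θ x (arg (fun i => |θ x i|)) := by
        rw [not_lt]; linarith
      rw [if_neg h3, if_pos h]
      decide

theorem lb_compat {K1 : Set (Fin n → ℝ)} (hK : IsCompact K1) (hc : ContinuousOn θ K1)
    (hne : ∀ x ∈ K1, θ x ≠ 0) :
    ∃ δ : ℝ, 0 < δ ∧ ∀ x ∈ K1, ∀ y ∈ K1, ‖x - y‖ < δ → lbA θ x = lbA θ y → lbS θ x = lbS θ y := by
  obtain ⟨c, hcpos, hmin⟩ : ∃ c : ℝ, 0 < c ∧ ∀ x ∈ K1, c ≤ ‖θ x‖ := by
    by_cases hne' : K1.Nonempty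
    · obtain ⟨x₀, hx₀, hmin⟩ := hK.exists_isMinOn hne' hc.norm
      exact ⟨‖θ x₀‖, norm_pos_iff.mpr (hne x₀ hx₀), fun x hx => hmin hx⟩
    · exact ⟨1, one_pos, fun x hx => absurd ⟨x, hx⟩ hne'⟩
  have huc := hK.uniformContinuousOn_of_continuous hc
  rw [Metric.uniformContinuousOn_iff] at huc
  obtain ⟨δ, hδ, hδ'⟩ := huc c hcpos
  refine ⟨δ, hδ, ?_⟩
  intro x hx y hy hxy hax
  have hd := hδ' x hx y hy (by rw [dist_eq_norm]; exact hxy)
  have hax' : arg (fun i => |θ x i|) = arg (fun i => |θ y i|) := Fin.ext hax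
  unfold lbS
  rw [if_neg (hne x hx), if_neg (hne y hy), ← hax']
  have h1 := lb_norm (θ := θ) x
  have h2 := lb_norm (θ := θ) y
  rw [← hax'] at h2
  have h3 := hmin x hx
  have h4 := hmin y hy
  have h5 : |θ x (arg (fun i => |θ x i|)) - θ y (arg (fun i => |θ x i|))| < c := by
    rw [dist_eq_norm] at hd
    exact lt_of_le_of_lt (norm_le_pi_norm (θ x - θ y) _) hd
  set p := θ x (arg (fun i => |θ x i|))
  set q := θ y (arg (fun i => |θ x i|))
  have h6 : c ≤ |p| := by rw [← h1]; exact h3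
  have h7 : c ≤ |q| := by rw [← h2]; exact h4
  rw [abs_lt] at h5
  rcases le_abs'.mp h6 with h8 | h8 <;> rcases le_abs'.mp h7 with h9 | h9
  · have e1 : ¬ 0 < p := by linarith
    have e2 : ¬ 0 < q := by linarith
    simp [e1, e2]
  · exfalso; linarith [h5.1]
  · exfalso; linarith [h5.2]
  · have e1 : 0 < p := by linarith
    have e2 : 0 < q := by linarith
    simp [e1, e2]

end lab

theorem EL_zero {m : ℕ} (U : Set (Fin n → ℝ)) (a : (Fin n → ℝ) → ℕ) (s : (Fin n → ℝ) → ZMod 2)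
    (l : List (Fin n → ℝ)) (hlen : m < l.length) (ha : ∀ v, a v < m)
    (hs : ∀ u ∈ l, ∀ v ∈ l, u ∈ U → v ∈ U → a u = a v → s u = s v) : EL U a s l = 0 := by
  unfold EL
  split_ifs with h
  · rw [sortC_single, Wc_single, one_mul]
    have hst : Std.Total (fun x y : Fin n → ℝ => a x ≤ a y) :=
      ⟨fun x y => le_total (a x) (a y)⟩
    have htr : IsTrans (Fin n → ℝ) (fun x y => a x ≤ a y) := ⟨fun x y z => le_trans⟩
    refine W_zero m a s _ (by rw [List.length_insertionSort]; exact hlen) (fun v _ => ha v) ?_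
      (List.pairwise_insertionSort _ l)
    intro u hu v hv
    rw [List.mem_insertionSort] at hu hv
    exact hs u hu v hv (h u hu) (h v hv)
  · rfl

theorem vk2_of_local_succ {L : Finset (Finset (Fin n))} {m : ℕ} (hL : IsCx L) (U O : Set (Fin n → ℝ))
    (θ : (Fin n → ℝ) → (Fin (m + 1) → ℝ)) {e : ℝ} (he : 0 < e) (he1 : e ≤ 1) (hU : IsClosed U)
    (hUs : ∀ x ∈ U, -x ∈ U) (hθ : ContinuousOn θ (U ∩ YY L e)) (hodd : ∀ x, θ (-x) = -θ x)
    (hO : IsOpen O) (hZ : ∀ x ∈ U ∩ YY L e, θ x = 0 → x ∈ O) (hOU : ∀ x ∈ O ∩ YY L e, x ∈ U)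
    (hes : ∀ x ∈ X L, e • x ∈ U) (h1 : ∀ x ∈ X L, x ∈ U → θ x ≠ 0) : VK2 L (m + 2) := by
  classical
  intro Z hZ1 hZ2 hZ3
  have hUY : IsCompact (U ∩ YY L e) := (YY_compact L e).inter_left hU
  -- the zero set
  have hZ0 : IsCompact {x | x ∈ U ∩ YY L e ∧ θ x = 0} := by
    refine hUY.of_isClosed_subset ?_ (fun x hx => hx.1)
    exact hθ.preimage_isClosed_of_isClosed hUY.isClosed (isClosed_singleton (x := (0 : Fin (m + 1) → ℝ)))
  obtain ⟨δ1, hδ1, hth⟩ := hZ0.exists_thickening_subset_open hO (fun x hx => hZ x hx.1 hx.2)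
  set Z0 := {x | x ∈ U ∩ YY L e ∧ θ x = 0} with hZ0def
  obtain ⟨δ2, hδ2, hc2⟩ := lb_compat (θ := θ) (K1 := (U ∩ YY L e) \ Metric.thickening (δ1 / 2) Z0)
    (hUY.diff Metric.isOpen_thickening) (hθ.mono Set.sdiff_subset) (fun x hx h0 => hx.2 (by
      rw [Metric.mem_thickening_iff]
      exact ⟨x, ⟨hx.1, h0⟩, by rw [dist_self]; positivity⟩))
  obtain ⟨δ3, hδ3, hc3⟩ := lb_compat (θ := θ) (K1 := X L ∩ U)
    ((X_compact L).inter_right hU) (hθ.mono (fun x hx => ⟨hx.2, X_sub_YY he1 hx.1⟩))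
    (fun x hx => h1 x hx.1 hx.2)
  obtain ⟨δ, hδ, hd1, hd2, hd3⟩ : ∃ δ : ℝ, 0 < δ ∧ δ ≤ δ1 / 2 ∧ δ ≤ δ2 ∧ δ ≤ δ3 :=
    ⟨min (δ1 / 2) (min δ2 δ3), by positivity, min_le_left _ _, (min_le_right _ _).trans (min_le_left _ _),
      (min_le_right _ _).trans (min_le_right _ _)⟩
  -- fine lists
  have fineY : ∀ l : List (Fin n → ℝ), (∀ v ∈ l, v ∈ YY L e) → (∀ u ∈ l, ∀ v ∈ l, ‖u - v‖ < δ) →
      m + 2 < l.length → Ec U (lbA θ) (lbS θ) (bdL l) = 0 := by
    intro l hlY hlD hlen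
    by_cases hall : ∀ v ∈ l, v ∈ U
    · exact Ec_bd_in _ _ _ hall
    · push Not at hall
      obtain ⟨v0, hv0, hv0U⟩ := hall
      refine lin_eq_zero (Ec U (lbA θ) (lbS θ)) ?_ (bdL_mem_S l)
      rintro l' ⟨hl1, hl2⟩
      rw [Ec_single]
      refine EL_zero (m := m + 1) _ _ _ _ (by omega) (fun v => (arg (fun i => |θ v i|)).2) ?_
      have hin : ∀ u ∈ l', u ∈ U → u ∈ (U ∩ YY L e) \ Metric.thickening (δ1 / 2) Z0 := by
        intro u hu huU
        refine ⟨⟨huU, hlY u (hl2 hu)⟩, ?_⟩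
        intro hut
        rw [Metric.mem_thickening_iff] at hut
        obtain ⟨z, hz, hz2⟩ := hut
        apply hv0U
        refine hOU v0 ⟨hth ?_, hlY v0 hv0⟩
        rw [Metric.mem_thickening_iff]
        refine ⟨z, hz, ?_⟩
        have h3 := hlD v0 hv0 u (hl2 hu)
        calc dist v0 z ≤ dist v0 u + dist u z := dist_triangle _ _ _
          _ < δ1 := by
            rw [dist_eq_norm v0 u]
            linarith
      intro u hu v hv huU hvU
      exact hc2 u (hin u hu huU) v (hin v hv hvU) (lt_of_lt_of_le (hlD u (hl2 hu) v (hl2 hv)) hd2)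
  have fineX : ∀ l : List (Fin n → ℝ), (∀ v ∈ l, v ∈ X L) → (∀ u ∈ l, ∀ v ∈ l, ‖u - v‖ < δ) →
      m + 1 < l.length → EL U (lbA θ) (lbS θ) l = 0 := by
    intro l hlX hlD hlen
    refine EL_zero (m := m + 1) _ _ _ _ hlen (fun v => (arg (fun i => |θ v i|)).2) ?_
    intro u hu v hv huU hvU
    exact hc3 u ⟨hlX u hu, huU⟩ v ⟨hlX v hv, hvU⟩ (lt_of_lt_of_le (hlD u hu v hv) hd3)
  -- the number of subdivisions
  have hq : (((m + 3 : ℕ) : ℝ) / ((m + 3 : ℕ) + 1)) < 1 := by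
    rw [div_lt_one (by positivity)]
    linarith
  obtain ⟨r, hr⟩ := exists_pow_lt_of_lt_one (show 0 < δ / 2 by positivity) hq
  have hq2 : (((m + 2 : ℕ) : ℝ) / ((m + 2 : ℕ) + 1)) ≤ (((m + 3 : ℕ) : ℝ) / ((m + 3 : ℕ) + 1)) :=
    frac_mono (m + 2)
  have hr2 : (((m + 2 : ℕ) : ℝ) / ((m + 2 : ℕ) + 1)) ^ r ≤ (((m + 3 : ℕ) : ℝ) / ((m + 3 : ℕ) + 1)) ^ r :=
    pow_le_pow_left₀ (by positivity) hq2 r
  -- the chains
  have hz := zz_mem (D := m + 2) hZ2
  have hnu := zz_nu (D := m + 2) hZ1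
  have hbd : bd (zz (m + 2) Z) = 0 := zz_bd (D := m + 1) hZ3
  obtain ⟨c, hc, hcz⟩ := split (q := m + 1) hz hnu
  have hbc : nu (bd c) = bd c := by
    rw [nu_bd]
    rw [hcz, map_add] at hbd
    calc bd (nu c) = (bd c + bd c) + bd (nu c) := by rw [add_self, zero_add]
      _ = bd c + (bd c + bd (nu c)) := by abel
      _ = bd c := by rw [hbd, add_zero]
  obtain ⟨c', hc', hcc⟩ := split (q := m) (bd_P hL hc) hbc
  -- vanishing on the subdivided prism
  have E1 : Ec U (lbA θ) (lbS θ) (bd ((sub (m + 3))^[r] (prC (fun v => e • v) c))) = 0 := by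
    have hm : (sub (m + 3))^[r] (prC (fun v => e • v) c) ∈ S (fun l => ∃ C ∈ AC L e,
        Good (m + 3) ((((m + 3 : ℕ) : ℝ) / ((m + 3 : ℕ) + 1)) ^ r * 2) C l) :=
      sub_iter_good' (m + 3) r 2 (by norm_num) (AC L e) (AC_convex L e) _ (pr_good he he1 hc)
    refine lin_eq_zero ((Ec U (lbA θ) (lbS θ)).comp bd) ?_ hm
    rintro l ⟨C, hC, hlen, hlC, hlD⟩
    rw [LinearMap.comp_apply, bd_single, one_smul]
    refine fineY l (fun v hv => Ast_sub he hC (hlC v hv)) ?_ (by omega)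
    intro u hu v hv
    refine lt_of_le_of_lt (hlD u hu v hv) ?_
    linarith
  have E2 : Ec U (lbA θ) (lbS θ) ((sub (m + 2))^[r] c) = 0 := by
    refine lin_eq_zero (Ec U (lbA θ) (lbS θ)) ?_ (iter_mem hc r)
    rintro l ⟨C, hC, hlen, hlC, hlD⟩
    rw [Ec_single]
    refine fineX l (fun v hv => CC_sub_X hC (hlC v hv)) ?_ (by omega)
    intro u hu v hv
    refine lt_of_le_of_lt (hlD u hu v hv) ?_
    linarith
  have E3 : Ec U (lbA θ) (lbS θ) ((sub (m + 2))^[r] (prC (fun v => e • v) (bd c))) = 0 := by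
    rw [hcc, map_add, add_iter, ← nu_prC, ← nu_iter, map_add, Ec_nu U _ _ hUs (lbA_neg hodd), z2_add_self]
    have hm : (sub (m + 2))^[r] (prC (fun v => e • v) c') ∈ S (fun l => ∃ C ∈ AC L e,
        Good (m + 2) ((((m + 2 : ℕ) : ℝ) / ((m + 2 : ℕ) + 1)) ^ r * 2) C l) :=
      sub_iter_good' (m + 2) r 2 (by norm_num) (AC L e) (AC_convex L e) _ (pr_good he he1 hc')
    refine S_mono ?_ hm
    rintro l ⟨C, hC, hlen, hlC, hlD⟩ v hv
    exact lbS_neg hodd (YY_ne he (Ast_sub he hC (hlC v hv)))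
  rw [bd_iter, bd_prC, add_iter, add_iter, map_add, map_add, E2, E3, zero_add, add_zero, iter_mp] at E1
  have hin : (sub (m + 2))^[r] c ∈ S (fun l => ∀ v ∈ l, v ∈ X L) := by
    refine S_mono ?_ (iter_mem hc r)
    rintro l ⟨C, hC, -, hlC, -⟩ v hv
    exact CC_sub_X hC (hlC v hv)
  have hin2 : mpC (fun v : Fin n → ℝ => e • v) ((sub (m + 2))^[r] c) ∈ S (fun l => ∀ v ∈ l, v ∈ U) := by
    refine lin_mem _ (fun l hl => ?_) hin
    rw [mpC_single]
    refine single_mem_S ?_ 1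
    intro v hv
    obtain ⟨w, hw, rfl⟩ := List.mem_map.mp hv
    exact hes w (hl w hw)
  rw [Ec_eq U _ _ hin2, Wc_mp] at E1
  have hadm : Adm L (fun v => lbA θ (e • v)) (fun v => lbS θ (e • v)) := by
    refine ⟨fun x => ?_, fun x hx => ?_⟩
    · show lbA θ (e • -x) = lbA θ (e • x)
      rw [smul_neg, lbA_neg hodd]
    · show lbS θ (e • -x) = lbS θ (e • x) + 1
      rw [smul_neg, lbS_neg hodd (YY_ne he (smul_YY he1 hx))]
  have E4 : alc (fun v => lbS θ (e • v)) (sortC (fun v => lbA θ (e • v)) ((sub (m + 2))^[r] (zz (m + 2) Z))) = 0 := by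
    rw [hcz, add_iter, ← nu_iter, map_add, sortC_nu _ hadm.ha, alc_nu]
    · exact E1
    · refine sortC_mem _ (S_mono (fun l hl v hv => ?_) hin)
      exact hadm.hs v (hl v hv)
  have := claim hL (m + 2) _ hz hnu hbd 0 r a0 (fun v => lbA θ (e • v)) s0 (fun v => lbS θ (e • v)) (adm0 L) hadm
  rw [E4, Function.iterate_zero_apply, eval0] at this
  exact this

theorem vk2_of_local {L : Finset (Finset (Fin n))} {m : ℕ} (hL : IsCx L) (U O : Set (Fin n → ℝ))
    (θ : (Fin n → ℝ) → (Fin m → ℝ)) {e : ℝ} (he : 0 < e) (he1 : e ≤ 1) (hU : IsClosed U)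
    (hUs : ∀ x ∈ U, -x ∈ U) (hθ : ContinuousOn θ (U ∩ YY L e)) (hodd : ∀ x, θ (-x) = -θ x)
    (hO : IsOpen O) (hZ : ∀ x ∈ U ∩ YY L e, θ x = 0 → x ∈ O) (hOU : ∀ x ∈ O ∩ YY L e, x ∈ U)
    (hes : ∀ x ∈ X L, e • x ∈ U) (h1 : ∀ x ∈ X L, x ∈ U → θ x ≠ 0) : VK2 L (m + 1) := by
  cases m with
  | succ m => exact vk2_of_local_succ hL U O θ he he1 hU hUs hθ hodd hO hZ hOU hes h1
  | zero =>
    intro Z hZ1 hZ2 hZ3
    refine Finset.sum_eq_zero fun W hW => ?_
    by_contra hne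
    rw [mem_powersetCard] at hW
    obtain ⟨v, rfl⟩ := card_eq_one.mp hW.2
    have hv := (hZ2 _ _ hne).1
    have hev : evenPart {v} = ({v} : Finset (Fin n)) := by
      ext w
      simp only [evenPart, mem_filter, mem_singleton]
      constructor
      · exact fun h => h.1
      · rintro rfl
        refine ⟨rfl, ?_⟩
        have : ({w} : Finset (Fin n)).filter (fun u => u < w) = ∅ := by
          ext u
          simp only [mem_filter, mem_singleton, notMem_empty, iff_false, not_and]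
          rintro rfl
          exact lt_irrefl _
        rw [this]; simp
    rw [hev] at hv
    have hmem : pt ({v} : Finset (Fin n)) v ∈ X L := by
      refine ⟨{v}, hv, ∅, hL.1, disjoint_empty_right _, ?_⟩
      have := pt_mem (σ := ({v} : Finset (Fin n))) (mem_singleton_self v)
      rwa [sdiff_self] at this
    obtain ⟨x, hx⟩ : ∃ x, x = pt ({v} : Finset (Fin n)) v := ⟨_, rfl⟩
    rw [← hx] at hmem
    have hYt : ∀ t ∈ Set.Icc e 1, t • x ∈ YY L e := fun t ht => ⟨(t, x), ⟨ht, hmem⟩, rfl⟩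
    have hcon := isPreconnected_iff_subset_of_disjoint.mp (isPreconnected_Icc (a := e) (b := (1 : ℝ)))
      ((fun t : ℝ => t • x) ⁻¹' O) ((fun t : ℝ => t • x) ⁻¹' Uᶜ) (hO.preimage (by fun_prop))
      (hU.isOpen_compl.preimage (by fun_prop)) (by
        intro t ht
        by_cases h : t • x ∈ U
        · exact Or.inl (hZ _ ⟨h, hYt t ht⟩ (Subsingleton.elim _ _))
        · exact Or.inr h) (by
        ext t
        simp only [Set.mem_inter_iff, Set.mem_preimage, Set.mem_compl_iff, Set.mem_empty_iff_false, iff_false]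
        rintro ⟨ht, h2, h3⟩
        exact h3 (hOU _ ⟨h2, hYt t ht⟩))
    rcases hcon with h | h
    · have h2 := h (Set.right_mem_Icc.mpr he1)
      rw [Set.mem_preimage, one_smul] at h2
      exact h1 x hmem (hOU x ⟨h2, X_sub_YY he1 hmem⟩) (Subsingleton.elim _ _)
    · exact h (Set.left_mem_Icc.mpr he1) (hes x hmem)

end Pool.Agent.H77RA
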