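import Mathlib
import Pool.Agent.H77RA.T3

/-!
# Local directions near the diagonal of a space, second form
-/

set_option autoImplicit false
set_option linter.unusedSectionVars false

namespace Pool.Agent.H77RA

open Finset Pool.Agent.W555.KS Pool.Agent.Helper133.BU Pool.Agent.W357.KS.Fan Pool.Agent.Y131.KS
open scoped Topology

/-- odd directions near the diagonal of `C`, on an open set -/
def LocDir2 (W : Type) [TopologicalSpace W] (C : Set W) (m : ℕ) : Prop :=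
  ∃ (θ : W → W → (Fin m → ℝ)) (N : Set (W × W)), IsOpen N ∧ (∀ w ∈ C, (w, w) ∈ N) ∧
    ContinuousOn (fun p : W × W => θ p.1 p.2) N ∧
    (∀ x y, θ y x = -θ x y) ∧ ∀ p ∈ N, θ p.1 p.2 = 0 → p.1 = p.2

theorem vk2_of_locDir2 {n : ℕ} {L : Finset (Finset (Fin n))} {m : ℕ} (hL : IsCx L) {W : Type} [TopologicalSpace W]
    [T2Space W] (f1 : (Fin n → ℝ) → W) (hc : Continuous f1) (hne : ∀ x ∈ X L, f1 x ≠ f1 (-x))
    (h : ∀ C : Set W, IsCompact C → LocDir2 W C m) : VK2 L (m + 1) := by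
  obtain ⟨Y, hY⟩ : ∃ Y, Y = insert 0 (YY L 0) := ⟨_, rfl⟩
  have hYc : IsCompact Y := by
    rw [hY]
    exact (YY_compact L 0).insert 0
  have hYn : ∀ x ∈ Y, -x ∈ Y := by
    intro x hx
    rw [hY] at hx ⊢
    rcases hx with rfl | hx
    · left; simp
    · right; exact YY_neg hL hx
  obtain ⟨θ, N, hN, hdiag, hθc, hodd, hloc⟩ := h (f1 '' Y) (hYc.image hc)
  obtain ⟨θ', hθ'⟩ : ∃ θ' : (Fin n → ℝ) → (Fin m → ℝ), θ' = fun x => θ (f1 x) (f1 (-x)) := ⟨_, rfl⟩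
  have hcc : Continuous (fun x : Fin n → ℝ => (f1 x, f1 (-x))) := hc.prodMk (hc.comp continuous_neg)
  obtain ⟨G1, hG1⟩ : ∃ G1, G1 = (fun x : Fin n → ℝ => (f1 x, f1 (-x))) ⁻¹' N := ⟨_, rfl⟩
  have hG1o : IsOpen G1 := by
    rw [hG1]
    exact hN.preimage hcc
  have hθ'c : ContinuousOn θ' G1 := by
    rw [hθ', hG1]
    exact hθc.comp hcc.continuousOn (fun x hx => hx)
  have hθ'o : ∀ x, θ' (-x) = -θ' x := by
    intro x
    rw [hθ']
    simp only [neg_neg]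
    exact hodd _ _
  obtain ⟨Z0, hZ0⟩ : ∃ Z0 : Set (Fin n → ℝ), Z0 = {x | x ∈ Y ∧ f1 x = f1 (-x)} := ⟨_, rfl⟩
  have hZ0c : IsCompact Z0 := by
    rw [hZ0]
    exact hYc.inter_right (isClosed_eq hc (hc.comp continuous_neg))
  have hZ0n : ∀ x ∈ Z0, -x ∈ Z0 := by
    intro x hx
    rw [hZ0] at hx ⊢
    exact ⟨hYn x hx.1, by rw [neg_neg]; exact hx.2.symm⟩
  have h0 : (0 : Fin n → ℝ) ∈ Z0 := by
    rw [hZ0, hY]
    exact ⟨Or.inl rfl, by rw [neg_zero]⟩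
  have hZG : Z0 ⊆ G1 := by
    intro x hx
    rw [hZ0] at hx
    rw [hG1]
    show (f1 x, f1 (-x)) ∈ N
    rw [← hx.2]
    exact hdiag _ ⟨x, hx.1, rfl⟩
  obtain ⟨δ, hδ, hth⟩ := hZ0c.exists_cthickening_subset_open hG1o hZG
  have hgd : ∀ x ∈ Metric.cthickening δ Z0, θ' x = 0 → f1 x = f1 (-x) := by
    intro x hx hx0
    have h1 : x ∈ G1 := hth hx
    rw [hG1] at h1
    rw [hθ'] at hx0
    exact hloc _ h1 hx0
  obtain ⟨e, he, he1, heδ⟩ : ∃ e : ℝ, 0 < e ∧ e ≤ 1 ∧ e ≤ δ :=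
    ⟨min 1 δ, by positivity, min_le_left _ _, min_le_right _ _⟩
  have hYe : YY L e ⊆ Y := by
    intro x hx
    obtain ⟨⟨t, y⟩, ⟨ht, hy⟩, rfl⟩ := hx
    rw [hY]
    exact Or.inr ⟨(t, y), ⟨⟨he.le.trans ht.1, ht.2⟩, hy⟩, rfl⟩
  have hXY : X L ⊆ Y := fun x hx => hYe (X_sub_YY he1 hx)
  have hcl : IsClosed (Metric.cthickening δ Z0 ∩ (fun x : Fin n → ℝ => -x) ⁻¹' Metric.cthickening δ Z0) :=
    IsClosed.inter Metric.isClosed_cthickening (IsClosed.preimage continuous_neg Metric.isClosed_cthickening)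
  have hop : IsOpen (Metric.thickening δ Z0 ∩ (fun x : Fin n → ℝ => -x) ⁻¹' Metric.thickening δ Z0) :=
    IsOpen.inter Metric.isOpen_thickening (IsOpen.preimage continuous_neg Metric.isOpen_thickening)
  refine vk2_of_local hL (Metric.cthickening δ Z0 ∩ (fun x : Fin n → ℝ => -x) ⁻¹' Metric.cthickening δ Z0)
    (Metric.thickening δ Z0 ∩ (fun x : Fin n → ℝ => -x) ⁻¹' Metric.thickening δ Z0) θ' he he1 hcl ?_
    (hθ'c.mono (fun x hx => hth hx.1.1)) hθ'o hop ?_ ?_ ?_ ?_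
  · intro x hx
    refine ⟨hx.2, ?_⟩
    show -(-x) ∈ Metric.cthickening δ Z0
    rw [neg_neg]
    exact hx.1
  · intro x hx hx0
    have h1 : x ∈ Z0 := by
      rw [hZ0]
      exact ⟨hYe hx.2, hgd x hx.1.1 hx0⟩
    exact ⟨Metric.self_subset_thickening hδ Z0 h1, Metric.self_subset_thickening hδ Z0 (hZ0n x h1)⟩
  · intro x hx
    exact ⟨Metric.thickening_subset_cthickening δ Z0 hx.1.1, Metric.thickening_subset_cthickening δ Z0 hx.1.2⟩
  · intro x hx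
    have h1 : ‖e • x‖ ≤ δ := by
      rw [norm_smul, Real.norm_of_nonneg he.le]
      have := X_norm_le hx
      nlinarith
    refine ⟨Metric.mem_cthickening_of_dist_le (e • x) 0 δ Z0 h0 (by rw [dist_zero_right]; exact h1),
      Metric.mem_cthickening_of_dist_le (-(e • x)) 0 δ Z0 h0 (by rw [dist_zero_right, norm_neg]; exact h1)⟩
  · intro x hx hxU h2
    exact hne x hx (hgd x hxU.1 h2)

end Pool.Agent.H77RA
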