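import Mathlib

/-!
# Transport of germs along a homotopy into a locally Euclidean space
-/

set_option autoImplicit false
set_option linter.unusedSectionVars false

namespace Pool.Agent.H77RA

open scoped Topology
open Set

variable {P X : Type} [TopologicalSpace P] [TopologicalSpace X]

/-- families of germs of injective maps which move `a p` to `b p`, near `K` -/
def Tr (K : Set P) (a b : P → X) : Prop :=
  ∃ Θ : P → X → X, ∀ p0 ∈ K, ∃ N : Set (P × X), IsOpen N ∧ (p0, a p0) ∈ N ∧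
    ContinuousOn (fun q : P × X => Θ q.1 q.2) N ∧ (∀ p, (p, a p) ∈ N → Θ p (a p) = b p) ∧
    ∀ p x y, (p, x) ∈ N → (p, y) ∈ N → Θ p x = Θ p y → x = y

theorem Tr.refl (K : Set P) (a : P → X) : Tr K a a :=
  ⟨fun _ x => x, fun _ _ => ⟨univ, isOpen_univ, mem_univ _, continuous_snd.continuousOn, fun _ _ => rfl,
    fun _ _ _ _ _ h => h⟩⟩

theorem Tr.trans {K : Set P} {a b c : P → X} (h1 : Tr K a b) (h2 : Tr K b c) : Tr K a c := by
  obtain ⟨Θ, h1⟩ := h1
  obtain ⟨Θ', h2⟩ := h2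
  refine ⟨fun p x => Θ' p (Θ p x), fun p0 hp0 => ?_⟩
  obtain ⟨N, hN, hm, hc, he, hi⟩ := h1 p0 hp0
  obtain ⟨N', hN', hm', hc', he', hi'⟩ := h2 p0 hp0
  have hcc : ContinuousOn (fun q : P × X => (q.1, Θ q.1 q.2)) N := continuous_fst.continuousOn.prodMk hc
  refine ⟨N ∩ (fun q : P × X => (q.1, Θ q.1 q.2)) ⁻¹' N', hcc.isOpen_inter_preimage hN hN', ⟨hm, ?_⟩, ?_, ?_, ?_⟩
  · show (p0, Θ p0 (a p0)) ∈ N'
    rw [he p0 hm]
    exact hm'
  · exact hc'.comp (hcc.mono inter_subset_left) (fun q hq => hq.2)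
  · intro p hp
    have h3 := he p hp.1
    have h4 : (p, Θ p (a p)) ∈ N' := hp.2
    rw [h3] at h4
    show Θ' p (Θ p (a p)) = c p
    rw [h3]
    exact he' p h4
  · intro p x y hx hy h
    exact hi p x y hx.1 hy.1 (hi' p _ _ hx.2 hy.2 h)

theorem Tr.congr_right {K : Set P} {a b b' : P → X} (h : Tr K a b) (hb : ∀ p0 ∈ K, ∀ᶠ p in 𝓝 p0, b p = b' p) :
    Tr K a b' := by
  obtain ⟨Θ, h⟩ := h
  refine ⟨Θ, fun p0 hp0 => ?_⟩
  obtain ⟨N, hN, hm, hc, he, hi⟩ := h p0 hp0
  obtain ⟨U, hU1, hU2, hU3⟩ := eventually_nhds_iff.mp (hb p0 hp0)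
  refine ⟨N ∩ (U ×ˢ univ), hN.inter (hU2.prod isOpen_univ), ⟨hm, hU3, mem_univ _⟩, hc.mono inter_subset_left, ?_, ?_⟩
  · intro p hp
    rw [he p hp.1]
    exact hU1 p hp.2.1
  · intro p x y hx hy h
    exact hi p x y hx.1 hy.1 h

theorem tr_chart {E : Type} [NormedAddCommGroup E] (φ : OpenPartialHomeomorph X E) {K : Set P} {a b : P → X}
    (ha : Continuous a) (hb : Continuous b) (Z : Set P) (hZ : IsClosed Z) (hoff : ∀ p, p ∉ Z → a p = b p)
    (hsa : ∀ p ∈ Z, a p ∈ φ.source) (hsb : ∀ p ∈ Z, b p ∈ φ.source) : Tr K a b := by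
  classical
  refine ⟨fun p x => if p ∈ Z then φ.symm (φ x + (φ (b p) - φ (a p))) else x, fun p0 _ => ?_⟩
  by_cases hp0 : p0 ∈ Z
  · obtain ⟨N1, hN1⟩ : ∃ N1 : Set (P × X), N1 = {q : P × X | a q.1 ∈ φ.source ∧ b q.1 ∈ φ.source ∧ q.2 ∈ φ.source} :=
      ⟨_, rfl⟩
    have hN1o : IsOpen N1 := by
      rw [hN1]
      exact (φ.open_source.preimage (ha.comp continuous_fst)).inter
        ((φ.open_source.preimage (hb.comp continuous_fst)).inter (φ.open_source.preimage continuous_snd))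
    obtain ⟨g, hg⟩ : ∃ g : P × X → E, g = fun q => φ q.2 + (φ (b q.1) - φ (a q.1)) := ⟨_, rfl⟩
    have hgc : ContinuousOn g N1 := by
      rw [hg]
      refine ContinuousOn.add ?_ (ContinuousOn.sub ?_ ?_)
      · exact φ.continuousOn.comp continuous_snd.continuousOn (fun q hq => by rw [hN1] at hq; exact hq.2.2)
      · exact φ.continuousOn.comp (hb.comp continuous_fst).continuousOn (fun q hq => by rw [hN1] at hq; exact hq.2.1)
      · exact φ.continuousOn.comp (ha.comp continuous_fst).continuousOn (fun q hq => by rw [hN1] at hq; exact hq.1)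
    obtain ⟨N, hN⟩ : ∃ N, N = N1 ∩ g ⁻¹' φ.target := ⟨_, rfl⟩
    have hNo : IsOpen N := by
      rw [hN]
      exact hgc.isOpen_inter_preimage hN1o φ.open_target
    have heq : ∀ q ∈ N, (if q.1 ∈ Z then φ.symm (φ q.2 + (φ (b q.1) - φ (a q.1))) else q.2) = φ.symm (g q) := by
      intro q hq
      rw [hN] at hq
      rw [hg]
      split_ifs with hqZ
      · rfl
      · simp only
        rw [hoff _ hqZ, sub_self, add_zero]
        have := hq.1
        rw [hN1] at this
        exact (φ.left_inv this.2.2).symm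
    refine ⟨N, hNo, ?_, ?_, ?_, ?_⟩
    · rw [hN, hN1, hg]
      refine ⟨⟨hsa p0 hp0, hsb p0 hp0, hsa p0 hp0⟩, ?_⟩
      show φ (a p0) + (φ (b p0) - φ (a p0)) ∈ φ.target
      rw [add_sub_cancel]
      exact φ.map_source (hsb p0 hp0)
    · refine ContinuousOn.congr ?_ heq
      refine φ.continuousOn_symm.comp (hgc.mono (by rw [hN]; exact inter_subset_left)) (fun q hq => ?_)
      rw [hN] at hq
      exact hq.2
    · intro p hp
      simp only
      split_ifs with hpZ
      · rw [add_sub_cancel]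
        exact φ.left_inv (hsb p hpZ)
      · exact hoff p hpZ
    · intro p x y hx hy h
      have h1 := heq _ hx
      have h2 := heq _ hy
      simp only at h1 h2 h
      rw [h1, h2] at h
      rw [hN] at hx hy
      have h3 := φ.symm.injOn (by rw [φ.symm_source]; exact hx.2) (by rw [φ.symm_source]; exact hy.2) h
      rw [hg] at h3
      simp only at h3
      have h4 := add_right_cancel h3
      have hx1 := hx.1
      have hy1 := hy.1
      rw [hN1] at hx1 hy1
      exact φ.injOn hx1.2.2 hy1.2.2 h4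
  · refine ⟨Zᶜ ×ˢ univ, hZ.isOpen_compl.prod isOpen_univ, ⟨hp0, mem_univ _⟩, ?_, ?_, ?_⟩
    · refine continuous_snd.continuousOn.congr ?_
      intro q hq
      exact if_neg hq.1
    · intro p hp
      simp only
      rw [if_neg (show p ∉ Z from hp.1)]
      exact hoff p hp.1
    · intro p x y hx hy h
      simp only at h
      rw [if_neg (show p ∉ Z from hx.1), if_neg (show p ∉ Z from hx.1)] at h
      exact h

/-- bump functions -/
theorem exists_bump [T2Space P] [LocallyCompactSpace P] (p : P) {O : Set P} (hO : IsOpen O) (hp : p ∈ O) :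
    ∃ (u : P → ℝ) (Z V : Set P), Continuous u ∧ (∀ q, 0 ≤ u q ∧ u q ≤ 1) ∧ IsClosed Z ∧ Z ⊆ O ∧ (∀ q, q ∉ Z → u q = 0) ∧
      IsOpen V ∧ p ∈ V ∧ ∀ q ∈ V, u q = 1 := by
  obtain ⟨K1, hK1, hK1O, hK1c⟩ := local_compact_nhds (hO.mem_nhds hp)
  have h1 : interior K1 ∈ 𝓝 p := interior_mem_nhds.mpr hK1
  obtain ⟨K2, hK2, hK2O, hK2c⟩ := local_compact_nhds h1
  obtain ⟨f, hf1, hf0, -, hf⟩ := exists_continuous_one_zero_of_isCompact hK2c
    (isOpen_interior (s := K1)).isClosed_compl (disjoint_compl_right.mono_left hK2O)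
  refine ⟨f, K1, interior K2, f.continuous, fun q => hf q, hK1c.isClosed, hK1O, ?_, isOpen_interior,
    mem_interior_iff_mem_nhds.mpr hK2, ?_⟩
  · intro q hq
    exact hf0 (fun h => hq (interior_subset h))
  · intro q hq
    exact hf1 (interior_subset hq)

theorem prod_one_sub_mem {ι : Type} (S : Finset ι) (v : ι → ℝ) (hv : ∀ i, 0 ≤ v i ∧ v i ≤ 1) :
    0 ≤ 1 - ∏ i ∈ S, (1 - v i) ∧ 1 - ∏ i ∈ S, (1 - v i) ≤ 1 := by
  have h1 : ∏ i ∈ S, (1 - v i) ≤ 1 := Finset.prod_le_one (fun i _ => by linarith [(hv i).2])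
    (fun i _ => by linarith [(hv i).1])
  have h2 : 0 ≤ ∏ i ∈ S, (1 - v i) := Finset.prod_nonneg (fun i _ => by linarith [(hv i).2])
  constructor <;> linarith

theorem tr_local {E : Type} [NormedAddCommGroup E] [T2Space P] [LocallyCompactSpace P]
    {K : Set P} (hK : IsCompact K) (g : ℝ × P → X) (hg : Continuous g)
    (hch : ∀ t, ∀ p ∈ K, ∃ φ : OpenPartialHomeomorph X E, g (t, p) ∈ φ.source) (t0 : ℝ) :
    ∃ ε : ℝ, 0 < ε ∧ ∀ s s' : ℝ, |s - t0| < ε → |s' - t0| < ε → Tr K (fun p => g (s, p)) (fun p => g (s', p)) := by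
  classical
  have hch : ∀ p : K, ∃ (φ : OpenPartialHomeomorph X E) (ε : ℝ) (O : Set P), 0 < ε ∧ IsOpen O ∧ (p : P) ∈ O ∧
      ∀ t q, |t - t0| < ε → q ∈ O → g (t, q) ∈ φ.source := by
    intro p
    obtain ⟨φ, hφ⟩ := hch t0 p p.2
    have h1 : g ⁻¹' φ.source ∈ 𝓝 (t0, (p : P)) := (φ.open_source.preimage hg).mem_nhds hφ
    rw [nhds_prod_eq, Filter.mem_prod_iff] at h1
    obtain ⟨A, hA, B, hB, hAB⟩ := h1
    obtain ⟨ε, hε, hεA⟩ := Metric.mem_nhds_iff.mp hA
    obtain ⟨O, hOB, hO, hpO⟩ := mem_nhds_iff.mp hB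
    refine ⟨φ, ε, O, hε, hO, hpO, fun t q ht hq => ?_⟩
    exact hAB (mk_mem_prod (hεA (by rw [Metric.mem_ball, Real.dist_eq]; exact ht)) (hOB hq))
  choose φ ε O hε hO hpO hsrc using hch
  have hb := fun p : K => exists_bump (p : P) (hO p) (hpO p)
  choose u Z V huc hu hZ hZO hu0 hV hpV hu1 using hb
  obtain ⟨T, hT⟩ := hK.elim_nhds_subcover' (fun p hp => V ⟨p, hp⟩) (fun p hp => (hV ⟨p, hp⟩).mem_nhds (hpV ⟨p, hp⟩))
  obtain ⟨ε0, hε0, hε0'⟩ : ∃ ε0 : ℝ, 0 < ε0 ∧ ∀ p ∈ T, ε0 ≤ ε p := by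
    clear hT
    induction T using Finset.induction_on with
    | empty => exact ⟨1, one_pos, fun p hp => absurd hp (Finset.notMem_empty p)⟩
    | insert p T hp ih =>
      obtain ⟨e, he, he'⟩ := ih
      refine ⟨min e (ε p), lt_min he (hε p), fun q hq => ?_⟩
      rcases Finset.mem_insert.mp hq with rfl | hq
      · exact min_le_right _ _
      · exact (min_le_left _ _).trans (he' q hq)
  refine ⟨ε0, hε0, fun s s' hs hs' => ?_⟩
  obtain ⟨c, hc⟩ : ∃ c : Finset K → P → ℝ, c = fun S q => 1 - ∏ i ∈ S, (1 - u i q) := ⟨_, rfl⟩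
  have hcc : ∀ S, Continuous (c S) := by
    intro S
    rw [hc]
    exact continuous_const.sub (continuous_finsetProd _ (fun i _ => continuous_const.sub (huc i)))
  have hc01 : ∀ S q, 0 ≤ c S q ∧ c S q ≤ 1 := by
    intro S q
    rw [hc]
    exact prod_one_sub_mem S (fun i => u i q) (fun i => hu i q)
  have hgc : ∀ S, Continuous (fun q => g (s + (s' - s) * c S q, q)) := by
    intro S
    exact hg.comp ((continuous_const.add (continuous_const.mul (hcc S))).prodMk continuous_id)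
  have htime : ∀ S q, |s + (s' - s) * c S q - t0| < ε0 := by
    intro S q
    have h1 := hc01 S q
    have h2 : s + (s' - s) * c S q - t0 = (1 - c S q) * (s - t0) + c S q * (s' - t0) := by ring
    rw [h2, abs_lt]
    rw [abs_lt] at hs hs'
    have h3 := (convex_Ioo (-ε0) ε0) (mem_Ioo.mpr hs) (mem_Ioo.mpr hs') (sub_nonneg.mpr h1.2) h1.1 (sub_add_cancel _ _)
    simp only [smul_eq_mul] at h3
    exact h3
  have hind : ∀ S ⊆ T, Tr K (fun p => g (s, p)) (fun q => g (s + (s' - s) * c S q, q)) := by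
    intro S
    induction S using Finset.induction_on with
    | empty =>
      intro _
      have h1 : (fun q => g (s + (s' - s) * c ∅ q, q)) = fun p => g (s, p) := by
        funext q
        rw [hc]
        simp
      rw [h1]
      exact Tr.refl K _
    | insert p S hp ih =>
      intro hS
      have hpT : p ∈ T := hS (Finset.mem_insert_self p S)
      refine (ih ((Finset.subset_insert p S).trans hS)).trans ?_
      refine tr_chart (φ p) (hgc S) (hgc (insert p S)) (Z p) (hZ p) ?_ ?_ ?_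
      · intro q hq
        have h1 : c (insert p S) q = c S q := by
          rw [hc]
          simp only
          rw [Finset.prod_insert hp, hu0 p q hq, sub_zero, one_mul]
        rw [h1]
      · intro q hq
        exact hsrc p _ q ((htime S q).trans_le (hε0' p hpT)) (hZO p hq)
      · intro q hq
        exact hsrc p _ q ((htime (insert p S) q).trans_le (hε0' p hpT)) (hZO p hq)
  refine (hind T le_rfl).congr_right ?_
  intro p0 hp0
  obtain ⟨p, hpT⟩ := mem_iUnion.mp (hT hp0)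
  obtain ⟨hpT, hp0V⟩ := mem_iUnion.mp hpT
  filter_upwards [(hV p).mem_nhds hp0V] with q hq
  have h1 : c T q = 1 := by
    rw [hc]
    simp only
    rw [Finset.prod_eq_zero hpT (by rw [hu1 p q hq, sub_self]), sub_zero]
  rw [h1]
  congr 2
  ring

theorem tr_homotopy (E : Type) [NormedAddCommGroup E] [T2Space P] [LocallyCompactSpace P]
    {K : Set P} (hK : IsCompact K) (g : ℝ × P → X) (hg : Continuous g)
    (hch : ∀ t, ∀ p ∈ K, ∃ φ : OpenPartialHomeomorph X E, g (t, p) ∈ φ.source) (s s' : ℝ) :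
    Tr K (fun p => g (s, p)) (fun p => g (s', p)) := by
  refine PreconnectedSpace.induction₂' (fun s s' => Tr K (fun p => g (s, p)) (fun p => g (s', p))) ?_ ?_ s s'
  · intro t0
    obtain ⟨ε, hε, h⟩ := tr_local (E := E) hK g hg hch t0
    filter_upwards [Metric.ball_mem_nhds t0 hε] with y hy
    rw [Metric.mem_ball, Real.dist_eq] at hy
    have h0 : |t0 - t0| < ε := by rw [sub_self, abs_zero]; exact hε
    exact ⟨h _ _ h0 hy, h _ _ hy h0⟩
  · exact ⟨fun _ _ _ h1 h2 => h1.trans h2⟩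

end Pool.Agent.H77RA
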