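import Mathlib
import Pool.Agent.H77RA.S2

/-!
# Symmetric midpoints near the diagonal of a locally Euclidean space
-/

set_option autoImplicit false
set_option linter.unusedSectionVars false

namespace Pool.Agent.H77RA

open scoped Topology
open Set

variable {W : Type} [TopologicalSpace W]

/-- symmetric maps which are continuous near the diagonal and fix it -/
def Mid (F : W × W → W × W) : Prop :=
  (∀ x, F (x, x) = (x, x)) ∧ (∀ p, F p.swap = (F p).swap) ∧
    ∀ w, ∃ N : Set (W × W), IsOpen N ∧ (w, w) ∈ N ∧ ContinuousOn F N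

theorem Mid.id' : Mid (fun q : W × W => q) :=
  ⟨fun _ => rfl, fun _ => rfl, fun _ => ⟨univ, isOpen_univ, mem_univ _, continuous_id.continuousOn⟩⟩

theorem Mid.comp' {F G : W × W → W × W} (hG : Mid G) (hF : Mid F) : Mid (fun q => G (F q)) := by
  refine ⟨fun x => by simp only; rw [hF.1, hG.1], fun p => by simp only; rw [hF.2.1, hG.2.1], fun w => ?_⟩
  obtain ⟨N, hN, hw, hc⟩ := hF.2.2 w
  obtain ⟨N', hN', hw', hc'⟩ := hG.2.2 w
  refine ⟨N ∩ F ⁻¹' N', hc.isOpen_inter_preimage hN hN', ⟨hw, ?_⟩, hc'.comp (hc.mono inter_subset_left) (fun q hq => hq.2)⟩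
  show F (w, w) ∈ N'
  rw [hF.1]
  exact hw'

theorem Mid.continuousAt {F : W × W → W × W} (hF : Mid F) (w : W) : ContinuousAt F (w, w) := by
  obtain ⟨N, hN, hw, hc⟩ := hF.2.2 w
  exact hc.continuousAt (hN.mem_nhds hw)

theorem mid_chart {E : Type} [NormedAddCommGroup E] [NormedSpace ℝ E] {M : Type} [TopologicalSpace M] (i : M → E)
    (r : E → M) (hi : Continuous i) (hr : Continuous r) (hri : ∀ x, r (i x) = x)
    (φ : OpenPartialHomeomorph W M) (u : W → ℝ) (hu : Continuous u) (hu01 : ∀ x, 0 ≤ u x ∧ u x ≤ 1) (Z : Set W) (hZ : IsClosed Z) (hZs : Z ⊆ φ.source)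
    (hu0 : ∀ x, x ∉ Z → u x = 0) :
    ∃ F : W × W → W × W, Mid F ∧ ∀ w, (∀ᶠ x in 𝓝 w, u x = 1) → ∀ᶠ q in 𝓝 (w, w), (F q).1 = (F q).2 := by
  classical
  obtain ⟨s, hs⟩ : ∃ s : W × W → ℝ, s = fun q => u q.1 * u q.2 := ⟨_, rfl⟩
  have hsc : Continuous s := by
    rw [hs]
    exact (hu.comp continuous_fst).mul (hu.comp continuous_snd)
  have hs01 : ∀ q, 0 ≤ s q ∧ s q ≤ 1 := by
    intro q
    rw [hs]
    exact ⟨mul_nonneg (hu01 _).1 (hu01 _).1, mul_le_one₀ (hu01 _).2 (hu01 _).1 (hu01 _).2⟩
  obtain ⟨F, hF⟩ : ∃ F : W × W → W × W, F = fun q => if q.1 ∈ φ.source ∧ q.2 ∈ φ.source then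
      (φ.symm (r ((1 - s q / 2) • i (φ q.1) + (s q / 2) • i (φ q.2))),
        φ.symm (r ((s q / 2) • i (φ q.1) + (1 - s q / 2) • i (φ q.2)))) else q := ⟨_, rfl⟩
  refine ⟨F, ⟨?_, ?_, ?_⟩, ?_⟩
  · intro x
    rw [hF]
    simp only [and_self]
    split_ifs with h
    · rw [← add_smul, ← add_smul]
      have e1 : (1 - s (x, x) / 2 + s (x, x) / 2) = 1 := by ring
      have e2 : (s (x, x) / 2 + (1 - s (x, x) / 2)) = 1 := by ring
      rw [e1, e2, one_smul, hri, φ.left_inv h]
    · rfl
  · intro p
    have hsw : s p.swap = s p := by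
      rw [hs]
      simp only [Prod.fst_swap, Prod.snd_swap]
      ring
    rw [hF]
    simp only [Prod.fst_swap, Prod.snd_swap, hsw]
    by_cases h : p.1 ∈ φ.source ∧ p.2 ∈ φ.source
    · rw [if_pos h, if_pos h.symm]
      simp only [Prod.swap_prod_mk]
      rw [add_comm ((1 - s p / 2) • i (φ p.2)), add_comm ((s p / 2) • i (φ p.2))]
    · rw [if_neg h, if_neg (fun h' => h h'.symm)]
  · intro w
    by_cases hw : w ∈ φ.source
    · have hot : IsOpen (r ⁻¹' φ.target) := φ.open_target.preimage hr
      have hwt : i (φ w) ∈ r ⁻¹' φ.target := by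
        show r (i (φ w)) ∈ φ.target
        rw [hri]
        exact φ.map_source hw
      obtain ⟨ρ, hρ, hball⟩ := Metric.isOpen_iff.mp hot (i (φ w)) hwt
      obtain ⟨O, hO⟩ : ∃ O, O = φ.source ∩ (fun x => i (φ x)) ⁻¹' Metric.ball (i (φ w)) ρ := ⟨_, rfl⟩
      have hOo : IsOpen O := by
        rw [hO]
        exact (hi.comp_continuousOn φ.continuousOn).isOpen_inter_preimage φ.open_source Metric.isOpen_ball
      have hwO : w ∈ O := by
        rw [hO]
        exact ⟨hw, Metric.mem_ball_self hρ⟩
      refine ⟨O ×ˢ O, hOo.prod hOo, ⟨hwO, hwO⟩, ?_⟩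
      have h1 : ContinuousOn (fun q : W × W => i (φ q.1)) (O ×ˢ O) :=
        (hi.comp_continuousOn φ.continuousOn).comp continuous_fst.continuousOn (fun q hq => by
          have := hq.1
          rw [hO] at this
          exact this.1)
      have h2 : ContinuousOn (fun q : W × W => i (φ q.2)) (O ×ˢ O) :=
        (hi.comp_continuousOn φ.continuousOn).comp continuous_snd.continuousOn (fun q hq => by
          have := hq.2
          rw [hO] at this
          exact this.1)
      have h3 : ContinuousOn (fun q : W × W => (φ.symm (r ((1 - s q / 2) • i (φ q.1) + (s q / 2) • i (φ q.2))),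
          φ.symm (r ((s q / 2) • i (φ q.1) + (1 - s q / 2) • i (φ q.2))))) (O ×ˢ O) := by
        refine ContinuousOn.prodMk ?_ ?_
        · refine φ.continuousOn_symm.comp (hr.comp_continuousOn (ContinuousOn.add ?_ ?_)) ?_
          · exact (continuous_const.sub (hsc.div_const 2)).continuousOn.smul h1
          · exact (hsc.div_const 2).continuousOn.smul h2
          · intro q hq
            have a1 := hq.1
            have a2 := hq.2
            rw [hO] at a1 a2
            exact hball ((convex_ball (i (φ w)) ρ) a1.2 a2.2 (by linarith [(hs01 q).2]) (by linarith [(hs01 q).1]) (by ring))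
        · refine φ.continuousOn_symm.comp (hr.comp_continuousOn (ContinuousOn.add ?_ ?_)) ?_
          · exact (hsc.div_const 2).continuousOn.smul h1
          · exact (continuous_const.sub (hsc.div_const 2)).continuousOn.smul h2
          · intro q hq
            have a1 := hq.1
            have a2 := hq.2
            rw [hO] at a1 a2
            exact hball ((convex_ball (i (φ w)) ρ) a1.2 a2.2 (by linarith [(hs01 q).1]) (by linarith [(hs01 q).2]) (by ring))
      refine h3.congr ?_
      intro q hq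
      rw [hF]
      simp only
      rw [if_pos]
      have a1 := hq.1
      have a2 := hq.2
      rw [hO] at a1 a2
      exact ⟨a1.1, a2.1⟩
    · have hwZ : w ∈ Zᶜ := fun h => hw (hZs h)
      refine ⟨Zᶜ ×ˢ Zᶜ, hZ.isOpen_compl.prod hZ.isOpen_compl, ⟨hwZ, hwZ⟩, continuous_id.continuousOn.congr ?_⟩
      intro q hq
      have h0 : s q = 0 := by
        rw [hs]
        simp only
        rw [hu0 q.1 hq.1, zero_mul]
      rw [hF]
      simp only [h0]
      split_ifs with h
      · simp [φ.left_inv h.1, φ.left_inv h.2, hri]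
      · rfl
  · intro w hw
    have hwZ : w ∈ Z := by
      by_contra h
      have h1 := hw.self_of_nhds
      rw [hu0 w h] at h1
      exact zero_ne_one h1
    have hws : w ∈ φ.source := hZs hwZ
    have t1 : Filter.Tendsto (fun q : W × W => q.1) (𝓝 (w, w)) (𝓝 w) := continuous_fst.tendsto (w, w)
    have t2 : Filter.Tendsto (fun q : W × W => q.2) (𝓝 (w, w)) (𝓝 w) := continuous_snd.tendsto (w, w)
    have h1 := t1.eventually hw
    have h2 := t2.eventually hw
    have h3 := t1.eventually (φ.open_source.mem_nhds hws)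
    have h4 := t2.eventually (φ.open_source.mem_nhds hws)
    filter_upwards [h1, h2, h3, h4] with q q1 q2 q3 q4
    have h0 : s q = 1 := by
      rw [hs]
      simp only
      rw [q1, q2, one_mul]
    rw [hF]
    simp only [h0]
    rw [if_pos ⟨q3, q4⟩]
    have : (1 : ℝ) - 1 / 2 = 1 / 2 := by norm_num
    rw [this]

theorem exists_mid {E : Type} [NormedAddCommGroup E] [NormedSpace ℝ E] {M : Type} [TopologicalSpace M] (i : M → E)
    (r : E → M) (hi : Continuous i) (hr : Continuous r) (hri : ∀ x, r (i x) = x) [ChartedSpace M W] [T2Space W]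
    [LocallyCompactSpace W] {C : Set W} (hC : IsCompact C) :
    ∃ F : W × W → W × W, Mid F ∧ ∀ w ∈ C, ∀ᶠ q in 𝓝 (w, w), (F q).1 = (F q).2 := by
  classical
  have hb := fun w : W => exists_bump w (chartAt M w).open_source (mem_chart_source M w)
  choose u Z V huc hu hZ hZO hu0 hV hpV hu1 using hb
  have hm := fun w : W => mid_chart i r hi hr hri (chartAt M w) (u w) (huc w) (hu w) (Z w) (hZ w) (hZO w) (hu0 w)
  choose Fc hFc hFd using hm
  obtain ⟨T, hTC, hT⟩ := hC.elim_nhds_subcover V (fun p _ => (hV p).mem_nhds (hpV p))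
  have hind : ∀ S : Finset W, ∃ F : W × W → W × W, Mid F ∧ ∀ p ∈ S, ∀ w ∈ V p, ∀ᶠ q in 𝓝 (w, w), (F q).1 = (F q).2 := by
    intro S
    induction S using Finset.induction_on with
    | empty => exact ⟨_, Mid.id', fun p hp => absurd hp (Finset.notMem_empty p)⟩
    | insert p S hp ih =>
      obtain ⟨F, hF, hd⟩ := ih
      refine ⟨fun q => Fc p (F q), (hFc p).comp' hF, ?_⟩
      intro p' hp' w hw
      rcases Finset.mem_insert.mp hp' with rfl | hp'
      · have h1 := hFd p' w (by filter_upwards [(hV p').mem_nhds hw] with x hx using hu1 p' x hx)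
        have h2 := hF.continuousAt w
        rw [ContinuousAt, hF.1] at h2
        exact h2.eventually h1
      · filter_upwards [hd p' hp' w hw] with q hq
        have h3 : F q = ((F q).1, (F q).1) := Prod.ext rfl hq.symm
        rw [h3, (hFc p).1]
  obtain ⟨F, hF, hd⟩ := hind T
  refine ⟨F, hF, fun w hw => ?_⟩
  obtain ⟨p, hpT⟩ := mem_iUnion.mp (hT hw)
  obtain ⟨hpT, hwV⟩ := mem_iUnion.mp hpT
  exact hd p hpT w hwV

end Pool.Agent.H77RA
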