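import Mathlib

/-!
# Pushing a compact part of a manifold with boundary and corners into its interior
-/

set_option autoImplicit false
set_option linter.unusedSectionVars false

namespace Pool.Agent.H77RA

open scoped Topology
open Set

/-- points which have a Euclidean neighbourhood -/
def Eu (E W : Type) [TopologicalSpace E] [TopologicalSpace W] : Set W :=
  {x | ∃ φ : OpenPartialHomeomorph W E, x ∈ φ.source}

variable {E : Type} [NormedAddCommGroup E] [NormedSpace ℝ E] {M : Type} [TopologicalSpace M]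
  (I : ModelWithCorners ℝ E M) {W : Type} [TopologicalSpace W]

theorem eu_of_interior (φ : OpenPartialHomeomorph W M) {x : W} (hx : x ∈ φ.source)
    (h : I (φ x) ∈ interior (range I)) : x ∈ Eu E W := by
  have hc : ContinuousOn (fun x => I (φ x)) φ.source := I.continuous.comp_continuousOn φ.continuousOn
  refine ⟨{ toFun := fun x => I (φ x)
            invFun := fun y => φ.symm (I.symm y)
            source := φ.source ∩ (fun x => I (φ x)) ⁻¹' interior (range I)
            target := interior (range I) ∩ I.symm ⁻¹' φ.target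
            map_source' := ?_
            map_target' := ?_
            left_inv' := ?_
            right_inv' := ?_
            open_source := hc.isOpen_inter_preimage φ.open_source isOpen_interior
            open_target := isOpen_interior.inter (φ.open_target.preimage I.continuous_symm)
            continuousOn_toFun := hc.mono inter_subset_left
            continuousOn_invFun := ?_ }, hx, h⟩
  · intro y hy
    refine ⟨hy.2, ?_⟩
    show I.symm (I (φ y)) ∈ φ.target
    rw [I.left_inv]
    exact φ.map_source hy.1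
  · intro y hy
    refine ⟨φ.map_target hy.2, ?_⟩
    show I (φ (φ.symm (I.symm y))) ∈ interior (range I)
    rw [φ.right_inv hy.2, I.right_inv (interior_subset hy.1)]
    exact hy.1
  · intro y hy
    show φ.symm (I.symm (I (φ y))) = y
    rw [I.left_inv, φ.left_inv hy.1]
  · intro y hy
    show I (φ (φ.symm (I.symm y))) = y
    rw [φ.right_inv hy.2, I.right_inv (interior_subset hy.1)]
  · exact φ.continuousOn_symm.comp I.continuous_symm.continuousOn (fun y hy => hy.2)

include I in
theorem exists_push [FiniteDimensional ℝ E] [T2Space W] [ChartedSpace M W] (w : W) :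
    ∃ (j : W → W) (V : Set W), Continuous j ∧ Function.Injective j ∧ IsOpen V ∧ w ∈ V ∧
      ∀ x, j x ∈ Eu E W ∨ (j x = x ∧ x ∉ V) := by
  classical
  have hprop : ProperSpace E := FiniteDimensional.proper_real E
  obtain ⟨φ, hφ⟩ : ∃ φ, φ = chartAt M w := ⟨_, rfl⟩
  have hwφ : w ∈ φ.source := by rw [hφ]; exact mem_chart_source M w
  obtain ⟨y0, hy0⟩ : ∃ y0, y0 = I (φ w) := ⟨_, rfl⟩
  obtain ⟨c, hc⟩ := I.nonempty_interior
  have hconv : Convex ℝ (range I) := I.convex_range
  have hOo : IsOpen (I.symm ⁻¹' φ.target) := φ.open_target.preimage I.continuous_symm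
  have hy0O : y0 ∈ I.symm ⁻¹' φ.target := by
    show I.symm y0 ∈ φ.target
    rw [hy0, I.left_inv]
    exact φ.map_source hwφ
  obtain ⟨ε, hε, hball⟩ := Metric.isOpen_iff.mp hOo y0 hy0O
  obtain ⟨s, hs⟩ : ∃ s : ℝ, s = ε / 2 := ⟨_, rfl⟩
  have hs0 : 0 < s := by rw [hs]; positivity
  obtain ⟨ρ, hρ⟩ : ∃ ρ : E → ℝ, ρ = fun y => max 0 (1 - ‖y - y0‖ / s) := ⟨_, rfl⟩
  have hρ0 : ∀ y, 0 ≤ ρ y := fun y => by rw [hρ]; exact le_max_left _ _
  have hρ1 : ∀ y, ρ y ≤ 1 := fun y => by
    rw [hρ]
    refine max_le zero_le_one ?_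
    have : 0 ≤ ‖y - y0‖ / s := by positivity
    linarith
  have hρpos : ∀ y, ‖y - y0‖ < s → 0 < ρ y := fun y hy => by
    rw [hρ]
    refine lt_max_of_lt_right ?_
    rw [sub_pos, div_lt_one hs0]
    exact hy
  have hρne : ∀ y, ρ y ≠ 0 → ‖y - y0‖ < s := fun y hy => by
    by_contra h
    apply hy
    rw [hρ]
    refine max_eq_left ?_
    rw [sub_nonpos, one_le_div hs0]
    exact not_lt.mp h
  have hρL : ∀ y z, |ρ y - ρ z| ≤ ‖y - z‖ / s := fun y z => by
    rw [hρ]
    simp only
    rw [max_comm 0, max_comm 0]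
    refine (abs_max_sub_max_le_abs (1 - ‖y - y0‖ / s) (1 - ‖z - y0‖ / s) 0).trans ?_
    have h1 : 1 - ‖y - y0‖ / s - (1 - ‖z - y0‖ / s) = (‖z - y0‖ - ‖y - y0‖) / s := by ring
    rw [h1, abs_div, abs_of_pos hs0]
    gcongr
    have h2 := abs_norm_sub_norm_le (z - y0) (y - y0)
    rw [sub_sub_sub_cancel_right, norm_sub_rev z y] at h2
    exact h2
  have hρc : Continuous ρ := by
    rw [hρ]
    exact continuous_const.max (continuous_const.sub ((continuous_id.sub continuous_const).norm.div_const s))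
  obtain ⟨M0, hM0⟩ : ∃ M0 : ℝ, M0 = ‖c - y0‖ + s := ⟨_, rfl⟩
  have hM0p : 0 < M0 := by rw [hM0]; positivity
  have hcM : ∀ y, ρ y ≠ 0 → ‖c - y‖ ≤ M0 := fun y hy => by
    have h1 := hρne y hy
    have h2 : c - y = (c - y0) - (y - y0) := by abel
    rw [h2, hM0]
    exact (norm_sub_le _ _).trans (by linarith)
  obtain ⟨L, hL⟩ : ∃ L : ℝ, L = M0 / s + 1 := ⟨_, rfl⟩
  have hLp : 0 < L := by rw [hL]; positivity
  have hfL1 : ∀ y z, ρ y ≠ 0 → ‖ρ y • (c - y) - ρ z • (c - z)‖ ≤ L * ‖y - z‖ := by
    intro y z hy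
    have h1 : ρ y • (c - y) - ρ z • (c - z) = (ρ y - ρ z) • (c - y) + ρ z • (z - y) := by
      rw [sub_smul, smul_sub (ρ z) z y, smul_sub (ρ z) c z, smul_sub (ρ z) c y]
      abel
    rw [h1]
    refine (norm_add_le _ _).trans ?_
    rw [norm_smul, norm_smul, Real.norm_eq_abs, Real.norm_eq_abs, norm_sub_rev z y]
    have h2 : |ρ y - ρ z| * ‖c - y‖ ≤ (‖y - z‖ / s) * M0 :=
      mul_le_mul (hρL y z) (hcM y hy) (norm_nonneg _) (by positivity)
    have h3 : |ρ z| * ‖y - z‖ ≤ 1 * ‖y - z‖ := by
      refine mul_le_mul_of_nonneg_right ?_ (norm_nonneg _)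
      rw [abs_of_nonneg (hρ0 z)]
      exact hρ1 z
    have h4 : L * ‖y - z‖ = (‖y - z‖ / s) * M0 + 1 * ‖y - z‖ := by
      rw [hL]
      ring
    rw [h4]
    exact add_le_add h2 h3
  have hfL : ∀ y z, ‖ρ y • (c - y) - ρ z • (c - z)‖ ≤ L * ‖y - z‖ := by
    intro y z
    by_cases hy : ρ y = 0
    · by_cases hz : ρ z = 0
      · rw [hy, hz, zero_smul, zero_smul, sub_zero, norm_zero]
        positivity
      · rw [norm_sub_rev, norm_sub_rev y z]
        exact hfL1 z y hz
    · exact hfL1 y z hy
  obtain ⟨t, ht0, ht1, htL, htM⟩ : ∃ t : ℝ, 0 < t ∧ t ≤ 1 ∧ t * L ≤ 1 / 2 ∧ t * M0 ≤ s / 2 := by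
    refine ⟨1 / (1 + 2 * L + 2 * M0 / s), by positivity, ?_, ?_, ?_⟩
    · rw [div_le_one (by positivity)]
      have : 0 < 2 * M0 / s := by positivity
      linarith
    · rw [div_mul_eq_mul_div, div_le_div_iff₀ (by positivity) two_pos]
      have : 0 < 2 * M0 / s := by positivity
      linarith
    · rw [div_mul_eq_mul_div, div_le_div_iff₀ (by positivity) two_pos]
      have h1 : s * (2 * M0 / s) = 2 * M0 := by field_simp
      have h2 : 0 < s * (2 * L) := by positivity
      nlinarith
  obtain ⟨G, hG⟩ : ∃ G : E → E, G = fun y => y + (t * ρ y) • (c - y) := ⟨_, rfl⟩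
  have hGc : Continuous G := by
    rw [hG]
    exact continuous_id.add ((continuous_const.mul hρc).smul (continuous_const.sub continuous_id))
  have hGR : ∀ y ∈ range I, G y ∈ range I := by
    intro y hy
    rw [hG]
    exact hconv.add_smul_sub_mem hy (interior_subset hc)
      ⟨mul_nonneg ht0.le (hρ0 y), mul_le_one₀ ht1 (hρ0 y) (hρ1 y)⟩
  have hGi : ∀ y ∈ range I, 0 < ρ y → G y ∈ interior (range I) := by
    intro y hy hp
    rw [hG]
    exact hconv.add_smul_sub_mem_interior hy hc ⟨mul_pos ht0 hp, mul_le_one₀ ht1 (hρ0 y) (hρ1 y)⟩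
  have hG0 : ∀ y, ρ y = 0 → G y = y := by
    intro y hy
    rw [hG]
    simp only
    rw [hy, mul_zero, zero_smul, add_zero]
  have hGO : ∀ y, ρ y ≠ 0 → G y ∈ I.symm ⁻¹' φ.target := by
    intro y hy
    apply hball
    rw [Metric.mem_ball, dist_eq_norm, hG]
    simp only
    have h1 : y + (t * ρ y) • (c - y) - y0 = (y - y0) + (t * ρ y) • (c - y) := by abel
    rw [h1]
    refine (norm_add_le _ _).trans_lt ?_
    rw [norm_smul, Real.norm_eq_abs, abs_of_nonneg (mul_nonneg ht0.le (hρ0 y))]
    have h2 := hρne y hy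
    have h3 : t * ρ y * ‖c - y‖ ≤ t * M0 := by
      have h4 : t * ρ y ≤ t := by nlinarith [hρ1 y]
      exact mul_le_mul h4 (hcM y hy) (norm_nonneg _) ht0.le
    have h5 : ε = 2 * s := by rw [hs]; ring
    rw [h5]
    linarith
  have hGinj : Function.Injective G := by
    intro y z hyz
    rw [hG] at hyz
    simp only at hyz
    have h1 : y - z = -(t • (ρ y • (c - y) - ρ z • (c - z))) := by
      rw [mul_smul, mul_smul] at hyz
      rw [smul_sub, neg_sub, sub_eq_sub_iff_add_eq_add, hyz]
      abel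
    have h2 : ‖y - z‖ ≤ 1 / 2 * ‖y - z‖ := by
      calc ‖y - z‖ = t * ‖ρ y • (c - y) - ρ z • (c - z)‖ := by
            rw [h1, norm_neg, norm_smul, Real.norm_eq_abs, abs_of_pos ht0]
        _ ≤ t * (L * ‖y - z‖) := mul_le_mul_of_nonneg_left (hfL y z) ht0.le
        _ = t * L * ‖y - z‖ := by ring
        _ ≤ 1 / 2 * ‖y - z‖ := mul_le_mul_of_nonneg_right htL (norm_nonneg _)
    have h3 : ‖y - z‖ = 0 := by
      have := norm_nonneg (y - z)
      linarith
    exact sub_eq_zero.mp (norm_eq_zero.mp h3)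
  obtain ⟨j, hj⟩ : ∃ j : W → W, j = fun x => if x ∈ φ.source then φ.symm (I.symm (G (I (φ x)))) else x := ⟨_, rfl⟩
  have hmem : ∀ x ∈ φ.source, I.symm (G (I (φ x))) ∈ φ.target := by
    intro x hx
    by_cases h0 : ρ (I (φ x)) = 0
    · rw [hG0 _ h0, I.left_inv]
      exact φ.map_source hx
    · exact hGO _ h0
  have hjid : ∀ x, (x ∈ φ.source → ρ (I (φ x)) = 0) → j x = x := by
    intro x hx
    rw [hj]
    simp only
    split_ifs with h
    · rw [hG0 _ (hx h), I.left_inv, φ.left_inv h]
    · rfl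
  obtain ⟨Z, hZ⟩ : ∃ Z, Z = φ.symm '' (I.symm '' (range I ∩ Metric.closedBall y0 s)) := ⟨_, rfl⟩
  have hsub : I.symm '' (range I ∩ Metric.closedBall y0 s) ⊆ φ.target := by
    rintro _ ⟨y, hy, rfl⟩
    apply hball
    have := Metric.mem_closedBall.mp hy.2
    rw [Metric.mem_ball]
    have h5 : ε = 2 * s := by rw [hs]; ring
    linarith
  have hZcl : IsClosed Z := by
    have h1 : IsCompact (range I ∩ Metric.closedBall y0 s) := (isCompact_closedBall y0 s).inter_left I.isClosed_range
    rw [hZ]
    exact ((h1.image I.continuous_symm).image_of_continuousOn (φ.continuousOn_symm.mono hsub)).isClosed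
  have hZsub : Z ⊆ φ.source := by
    rw [hZ]
    rintro _ ⟨y, hy, rfl⟩
    exact φ.map_target (hsub hy)
  have hZρ : ∀ x ∈ φ.source, ρ (I (φ x)) ≠ 0 → x ∈ Z := by
    intro x hx h
    rw [hZ]
    refine ⟨φ x, ⟨I (φ x), ⟨mem_range_self _, ?_⟩, I.left_inv _⟩, φ.left_inv hx⟩
    rw [Metric.mem_closedBall, dist_eq_norm]
    exact (hρne _ h).le
  have hjZ : ∀ x, x ∉ Z → j x = x := by
    intro x hx
    refine hjid x (fun h => ?_)
    by_contra h0
    exact hx (hZρ x h h0)
  have hsrc : ∀ x ∈ φ.source, j x ∈ φ.source := by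
    intro x hx
    rw [hj]
    simp only
    rw [if_pos hx]
    exact φ.map_target (hmem x hx)
  refine ⟨j, φ.source ∩ (fun x => I (φ x)) ⁻¹' Metric.ball y0 s, ?_, ?_, ?_, ?_, ?_⟩
  · rw [continuous_iff_continuousAt]
    intro x
    by_cases hx : x ∈ φ.source
    · have h1 : ContinuousOn (fun x => φ.symm (I.symm (G (I (φ x))))) φ.source :=
        φ.continuousOn_symm.comp ((I.continuous_symm.comp (hGc.comp I.continuous)).comp_continuousOn φ.continuousOn)
          (fun x hx => hmem x hx)
      have h2 : ContinuousOn j φ.source := by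
        refine h1.congr ?_
        intro x hx
        rw [hj]
        exact if_pos hx
      exact h2.continuousAt (φ.open_source.mem_nhds hx)
    · have hxZ : x ∈ Zᶜ := fun h => hx (hZsub h)
      have h2 : ContinuousOn j Zᶜ := continuous_id.continuousOn.congr (fun x hx => hjZ x hx)
      exact h2.continuousAt (hZcl.isOpen_compl.mem_nhds hxZ)
  · intro x x' h
    by_cases hx : x ∈ φ.source
    · by_cases hx' : x' ∈ φ.source
      · have h1 : φ.symm (I.symm (G (I (φ x)))) = φ.symm (I.symm (G (I (φ x')))) := by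
          rw [hj] at h
          simp only at h
          rw [if_pos hx, if_pos hx'] at h
          exact h
        have h2 := φ.symm.injOn (by rw [φ.symm_source]; exact hmem x hx) (by rw [φ.symm_source]; exact hmem x' hx') h1
        have h3 : G (I (φ x)) = G (I (φ x')) := by
          rw [← I.right_inv (hGR _ (mem_range_self (φ x))), ← I.right_inv (hGR _ (mem_range_self (φ x'))), h2]
        exact φ.injOn hx hx' (I.injective (hGinj h3))
      · exfalso
        apply hx'
        have h1 := hsrc x hx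
        rw [h, hjid x' (fun h => absurd h hx')] at h1
        exact h1
    · by_cases hx' : x' ∈ φ.source
      · exfalso
        apply hx
        have h1 := hsrc x' hx'
        rw [← h, hjid x (fun h => absurd h hx)] at h1
        exact h1
      · rw [hjid x (fun h => absurd h hx), hjid x' (fun h => absurd h hx')] at h
        exact h
  · exact (I.continuous.comp_continuousOn φ.continuousOn).isOpen_inter_preimage φ.open_source Metric.isOpen_ball
  · refine ⟨hwφ, ?_⟩
    show I (φ w) ∈ Metric.ball y0 s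
    rw [← hy0]
    exact Metric.mem_ball_self hs0
  · intro x
    by_cases hx : x ∈ φ.source ∧ ρ (I (φ x)) ≠ 0
    · left
      have h1 : j x = φ.symm (I.symm (G (I (φ x)))) := by
        rw [hj]
        exact if_pos hx.1
      refine eu_of_interior I φ (hsrc x hx.1) ?_
      rw [h1, φ.right_inv (hmem x hx.1), I.right_inv (hGR _ (mem_range_self _))]
      exact hGi _ (mem_range_self _) (lt_of_le_of_ne (hρ0 _) hx.2.symm)
    · right
      push Not at hx
      refine ⟨hjid x hx, fun hxV => ?_⟩
      have h1 := hx hxV.1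
      have h2 : ‖I (φ x) - y0‖ < s := by
        have := hxV.2
        rw [mem_preimage, Metric.mem_ball, dist_eq_norm] at this
        exact this
      exact absurd h1 (hρpos _ h2).ne'

include I in
theorem exists_pushes [FiniteDimensional ℝ E] [T2Space W] [ChartedSpace M W] {K : Set W} (hK : IsCompact K) :
    ∃ J : W → W, Continuous J ∧ Function.Injective J ∧ ∀ x ∈ K, J x ∈ Eu E W := by
  classical
  have h := fun w : W => exists_push I w
  choose j V hj hji hV hwV hjV using h
  obtain ⟨T, hTK, hT⟩ := hK.elim_nhds_subcover V (fun p _ => (hV p).mem_nhds (hwV p))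
  have hind : ∀ S : Finset W, ∃ J : W → W, Continuous J ∧ Function.Injective J ∧
      ∀ x, J x ∈ Eu E W ∨ (J x = x ∧ ∀ p ∈ S, x ∉ V p) := by
    intro S
    induction S using Finset.induction_on with
    | empty => exact ⟨id, continuous_id, Function.injective_id, fun x => Or.inr ⟨rfl, fun p hp => absurd hp (Finset.notMem_empty p)⟩⟩
    | insert p S hp ih =>
      obtain ⟨J, hJ, hJi, hJe⟩ := ih
      refine ⟨fun x => j p (J x), (hj p).comp hJ, (hji p).comp hJi, fun x => ?_⟩
      rcases hjV p (J x) with h1 | ⟨h1, h2⟩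
      · exact Or.inl h1
      · rcases hJe x with h3 | ⟨h3, h4⟩
        · left
          show j p (J x) ∈ Eu E W
          rw [h1]
          exact h3
        · right
          rw [h3] at h1 h2
          refine ⟨by show j p (J x) = x; rw [h3]; exact h1, fun q hq => ?_⟩
          rcases Finset.mem_insert.mp hq with rfl | hq
          · exact h2
          · exact h4 q hq
  obtain ⟨J, hJ, hJi, hJe⟩ := hind T
  refine ⟨J, hJ, hJi, fun x hx => ?_⟩
  rcases hJe x with h1 | ⟨-, h2⟩
  · exact h1
  · exfalso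
    obtain ⟨p, hp⟩ := mem_iUnion.mp (hT hx)
    obtain ⟨hp, hxp⟩ := mem_iUnion.mp hp
    exact h2 p hp hxp

end Pool.Agent.H77RA
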