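import Mathlib
import Pool.Agent.H77RA.S1
import Pool.Agent.H77RA.S3
import Pool.Agent.H77RA.S5

/-!
# Contractible topological manifolds have odd directions near the diagonal
-/

set_option autoImplicit false
set_option linter.unusedSectionVars false

namespace Pool.Agent.H77RA

open scoped Topology
open Set

variable {W : Type} [TopologicalSpace W]

theorem locDir2_of_homotopy {E : Type} [NormedAddCommGroup E] [NormedSpace ℝ E] [FiniteDimensional ℝ E]
    {M : Type} [TopologicalSpace M] (I : ModelWithCorners ℝ E M) [ChartedSpace M W] [T2Space W]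
    [LocallyCompactSpace W] {m : ℕ} (A : E ≃L[ℝ] (Fin m → ℝ)) (g : ℝ × W → W) (hg : Continuous g)
    (hg0 : ∀ w, g (0, w) = w) (x0 : W) (hg1 : ∀ w, g (1, w) = x0) {C K : Set W} (hC : IsCompact C) (hK : IsCompact K)
    (hgK : ∀ t, ∀ w ∈ C, g (t, w) ∈ K) (hx0 : x0 ∈ K) :
    LocDir2 W C m := by
  obtain ⟨J, hJ, hJi, hJK⟩ := exists_pushes I hK
  obtain ⟨Θ, hΘ⟩ := tr_homotopy E hC (fun q : ℝ × W => J (g q)) (hJ.comp hg) (fun t p hp => hJK _ (hgK t p hp)) 0 1
  simp only [hg0, hg1] at hΘ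
  obtain ⟨φ0, hφ0⟩ := hJK x0 hx0
  obtain ⟨F, hF, hd⟩ := exists_mid I I.symm I.continuous I.continuous_symm I.left_inv hC
  obtain ⟨h, hh⟩ : ∃ h : W → W → (Fin m → ℝ), h = fun p x => A (φ0 (Θ p (J x))) := ⟨_, rfl⟩
  obtain ⟨θ0, hθ0⟩ : ∃ θ0 : W → W → (Fin m → ℝ), θ0 = fun x y => h (F (x, y)).1 x - h (F (x, y)).1 y := ⟨_, rfl⟩
  have key : ∀ w ∈ C, ∃ N : Set (W × W), IsOpen N ∧ (w, w) ∈ N ∧ ContinuousOn (fun q : W × W => θ0 q.1 q.2) N ∧
      (∀ q ∈ N, (F q).1 = (F q).2) ∧ ∀ q ∈ N, θ0 q.1 q.2 = 0 → q.1 = q.2 := by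
    intro w hw
    obtain ⟨N1, hN1, hm1, hc1, he1, hi1⟩ := hΘ w hw
    obtain ⟨N1', hN1'⟩ : ∃ N1', N1' = N1 ∩ (fun q : W × W => Θ q.1 q.2) ⁻¹' φ0.source := ⟨_, rfl⟩
    have hN1o : IsOpen N1' := by
      rw [hN1']
      exact hc1.isOpen_inter_preimage hN1 φ0.open_source
    have hjc : Continuous (fun q : W × W => (q.1, J q.2)) := continuous_fst.prodMk (hJ.comp continuous_snd)
    obtain ⟨N2, hN2⟩ : ∃ N2, N2 = (fun q : W × W => (q.1, J q.2)) ⁻¹' N1' := ⟨_, rfl⟩
    have hN2o : IsOpen N2 := by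
      rw [hN2]
      exact hN1o.preimage hjc
    have hm2 : (w, w) ∈ N2 := by
      rw [hN2, hN1']
      refine ⟨hm1, ?_⟩
      show Θ w (J w) ∈ φ0.source
      rw [he1 w hm1]
      exact hφ0
    have hc2 : ContinuousOn (fun q : W × W => h q.1 q.2) N2 := by
      have h1 : ContinuousOn (fun q : W × W => A (φ0 (Θ q.1 q.2))) N1' := by
        refine A.continuous.comp_continuousOn (φ0.continuousOn.comp (hc1.mono ?_) ?_)
        · rw [hN1']; exact inter_subset_left
        · intro q hq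
          rw [hN1'] at hq
          exact hq.2
      rw [hh]
      refine h1.comp hjc.continuousOn ?_
      intro q hq
      rw [hN2] at hq
      exact hq
    have hi2 : ∀ p x y, (p, x) ∈ N2 → (p, y) ∈ N2 → h p x = h p y → x = y := by
      intro p x y hx hy hxy
      rw [hN2, hN1'] at hx hy
      rw [hh] at hxy
      exact hJi (hi1 p _ _ hx.1 hy.1 (φ0.injOn hx.2 hy.2 (A.injective hxy)))
    obtain ⟨N3, hN3, hm3, hc3⟩ := hF.2.2 w
    obtain ⟨N4, hd4, hN4, hm4⟩ := eventually_nhds_iff.mp (hd w hw)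
    have hκ1 : ContinuousOn (fun q : W × W => ((F q).1, q.1)) N3 :=
      (continuous_fst.comp_continuousOn hc3).prodMk continuous_fst.continuousOn
    have hκ2 : ContinuousOn (fun q : W × W => ((F q).1, q.2)) N3 :=
      (continuous_fst.comp_continuousOn hc3).prodMk continuous_snd.continuousOn
    refine ⟨(N3 ∩ (fun q : W × W => ((F q).1, q.1)) ⁻¹' N2) ∩ (N3 ∩ (fun q : W × W => ((F q).1, q.2)) ⁻¹' N2) ∩ N4,
      ((hκ1.isOpen_inter_preimage hN3 hN2o).inter (hκ2.isOpen_inter_preimage hN3 hN2o)).inter hN4, ?_, ?_, ?_, ?_⟩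
    · refine ⟨⟨⟨hm3, ?_⟩, ⟨hm3, ?_⟩⟩, hm4⟩
      · show ((F (w, w)).1, w) ∈ N2
        rw [hF.1]
        exact hm2
      · show ((F (w, w)).1, w) ∈ N2
        rw [hF.1]
        exact hm2
    · rw [hθ0]
      refine ContinuousOn.sub ?_ ?_
      · exact hc2.comp (hκ1.mono (fun q hq => hq.1.1.1)) (fun q hq => hq.1.1.2)
      · exact hc2.comp (hκ2.mono (fun q hq => hq.1.1.1)) (fun q hq => hq.1.2.2)
    · intro q hq
      exact hd4 q hq.2
    · intro q hq h0
      rw [hθ0] at h0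
      exact hi2 (F q).1 _ _ hq.1.1.2 hq.1.2.2 (sub_eq_zero.mp h0)
  choose! N hN hmN hcN hdN hiN using key
  have hodd : ∀ w ∈ C, ∀ q ∈ N w, θ0 q.2 q.1 = -θ0 q.1 q.2 := by
    intro w hw q hq
    rw [hθ0]
    simp only
    have h1 := hdN w hw q hq
    have h2 : F (q.2, q.1) = (F q).swap := hF.2.1 q
    rw [h2, Prod.fst_swap, ← h1, neg_sub]
  refine ⟨fun x y => θ0 x y - θ0 y x, ⋃ w ∈ C, N w, isOpen_biUnion hN, ?_, ?_, ?_, ?_⟩
  · intro w hw
    exact mem_biUnion hw (hmN w hw)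
  · intro q hq
    obtain ⟨w, hw, hqw⟩ := mem_iUnion₂.mp hq
    have h1 : ContinuousOn (fun p : W × W => θ0 p.1 p.2 - θ0 p.2 p.1) (N w) := by
      refine ((hcN w hw).add (hcN w hw)).congr ?_
      intro p hp
      show θ0 p.1 p.2 - θ0 p.2 p.1 = θ0 p.1 p.2 + θ0 p.1 p.2
      rw [hodd w hw p hp, sub_neg_eq_add]
    exact (h1.continuousAt ((hN w hw).mem_nhds hqw)).continuousWithinAt
  · intro x y
    rw [neg_sub]
  · intro q hq h0
    obtain ⟨w, hw, hqw⟩ := mem_iUnion₂.mp hq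
    refine hiN w hw q hqw ?_
    simp only at h0
    rw [hodd w hw q hqw, sub_neg_eq_add, ← two_smul ℝ] at h0
    exact (smul_eq_zero.mp h0).resolve_left two_ne_zero

theorem locDir2_manifold {E : Type} [NormedAddCommGroup E] [NormedSpace ℝ E] [FiniteDimensional ℝ E]
    {M : Type} [TopologicalSpace M] (I : ModelWithCorners ℝ E M) [ChartedSpace M W] [T2Space W] [ContractibleSpace W]
    {C : Set W} (hC : IsCompact C) : LocDir2 W C (Module.finrank ℝ E) := by
  by_cases hCe : C.Nonempty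
  swap
  · rw [not_nonempty_iff_eq_empty] at hCe
    subst hCe
    exact ⟨fun _ _ => 0, ∅, isOpen_empty, fun w hw => absurd hw (notMem_empty w), continuousOn_empty _,
      fun _ _ => neg_zero.symm, fun p hp => absurd hp (notMem_empty p)⟩
  have : ProperSpace E := FiniteDimensional.proper_real E
  have : LocallyCompactSpace W := Manifold.locallyCompact_of_finiteDimensional I
  obtain ⟨x0, ⟨H⟩⟩ := id_nullhomotopic W
  obtain ⟨g, hg⟩ : ∃ g : ℝ × W → W, g = fun q => H (Set.projIcc (0 : ℝ) 1 zero_le_one q.1, q.2) := ⟨_, rfl⟩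
  have hg1 : ∀ w, g (1, w) = x0 := by
    intro w
    rw [hg]
    simp
  have hK : IsCompact (H '' ((univ : Set unitInterval) ×ˢ C)) := (isCompact_univ.prod hC).image H.continuous
  have hgK : ∀ t, ∀ w ∈ C, g (t, w) ∈ H '' ((univ : Set unitInterval) ×ˢ C) := by
    intro t w hw
    rw [hg]
    exact ⟨(Set.projIcc (0 : ℝ) 1 zero_le_one t, w), ⟨mem_univ _, hw⟩, rfl⟩
  refine locDir2_of_homotopy I (ContinuousLinearEquiv.ofFinrankEq (by simp)) g ?_ ?_ x0 hg1 hC hK hgK ?_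
  · rw [hg]
    exact H.continuous.comp ((continuous_projIcc.comp continuous_fst).prodMk continuous_snd)
  · intro w
    rw [hg]
    simp
  · obtain ⟨w, hw⟩ := hCe
    have h1 := hgK 1 w hw
    rwa [hg1 w] at h1

end Pool.Agent.H77RA
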