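import Pool.Agent.H77RA.B2
import Pool.Agent.H77RA.D2
import Pool.Agent.H77RA.S4
import Pool.Agent.R782.Bal.Emb

/-!
# The `L²`-Betti numbers of a right-angled Artin group above the middle dimension of a contractible manifold
-/

set_option autoImplicit false
set_option linter.unusedSectionVars false

namespace Pool.Agent.H77RA

open Finset Pool.Agent.W326.DU Pool.Agent.W555.KS Pool.Agent.Y131.KS Pool.Agent.R782.Bal
open scoped Manifold ContDiff

/-- from the vanishing of the obstruction to the vanishing of the `L²`-Betti number -/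
theorem betti_of_vk {V : Type} [Fintype V] (G : SimpleGraph V) {N k : ℕ} (hk : N < 2 * k)
    (h : ∀ e : V × Bool ≃ Fin (Fintype.card (V × Bool)), VK2 (clF (OG G) e) (N + 1)) :
    N496.CV.HasL2Betti (RAAG G.Adj) k 0 := by
  classical
  obtain ⟨o⟩ : Nonempty (LinearOrder V) := ⟨LinearOrder.lift' (Fintype.equivFin V) (Fintype.equivFin V).injective⟩
  obtain ⟨j, rfl⟩ : ∃ j, k = j + 1 := ⟨k - 1, by omega⟩
  obtain ⟨e⟩ : Nonempty (V × Bool ≃ Fin (Fintype.card (V × Bool))) := ⟨Fintype.equivFin _⟩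
  have hcx := clF_cx (OG G) e
  have h1 : VK2 (clF (OG G) e) (2 * j + 2) := vk2_le hcx (by omega) (h e)
  have h2 := exact_of_pairing G j (fun z φ hz1 hz2 hφ => pairing_zero e j h1 hz1 hz2 hφ)
  obtain ⟨H, H', hH⟩ := split_of_exact (bM G (ZMod 2) j) (bM G (ZMod 2) (j + 1)) h2
  rw [← bM_map G (Int.castRingHom (ZMod 2)), ← bM_map G (Int.castRingHom (ZMod 2))] at hH
  obtain ⟨K, K', hK⟩ := det_lift _ _ _ _ hH
  have h3 := rank_crit G j K K' hK
  rw [← h3]
  exact N496.CV.hasL2Betti (RAAG G.Adj) (j + 1)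

theorem main3 {V : Type} [Fintype V] (G : SimpleGraph V) {E : Type} [NormedAddCommGroup E] [NormedSpace ℝ E]
    [FiniteDimensional ℝ E] {HH : Type} [TopologicalSpace HH] (I : ModelWithCorners ℝ E HH) {W : Type}
    [TopologicalSpace W] [T2Space W] [ChartedSpace HH W] [ContractibleSpace W]
    [MulAction (RAAG G.Adj) W] [ContinuousConstSMul (RAAG G.Adj) W] [ProperlyDiscontinuousSMul (RAAG G.Adj) W]
    {k : ℕ} (hk : Module.finrank ℝ E < 2 * k) : N496.CV.HasL2Betti (RAAG G.Adj) k 0 := by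
  classical
  refine betti_of_vk G hk (fun e => ?_)
  obtain ⟨f1, hc, hne⟩ := exists_f1 (W := W) G e
  have hcx := clF_cx (OG G) e
  rw [dJoin_eq hcx] at hne
  exact vk2_of_locDir2 hcx f1 hc hne (fun C hC => locDir2_manifold I hC)

end Pool.Agent.H77RA
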