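import Pool.Agent.H77RA.A1
import Pool.Agent.Q18.HC.BB1
import Pool.Agent.W326.DU.Aug
import Pool.Agent.Helper970.V7.Defs

/-!
# The free resolution of a right-angled Artin group
-/

set_option autoImplicit false
set_option linter.unusedSectionVars false

namespace Pool.Agent.H77RA

open Finset Pool.Agent.W326.DU Pool.Agent.Q18.HC.BB

section

variable {V : Type} [Fintype V] [LinearOrder V] (G : SimpleGraph V)

/-- the cliques with `n` vertices -/
abbrev XC (n : ℕ) : Type := {T : Finset V // G.IsClique (T : Set V) ∧ T.card = n}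

noncomputable instance (n : ℕ) : Fintype (XC G n) := Fintype.ofFinite _

/-- numbering -/
noncomputable def ee (n : ℕ) : XC G n ≃ Fin (Fintype.card (XC G n)) := Fintype.equivFin _

/-- incidence coefficients, with a function of the added vertex -/
def inc {A : Type} [AddCommGroup A] (f : V → A) {n : ℕ} (σ : XC G (n + 1)) (τ : XC G n) : A :=
  ∑ v, if v ∉ τ.1 ∧ insert v τ.1 = σ.1 then sgn v τ.1 • f v else 0

/-- the function on all finite sets -/
noncomputable def toC {A : Type} [AddCommGroup A] (n : ℕ) (w : Fin (Fintype.card (XC G n)) → A) (T : Finset V) : A :=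
  open Classical in if h : G.IsClique (T : Set V) ∧ T.card = n then w (ee G n ⟨T, h⟩) else 0

/-- restriction -/
noncomputable def frC {A : Type} (n : ℕ) (z : Finset V → A) (i : Fin (Fintype.card (XC G n))) : A :=
  z ((ee G n).symm i).1

theorem frC_toC {A : Type} [AddCommGroup A] (n : ℕ) (w : Fin (Fintype.card (XC G n)) → A) :
    frC G n (toC G n w) = w := by
  funext i
  unfold frC toC
  rw [dif_pos ((ee G n).symm i).2]
  simp

theorem frC_zero {A : Type} [AddCommGroup A] (n : ℕ) : frC G n (0 : Finset V → A) = 0 := rfl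

theorem toC_frC {A : Type} [AddCommGroup A] (n : ℕ) {z : Finset V → A} (hz : Sup G univ n z) :
    toC G n (frC G n z) = z := by
  funext T
  unfold frC toC
  by_cases h : G.IsClique (T : Set V) ∧ T.card = n
  · rw [dif_pos h]
    simp
  · rw [dif_neg h]
    by_contra h1
    exact h (hz T (Ne.symm h1)).2

theorem toC_sup {A : Type} [AddCommGroup A] (n : ℕ) (w : Fin (Fintype.card (XC G n)) → A) :
    Sup G univ n (toC G n w) := by
  intro T hT
  refine ⟨subset_univ _, ?_⟩
  by_contra h
  apply hT
  unfold toC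
  rw [dif_neg h]

/-- the matrix of the differential -/
noncomputable def dMat {A : Type} [AddCommGroup A] (f : V → A) (n : ℕ) :
    Matrix (Fin (Fintype.card (XC G (n + 1)))) (Fin (Fintype.card (XC G n))) A :=
  fun i j => inc G f ((ee G (n + 1)).symm i) ((ee G n).symm j)

theorem vecMul_dMat {A : Type} [Ring A] (f : V → A) (n : ℕ) (w : Fin (Fintype.card (XC G (n + 1))) → A) :
    Matrix.vecMul w (dMat G f n) = frC G n (bdR (fun v => AddMonoidHom.mulRight (f v)) (toC G (n + 1) w)) := by
  classical
  funext j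
  unfold frC
  set τ := (ee G n).symm j with hτ
  have h1 : Matrix.vecMul w (dMat G f n) j = ∑ σ : XC G (n + 1), w (ee G (n + 1) σ) * inc G f σ τ := by
    unfold Matrix.vecMul dotProduct
    rw [← Equiv.sum_comp (ee G (n + 1))]
    refine sum_congr rfl fun σ _ => ?_
    change _ * inc G f ((ee G (n + 1)).symm (ee G (n + 1) σ)) _ = _
    rw [Equiv.symm_apply_apply]
  rw [h1]
  unfold inc bdR
  have h2 : ∀ σ : XC G (n + 1), w (ee G (n + 1) σ) *
      (∑ v, if v ∉ τ.1 ∧ insert v τ.1 = σ.1 then sgn v τ.1 • f v else 0) =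
      ∑ v, if v ∉ τ.1 ∧ insert v τ.1 = σ.1 then sgn v τ.1 • (toC G (n + 1) w (insert v τ.1) * f v) else 0 := by
    intro σ
    rw [mul_sum]
    refine sum_congr rfl fun v _ => ?_
    split_ifs with h
    · have h3 : toC G (n + 1) w (insert v τ.1) = w (ee G (n + 1) σ) := by
        unfold toC
        have h4 : G.IsClique ((insert v τ.1 : Finset V) : Set V) ∧ (insert v τ.1).card = n + 1 := by
          rw [h.2]; exact σ.2
        rw [dif_pos h4]
        congr 2
        exact Subtype.ext h.2
      rw [h3, mul_smul_comm]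
    · rw [mul_zero]
  rw [sum_congr rfl fun σ _ => h2 σ, sum_comm]
  have h3 : ∀ v, (∑ σ : XC G (n + 1), if v ∉ τ.1 ∧ insert v τ.1 = σ.1 then
      sgn v τ.1 • (toC G (n + 1) w (insert v τ.1) * f v) else 0) =
      if v ∉ τ.1 then sgn v τ.1 • (toC G (n + 1) w (insert v τ.1) * f v) else 0 := by
    intro v
    by_cases hv : v ∉ τ.1
    · rw [if_pos hv]
      by_cases hc : G.IsClique ((insert v τ.1 : Finset V) : Set V)
      · have hcard : (insert v τ.1).card = n + 1 := by
          rw [card_insert_of_notMem hv, τ.2.2]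
        rw [sum_eq_single ⟨insert v τ.1, hc, hcard⟩]
        · rw [if_pos ⟨hv, rfl⟩]
        · intro σ _ hσ
          rw [if_neg]
          rintro ⟨_, h⟩
          exact hσ (Subtype.ext h.symm)
        · intro h; exact absurd (mem_univ _) h
      · have h4 : toC G (n + 1) w (insert v τ.1) = 0 := by
          unfold toC
          rw [dif_neg (fun h => hc h.1)]
        rw [h4, zero_mul, smul_zero]
        refine sum_eq_zero fun σ _ => ?_
        split_ifs <;> rfl
    · rw [if_neg hv]
      refine sum_eq_zero fun σ _ => ?_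
      rw [if_neg (fun h => hv h.1)]
  rw [sum_congr rfl fun v _ => h3 v, ← sum_filter]
  have h4 : univ.filter (fun v => v ∉ τ.1) = τ.1ᶜ := by ext; simp
  rw [h4]
  rfl

theorem bdR_sup {A : Type} [AddCommGroup A] {R : V → A →+ A} {n : ℕ} {z : Finset V → A}
    (hz : Sup G univ (n + 1) z) : Sup G univ n (bdR R z) := by
  intro T hT
  unfold bdR at hT
  obtain ⟨u, hu, hu'⟩ := exists_ne_zero_of_sum_ne_zero hT
  have h1 : z (insert u T) ≠ 0 := by
    intro h
    apply hu'
    rw [h, map_zero, smul_zero]
  obtain ⟨_, h2, h3⟩ := hz _ h1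
  rw [card_insert_of_notMem (mem_compl.mp hu)] at h3
  exact ⟨subset_univ _, h2.subset (by simp), by omega⟩

theorem frC_inj {A : Type} [AddCommGroup A] {n : ℕ} {z z' : Finset V → A} (hz : Sup G univ n z)
    (hz' : Sup G univ n z') (h : frC G n z = frC G n z') : z = z' := by
  rw [← toC_frC G n hz, h, toC_frC G n hz']

theorem augm_mul {K : Type} [Group K] (a b : ZG K) : augm K (a * b) = augm K a * augm K b :=
  map_mul (MonoidAlgebra.lift ℤ ℤ K (1 : K →* ℤ)).toRingHom a b

theorem augm_of {K : Type} [Group K] (g : K) : augm K (MonoidAlgebra.of ℤ K g) = 1 := by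
  simp [augm]

theorem augm_one' {K : Type} [Group K] : augm K 1 = 1 := by
  rw [← map_one (MonoidAlgebra.of ℤ K)]
  exact augm_of 1

theorem augm_Rr (u : V) (x : ZG (RAAG G.Adj)) : augm (RAAG G.Adj) (Rr G.Adj u x) = 0 := by
  have h1 : Rr G.Adj u x = x * (MonoidAlgebra.of ℤ (RAAG G.Adj) (gen G.Adj u) - 1) := rfl
  rw [h1, augm_mul, map_sub, augm_of, augm_one', sub_self, mul_zero]

theorem card_XC_zero : Fintype.card (XC G 0) = 1 := by
  rw [Fintype.card_eq_one_iff]
  refine ⟨⟨∅, by simp, rfl⟩, ?_⟩
  rintro ⟨T, hT, hT'⟩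
  exact Subtype.ext (card_eq_zero.mp hT')

/-- the vertex without coordinates -/
def emp : XC G 0 := ⟨∅, by simp, rfl⟩

theorem XC0_eq (σ : XC G 0) : σ = emp G := Subtype.ext (card_eq_zero.mp σ.2.2)

/-- the free resolution -/
noncomputable def raagRes : V7N.FreeRes (RAAG G.Adj) where
  r n := Fintype.card (XC G n)
  d n := dMat G (fun v => MonoidAlgebra.of ℤ (RAAG G.Adj) (gen G.Adj v) - 1) n
  ε := (augm (RAAG G.Adj)).comp (Pi.evalAddMonoidHom _ (ee G 0 (emp G)))
  ε_smul g v := by
    change augm _ (MonoidAlgebra.single g (1 : ℤ) * v _) = augm _ (v _)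
    rw [augm_mul]
    have : augm (RAAG G.Adj) (MonoidAlgebra.single g (1 : ℤ)) = 1 := augm_of g
    rw [this, one_mul]
  ε_surj m := by
    refine ⟨fun _ => m • (1 : ZG (RAAG G.Adj)), ?_⟩
    change augm _ (m • (1 : ZG (RAAG G.Adj))) = m
    rw [map_zsmul]
    rw [augm_one']
    simp
  exact_zero v := by
    classical
    have hsym : ∀ a b, G.Adj a b → G.Adj b a := fun a b h => h.symm
    have hirr : ∀ a, ¬ G.Adj a a := fun a h => G.loopless.irrefl a h
    set x := v (ee G 0 (emp G)) with hx
    have hvx : ∀ w : Fin (Fintype.card (XC G 0)) → ZG (RAAG G.Adj), v = w ↔ x = w (ee G 0 (emp G)) := by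
      intro w
      constructor
      · intro h; rw [hx, h]
      · intro h
        funext i
        have hi : i = ee G 0 (emp G) := by
          rw [← XC0_eq G ((ee G 0).symm i), Equiv.apply_symm_apply]
        rw [hi]; exact h
    have hval : ∀ w : Fin (Fintype.card (XC G 1)) → ZG (RAAG G.Adj),
        Matrix.vecMul w (dMat G (fun v => MonoidAlgebra.of ℤ (RAAG G.Adj) (gen G.Adj v) - 1) 0)
          (ee G 0 (emp G)) = ∑ u, Rr G.Adj u (toC G 1 w {u}) := by
      intro w
      rw [vecMul_dMat]
      unfold frC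
      rw [Equiv.symm_apply_apply]
      unfold bdR emp
      have h5 : (∅ᶜ : Finset V) = univ := by simp
      simp only [h5]
      refine sum_congr rfl fun u _ => ?_
      have h6 : sgn u (∅ : Finset V) = 1 := by simp [sgn]
      rw [h6, one_smul]
      rfl
    change augm _ x = 0 ↔ _
    constructor
    · intro h
      have h1 := aug_th (RAAG G.Adj) (Set.range (gen G.Adj)) (PresentedGroup.closure_range_of (rels G.Adj)) x h
      rw [← Set.image_univ, ← mem_Im] at h1
      obtain ⟨y, _, hy⟩ := Pool.Agent.W304.DU.mem_Im _ _ _ h1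
      refine ⟨frC G 1 (fun T => ∑ u, if T = {u} then y u else 0), ?_⟩
      rw [hvx, hval, hy]
      refine sum_congr rfl fun u _ => ?_
      rw [toC_frC]
      · congr 1
        symm
        rw [sum_eq_single u]
        · exact if_pos rfl
        · intro w _ hwu
          rw [if_neg]
          intro h7
          exact hwu (singleton_injective h7).symm
        · intro h; exact absurd (mem_univ _) h
      · intro T hT
        obtain ⟨w, _, hw⟩ := exists_ne_zero_of_sum_ne_zero hT
        split_ifs at hw with h4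
        · rw [h4]
          exact ⟨subset_univ _, by simp, card_singleton _⟩
        · exact absurd rfl hw
    · rintro ⟨w, hw⟩
      rw [hvx, hval] at hw
      rw [hw, map_sum]
      exact sum_eq_zero fun u _ => augm_Rr G u _
  exact_succ n v := by
    classical
    have hsym : ∀ a b, G.Adj a b → G.Adj b a := fun a b h => h.symm
    have hirr : ∀ a, ¬ G.Adj a a := fun a h => G.loopless.irrefl a h
    have hR := reg G.Adj hsym hirr
    rw [vecMul_dMat]
    have e1 : (fun v => AddMonoidHom.mulRight (MonoidAlgebra.of ℤ (RAAG G.Adj) (gen G.Adj v) - 1)) = Rr G.Adj := rfl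
    rw [e1]
    constructor
    · intro h
      have h1 : bdR (Rr G.Adj) (toC G (n + 1) v) = 0 := by
        refine frC_inj G (bdR_sup G (toC_sup G (n + 1) v)) (fun T hT => absurd rfl hT) ?_
        rw [h, frC_zero]
      obtain ⟨w, hw, hbw⟩ := exact hR univ (n + 1) _ (by omega) (toC_sup G (n + 1) v) h1
      refine ⟨frC G (n + 2) w, ?_⟩
      rw [vecMul_dMat, e1, toC_frC G (n + 2) hw, hbw, frC_toC]
    · rintro ⟨w, rfl⟩
      rw [vecMul_dMat, e1, toC_frC G (n + 1) (bdR_sup G (toC_sup G (n + 2) w)),
        bdR_bdR hR.comm (fun T hT => (toC_sup G (n + 2) w T hT).2.1), frC_zero]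

end

end Pool.Agent.H77RA
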