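import Mathlib

/-!
# The function `g` of a cocycle (combinatorial part)
-/

set_option autoImplicit false
set_option linter.unusedSectionVars false

namespace Pool.Agent.H77RA

open Finset

theorem z2 (a : ZMod 2) : a + a = 0 := CharTwo.add_self_eq_zero a

section pattern

variable {V : Type*} [LinearOrder V]

/-- indicator of a proposition with values in the field with two elements -/
noncomputable def ind (p : Prop) : ZMod 2 := open Classical in if p then 1 else 0

theorem ind_pos {p : Prop} (h : p) : ind p = 1 := if_pos h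
theorem ind_neg {p : Prop} (h : ¬ p) : ind p = 0 := if_neg h
theorem ind_congr {p q : Prop} (h : p ↔ q) : ind p = ind q := by rw [propext h]

/-- number of switches of a sequence of truth values -/
theorem pattern (A : Finset V) (b : V → Prop) :
    ∑ v ∈ A, ind ((∀ j ∈ A, j < v → b j) ∧ (∀ j ∈ A, v < j → ¬ b j)) =
      ind (∀ j ∈ A, b j) + ind (∀ j ∈ A, ¬ b j) := by
  classical
  induction A using Finset.induction_on_max with
  | empty =>
    rw [sum_empty, ind_pos (by simp), ind_pos (by simp)]
    exact (z2 1).symm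
  | insert w A hw ih =>
    have hwA : w ∉ A := fun h => lt_irrefl _ (hw w h)
    rw [sum_insert hwA]
    have h1 : ind ((∀ j ∈ insert w A, j < w → b j) ∧ (∀ j ∈ insert w A, w < j → ¬ b j)) =
        ind (∀ j ∈ A, b j) := by
      apply ind_congr
      constructor
      · intro h j hj
        exact h.1 j (mem_insert_of_mem hj) (hw j hj)
      · intro h
        refine ⟨fun j hj hjw => ?_, fun j hj hjw => ?_⟩
        · rcases mem_insert.mp hj with h2 | h2
          · exact absurd hjw (by rw [h2]; exact lt_irrefl _)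
          · exact h j h2
        · rcases mem_insert.mp hj with h2 | h2
          · exact absurd hjw (by rw [h2]; exact lt_irrefl _)
          · exact absurd hjw (not_lt.mpr (hw j h2).le)
    have h2 : ∀ v ∈ A, ind ((∀ j ∈ insert w A, j < v → b j) ∧ (∀ j ∈ insert w A, v < j → ¬ b j)) =
        ind (¬ b w) * ind ((∀ j ∈ A, j < v → b j) ∧ (∀ j ∈ A, v < j → ¬ b j)) := by
      intro v hv
      by_cases hb : b w
      · rw [ind_neg (p := ¬ b w) (by simpa using hb), zero_mul, ind_neg]
        intro h
        exact h.2 w (mem_insert_self _ _) (hw v hv) hb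
      · rw [ind_pos (p := ¬ b w) hb, one_mul]
        apply ind_congr
        constructor
        · intro h
          exact ⟨fun j hj => h.1 j (mem_insert_of_mem hj), fun j hj => h.2 j (mem_insert_of_mem hj)⟩
        · intro h
          refine ⟨fun j hj hjv => ?_, fun j hj hjv => ?_⟩
          · rcases mem_insert.mp hj with h3 | h3
            · rw [h3] at hjv
              exact absurd (hw v hv) (not_lt.mpr hjv.le)
            · exact h.1 j h3 hjv
          · rcases mem_insert.mp hj with h3 | h3
            · rw [h3]; exact hb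
            · exact h.2 j h3 hjv
    rw [h1, sum_congr rfl h2, ← mul_sum, ih]
    by_cases hb : b w
    · rw [ind_neg (p := ¬ b w) (by simpa using hb), zero_mul, add_zero]
      rw [ind_neg (p := ∀ j ∈ insert w A, ¬ b j) (fun h => h w (mem_insert_self _ _) hb), add_zero]
      apply ind_congr
      simp [hb]
    · rw [ind_pos (p := ¬ b w) hb, one_mul, ← add_assoc, z2, zero_add]
      rw [ind_neg (p := ∀ j ∈ insert w A, b j) (fun h => hb (h w (mem_insert_self _ _))), zero_add]
      apply ind_congr
      simp [hb]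

end pattern

section g

variable {V : Type*} [Fintype V] [LinearOrder V]

/-- the number of elements of `T` above `j` -/
def mm (j : V) (T : Finset V) : ℕ := (T.filter (fun i => j < i)).card

theorem mm_insert {j v : V} {T : Finset V} (hv : v ∉ T) :
    mm j (insert v T) = mm j T + (if j < v then 1 else 0) := by
  unfold mm
  rw [filter_insert]
  split_ifs with h
  · rw [card_insert_of_notMem (fun h2 => hv (mem_filter.mp h2).1)]
  · rfl

/-- the condition in the definition of `gg` -/
def Cnd (P Q T : Finset V) : Prop :=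
  T ⊆ P ∪ Q ∧ (∀ j ∈ P, j ∉ T → Even (mm j T)) ∧ (∀ j ∈ Q, j ∉ T → ¬ Even (mm j T))

/-- the function `g` of a cochain -/
noncomputable def gg (k : ℕ) (φ : Finset V → ZMod 2) (P Q : Finset V) : ZMod 2 :=
  ∑ T ∈ powersetCard (k + 1) univ, φ T * ind (Cnd P Q T)

theorem gg_rec (k : ℕ) (φ : Finset V → ZMod 2) {P Q : Finset V} {v : V} (hP : v ∉ P) (hQ : v ∉ Q) :
    gg k φ P (insert v Q) + gg k φ (insert v P) Q + gg k φ P Q = 0 := by
  unfold gg
  rw [← sum_add_distrib, ← sum_add_distrib]
  refine sum_eq_zero fun T _ => ?_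
  rw [← mul_add, ← mul_add]
  convert mul_zero _
  by_cases hv : v ∈ T
  · rw [ind_neg (p := Cnd P Q T), add_zero]
    · rw [ind_congr (p := Cnd P (insert v Q) T) (q := Cnd (insert v P) Q T)]
      · exact z2 _
      · unfold Cnd
        rw [union_insert, insert_union]
        refine and_congr Iff.rfl ?_
        simp only [mem_insert, forall_eq_or_imp, hv, not_true_eq_false, false_implies, true_and]
    · intro h
      rcases mem_union.mp (h.1 hv) with h1 | h1
      · exact hP h1
      · exact hQ h1
  · have hs : T ⊆ insert v (P ∪ Q) ↔ T ⊆ P ∪ Q := by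
      constructor
      · intro h x hx
        rcases mem_insert.mp (h hx) with h1 | h1
        · rw [h1] at hx; exact absurd hx hv
        · exact h1
      · intro h
        exact h.trans (subset_insert _ _)
    have e1 : Cnd P (insert v Q) T ↔ Cnd P Q T ∧ ¬ Even (mm v T) := by
      unfold Cnd
      rw [union_insert, hs]
      simp only [mem_insert, forall_eq_or_imp, hv, not_false_eq_true, true_implies]
      tauto
    have e2 : Cnd (insert v P) Q T ↔ Cnd P Q T ∧ Even (mm v T) := by
      unfold Cnd
      rw [insert_union, hs]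
      simp only [mem_insert, forall_eq_or_imp, hv, not_false_eq_true, true_implies]
      tauto
    rw [ind_congr e1, ind_congr e2]
    by_cases h : Cnd P Q T
    · by_cases h' : Even (mm v T)
      · rw [ind_neg (p := Cnd P Q T ∧ ¬ Even (mm v T)) (by tauto),
          ind_pos (p := Cnd P Q T ∧ Even (mm v T)) ⟨h, h'⟩, ind_pos h, zero_add]
        exact z2 1
      · rw [ind_pos (p := Cnd P Q T ∧ ¬ Even (mm v T)) ⟨h, h'⟩,
          ind_neg (p := Cnd P Q T ∧ Even (mm v T)) (by tauto), ind_pos h, add_zero]
        exact z2 1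
    · rw [ind_neg (p := Cnd P Q T ∧ ¬ Even (mm v T)) (by tauto),
        ind_neg (p := Cnd P Q T ∧ Even (mm v T)) (by tauto), ind_neg h]
      simp

/-- exchange of summations -/
theorem sum_exch {A : Type*} [AddCommMonoid A] (k : ℕ) (f : Finset V → V → A) :
    ∑ R ∈ powersetCard (k + 1) (univ : Finset V), ∑ v ∈ R, f (R.erase v) v =
      ∑ T ∈ powersetCard k (univ : Finset V), ∑ v ∈ Tᶜ, f T v := by
  rw [sum_sigma', sum_sigma']
  refine sum_nbij' (fun x => ⟨x.1.erase x.2, x.2⟩) (fun x => ⟨insert x.2 x.1, x.2⟩) ?_ ?_ ?_ ?_ ?_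
  · rintro ⟨R, v⟩ h
    simp only [mem_sigma, mem_powersetCard_univ, mem_compl] at h ⊢
    refine ⟨?_, notMem_erase v R⟩
    rw [card_erase_of_mem h.2, h.1]
    rfl
  · rintro ⟨T, v⟩ h
    simp only [mem_sigma, mem_powersetCard_univ, mem_compl] at h ⊢
    refine ⟨?_, mem_insert_self v T⟩
    rw [card_insert_of_notMem h.2, h.1]
  · rintro ⟨R, v⟩ h
    simp only [mem_sigma, mem_powersetCard_univ, mem_compl] at h ⊢
    rw [insert_erase h.2]
  · rintro ⟨T, v⟩ h
    simp only [mem_sigma, mem_powersetCard_univ, mem_compl] at h ⊢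
    rw [erase_insert h.2]
  · rintro ⟨R, v⟩ h
    rfl

/-- symmetry of `g` for a cocycle -/
theorem gg_symm (k : ℕ) (φ : Finset V → ZMod 2) {P Q : Finset V} (hd : Disjoint P Q)
    (hφ : ∀ R : Finset V, R.card = k + 2 → R ⊆ P ∪ Q → ∑ v ∈ R, φ (R.erase v) = 0) :
    gg k φ P Q = gg k φ Q P := by
  have key : gg k φ P Q + gg k φ Q P = 0 := by
    have h1 : ∑ R ∈ powersetCard (k + 2) (univ : Finset V),
        (∑ v ∈ R, φ (R.erase v)) * ind (R ⊆ P ∪ Q ∧ ∀ j ∈ P ∪ Q, j ∉ R → (Even (mm j R) ↔ j ∈ Q)) = 0 := by
      refine sum_eq_zero fun R hR => ?_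
      rw [mem_powersetCard_univ] at hR
      by_cases h : R ⊆ P ∪ Q
      · rw [hφ R hR h, zero_mul]
      · rw [ind_neg (fun h' => h h'.1), mul_zero]
    rw [← h1]
    have h2 : ∀ R ∈ powersetCard (k + 2) (univ : Finset V),
        (∑ v ∈ R, φ (R.erase v)) * ind (R ⊆ P ∪ Q ∧ ∀ j ∈ P ∪ Q, j ∉ R → (Even (mm j R) ↔ j ∈ Q)) =
        ∑ v ∈ R, φ (R.erase v) * ind (insert v (R.erase v) ⊆ P ∪ Q ∧ ∀ j ∈ P ∪ Q, j ∉ insert v (R.erase v) →
          (Even (mm j (insert v (R.erase v))) ↔ j ∈ Q)) := by
      intro R _
      rw [sum_mul]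
      refine sum_congr rfl fun v hv => ?_
      rw [insert_erase hv]
    rw [sum_congr rfl h2, sum_exch (k + 1) (fun T v => φ T * ind (insert v T ⊆ P ∪ Q ∧ ∀ j ∈ P ∪ Q,
      j ∉ insert v T → (Even (mm j (insert v T)) ↔ j ∈ Q)))]
    unfold gg
    rw [← sum_add_distrib]
    refine sum_congr rfl fun T _ => ?_
    rw [← mul_add, ← mul_sum]
    congr 1
    by_cases hT : T ⊆ P ∪ Q
    · have h3 := pattern ((P ∪ Q) \ T) (fun j => Even (mm j T) ↔ j ∈ P)
      have e1 : ind (∀ j ∈ (P ∪ Q) \ T, (Even (mm j T) ↔ j ∈ P)) = ind (Cnd P Q T) := by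
        apply ind_congr
        unfold Cnd
        constructor
        · intro h
          refine ⟨hT, fun j hj hjT => ?_, fun j hj hjT => ?_⟩
          · exact (h j (mem_sdiff.mpr ⟨mem_union_left _ hj, hjT⟩)).mpr hj
          · rw [h j (mem_sdiff.mpr ⟨mem_union_right _ hj, hjT⟩)]
            exact fun h' => disjoint_left.mp hd h' hj
        · rintro ⟨_, h4, h5⟩ j hj
          obtain ⟨hj1, hj2⟩ := mem_sdiff.mp hj
          rcases mem_union.mp hj1 with h6 | h6
          · exact ⟨fun _ => h6, fun _ => h4 j h6 hj2⟩
          · exact ⟨fun h7 => absurd h7 (h5 j h6 hj2), fun h7 => absurd h6 (disjoint_left.mp hd h7)⟩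
      have e2 : ind (∀ j ∈ (P ∪ Q) \ T, ¬ (Even (mm j T) ↔ j ∈ P)) = ind (Cnd Q P T) := by
        apply ind_congr
        unfold Cnd
        constructor
        · intro h
          refine ⟨by rw [union_comm]; exact hT, fun j hj hjT => ?_, fun j hj hjT => ?_⟩
          · have h4 := h j (mem_sdiff.mpr ⟨mem_union_right _ hj, hjT⟩)
            have h5 : j ∉ P := fun h' => disjoint_left.mp hd h' hj
            tauto
          · have h4 := h j (mem_sdiff.mpr ⟨mem_union_left _ hj, hjT⟩)
            tauto
        · rintro ⟨_, h4, h5⟩ j hj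
          obtain ⟨hj1, hj2⟩ := mem_sdiff.mp hj
          rcases mem_union.mp hj1 with h6 | h6
          · have := h5 j h6 hj2
            tauto
          · have h7 := h4 j h6 hj2
            have h8 : j ∉ P := fun h' => disjoint_left.mp hd h' h6
            tauto
      rw [e1, e2] at h3
      rw [← h3]
      have hsub : (P ∪ Q) \ T ⊆ Tᶜ := fun x hx => mem_compl.mpr (mem_sdiff.mp hx).2
      rw [← sum_subset hsub (f := fun v => ind (insert v T ⊆ P ∪ Q ∧ ∀ j ∈ P ∪ Q,
        j ∉ insert v T → (Even (mm j (insert v T)) ↔ j ∈ Q)))]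
      · refine sum_congr rfl fun v hv => ?_
        obtain ⟨hv1, hv2⟩ := mem_sdiff.mp hv
        apply ind_congr
        constructor
        · rintro ⟨h4, h5⟩
          refine ⟨insert_subset hv1 hT, fun j hj hjR => ?_⟩
          rw [mem_insert, not_or] at hjR
          have hjm : j ∈ (P ∪ Q) \ T := mem_sdiff.mpr ⟨hj, hjR.2⟩
          rw [mm_insert hv2]
          have hPQ : j ∈ Q ↔ j ∉ P := by
            constructor
            · intro h6 h7; exact disjoint_left.mp hd h7 h6
            · intro h6
              rcases mem_union.mp hj with h7 | h7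
              · exact absurd h7 h6
              · exact h7
          rcases lt_or_gt_of_ne hjR.1 with h6 | h6
          · have h7 := h4 j hjm h6
            rw [if_pos h6, Nat.even_add_one, hPQ]
            tauto
          · have h7 := h5 j hjm h6
            rw [if_neg (not_lt.mpr h6.le), add_zero, hPQ]
            tauto
        · rintro ⟨_, h4⟩
          refine ⟨fun j hj hjv => ?_, fun j hj hjv => ?_⟩
          · obtain ⟨hj1, hj2⟩ := mem_sdiff.mp hj
            have h5 := h4 j hj1 (by rw [mem_insert, not_or]; exact ⟨hjv.ne, hj2⟩)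
            have hPQ : j ∈ Q ↔ j ∉ P := by
              constructor
              · intro h6 h7; exact disjoint_left.mp hd h7 h6
              · intro h6
                rcases mem_union.mp hj1 with h7 | h7
                · exact absurd h7 h6
                · exact h7
            rw [mm_insert hv2, if_pos hjv, Nat.even_add_one, hPQ] at h5
            tauto
          · obtain ⟨hj1, hj2⟩ := mem_sdiff.mp hj
            have h5 := h4 j hj1 (by rw [mem_insert, not_or]; exact ⟨hjv.ne', hj2⟩)
            have hPQ : j ∈ Q ↔ j ∉ P := by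
              constructor
              · intro h6 h7; exact disjoint_left.mp hd h7 h6
              · intro h6
                rcases mem_union.mp hj1 with h7 | h7
                · exact absurd h7 h6
                · exact h7
            rw [mm_insert hv2, if_neg (not_lt.mpr hjv.le), add_zero, hPQ] at h5
            tauto
      · intro v hv1 hv2
        apply ind_neg
        rintro ⟨h4, _⟩
        exact hv2 (mem_sdiff.mpr ⟨h4 (mem_insert_self _ _), mem_compl.mp hv1⟩)
    · rw [ind_neg (fun h : Cnd P Q T => hT h.1),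
        ind_neg (fun h : Cnd Q P T => hT (by rw [union_comm]; exact h.1)), add_zero]
      symm
      refine sum_eq_zero fun v _ => ind_neg ?_
      rintro ⟨h4, _⟩
      exact hT ((subset_insert _ _).trans h4)
  rw [← sub_eq_zero, CharTwo.sub_eq_add, key]

/-- value on pairs with union of size `k + 1` -/
theorem gg_top (k : ℕ) (φ : Finset V → ZMod 2) {P Q : Finset V} (hc : (P ∪ Q).card = k + 1) :
    gg k φ P Q = φ (P ∪ Q) := by
  unfold gg
  rw [sum_eq_single (P ∪ Q)]
  · rw [ind_pos, mul_one]
    refine ⟨Subset.refl _, fun j hj hj' => ?_, fun j hj hj' => ?_⟩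
    · exact absurd (mem_union_left _ hj) hj'
    · exact absurd (mem_union_right _ hj) hj'
  · intro T hT hne
    rw [mem_powersetCard_univ] at hT
    rw [ind_neg, mul_zero]
    intro h
    exact hne (eq_of_subset_of_card_le h.1 (by rw [hc, hT]))
  · intro h
    exact absurd (mem_powersetCard_univ.mpr hc) h

theorem gg_low (k : ℕ) (φ : Finset V → ZMod 2) {P Q : Finset V} (hc : (P ∪ Q).card ≤ k) :
    gg k φ P Q = 0 := by
  unfold gg
  refine sum_eq_zero fun T hT => ?_
  rw [mem_powersetCard_univ] at hT
  rw [ind_neg, mul_zero]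
  intro h
  have := card_le_card h.1
  omega

end g

end Pool.Agent.H77RA
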