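import Pool.Agent.H77RA.C1

/-!
# The complex of pairs of sets and the halving argument
-/

set_option autoImplicit false
set_option linter.unusedSectionVars false

namespace Pool.Agent.H77RA

open Finset

variable {V : Type*} [Fintype V] [LinearOrder V]

/-- the differential on functions of pairs of sets -/
def dP (x : Finset V → Finset V → ZMod 2) (P Q : Finset V) : ZMod 2 :=
  ∑ u ∈ P ∩ Q, (x (P.erase u) Q + x P (Q.erase u) + x (P.erase u) (Q.erase u))

open Classical in
/-- the differential, restricted to pairs with union in `C` -/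
noncomputable def dL (C : Finset V → Prop) (x : Finset V → Finset V → ZMod 2) (P Q : Finset V) : ZMod 2 :=
  if C (P ∪ Q) then dP x P Q else 0

theorem sum_symm_zero (S : Finset V) (F : V → V → ZMod 2) (hF : ∀ u w, F u w = F w u) :
    ∑ u ∈ S, ∑ w ∈ S.erase u, F u w = 0 := by
  rw [sum_sigma']
  refine sum_involution (fun x _ => ⟨x.2, x.1⟩) ?_ ?_ ?_ ?_
  · rintro ⟨u, w⟩ _
    simp only
    rw [hF u w]
    exact z2 _
  · rintro ⟨u, w⟩ h _ he
    simp only [mem_sigma, mem_erase] at h
    simp only [Sigma.mk.injEq, heq_eq_eq] at he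
    exact h.2.1 he.1
  · rintro ⟨u, w⟩ h
    simp only [mem_sigma, mem_erase] at h ⊢
    exact ⟨h.2.2, h.2.1.symm, h.1⟩
  · rintro ⟨u, w⟩ _
    rfl

theorem dP_dP (x : Finset V → Finset V → ZMod 2) (P Q : Finset V) : dP (dP x) P Q = 0 := by
  have h1 : ∀ u, (P.erase u) ∩ Q = (P ∩ Q).erase u := by
    intro u; ext a; simp only [mem_inter, mem_erase]; tauto
  have h2 : ∀ u, P ∩ (Q.erase u) = (P ∩ Q).erase u := by
    intro u; ext a; simp only [mem_inter, mem_erase]; tauto
  have h3 : ∀ u, (P.erase u) ∩ (Q.erase u) = (P ∩ Q).erase u := by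
    intro u; ext a; simp only [mem_inter, mem_erase]; tauto
  unfold dP
  simp only [h1, h2, h3, ← sum_add_distrib]
  refine sum_symm_zero _ (fun u w => x ((P.erase u).erase w) Q + x (P.erase u) (Q.erase w) +
      x ((P.erase u).erase w) (Q.erase w) +
    (x (P.erase w) (Q.erase u) + x P ((Q.erase u).erase w) + x (P.erase w) ((Q.erase u).erase w)) +
    (x ((P.erase u).erase w) (Q.erase u) + x (P.erase u) ((Q.erase u).erase w) +
      x ((P.erase u).erase w) ((Q.erase u).erase w))) ?_
  intro u w
  rw [erase_right_comm (s := P) (a := w) (b := u), erase_right_comm (s := Q) (a := w) (b := u)]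
  ring

variable {C : Finset V → Prop}

theorem dL_pos {x : Finset V → Finset V → ZMod 2} {P Q : Finset V} (h : C (P ∪ Q)) : dL C x P Q = dP x P Q :=
  if_pos h

theorem dL_dL (hC : ∀ A B : Finset V, A ⊆ B → C B → C A) (x : Finset V → Finset V → ZMod 2)
    (P Q : Finset V) : dL C (dL C x) P Q = 0 := by
  by_cases h : C (P ∪ Q)
  · rw [dL_pos h, ← dP_dP x P Q]
    rw [dP, dP]
    refine sum_congr rfl fun u _ => ?_
    rw [dL_pos (hC _ _ (union_subset_union_left (erase_subset u P)) h),
      dL_pos (hC _ _ (union_subset_union_right (erase_subset u Q)) h),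
      dL_pos (hC _ _ (union_subset_union (erase_subset u P) (erase_subset u Q)) h)]
  · rw [dL, if_neg h]

/-- the selection rule -/
def kap (P Q : Finset V) : Prop := ∃ m ∈ P, m ∉ Q ∧ ∀ s, (s ∈ P ↔ s ∉ Q) → m ≤ s

theorem kap_add {P Q : Finset V} (h : P ≠ Q) : ind (kap P Q) + ind (kap Q P) = 1 := by
  have hne : (univ.filter (fun s => s ∈ P ↔ s ∉ Q)).Nonempty := by
    by_contra h1
    rw [not_nonempty_iff_eq_empty] at h1
    apply h
    ext s
    by_contra h2
    have : s ∈ univ.filter (fun s => s ∈ P ↔ s ∉ Q) := by
      rw [mem_filter]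
      exact ⟨mem_univ _, by tauto⟩
    rw [h1] at this
    exact notMem_empty _ this
  set m := (univ.filter (fun s => s ∈ P ↔ s ∉ Q)).min' hne with hm
  have hm1 := min'_mem _ hne
  rw [← hm, mem_filter] at hm1
  have hm2 : ∀ s, (s ∈ P ↔ s ∉ Q) → m ≤ s := fun s hs => by
    rw [hm]; exact min'_le _ s (mem_filter.mpr ⟨mem_univ s, hs⟩)
  by_cases hP : m ∈ P
  · have hQ : m ∉ Q := hm1.2.mp hP
    rw [ind_pos ⟨m, hP, hQ, hm2⟩, ind_neg, add_zero]
    rintro ⟨m', h1, h2, h3⟩
    have h4 := h3 m (by tauto)
    have h5 := hm2 m' (by tauto)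
    have h6 : m = m' := le_antisymm h5 h4
    rw [← h6] at h1
    exact hQ h1
  · have hQ : m ∈ Q := by
      by_contra hQ
      exact hP (hm1.2.mpr hQ)
    rw [ind_pos (p := kap Q P) ⟨m, hQ, hP, fun s hs => hm2 s (by tauto)⟩, ind_neg, zero_add]
    rintro ⟨m', h1, h2, h3⟩
    have h4 := h3 m (by tauto)
    have h5 := hm2 m' (by tauto)
    have h6 : m = m' := le_antisymm h5 h4
    rw [← h6] at h1
    exact hP h1

/-- one half of a symmetric function -/
noncomputable def half (x : Finset V → Finset V → ZMod 2) (P Q : Finset V) : ZMod 2 := ind (kap P Q) * x P Q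

theorem half_add {x : Finset V → Finset V → ZMod 2} (hs : ∀ P Q, x P Q = x Q P) (hd : ∀ P, x P P = 0)
    (P Q : Finset V) : half x P Q + half x Q P = x P Q := by
  unfold half
  by_cases h : P = Q
  · rw [h, hd, mul_zero, add_zero]
  · rw [hs Q P, ← add_mul, kap_add h, one_mul]

theorem dL_add (x y : Finset V → Finset V → ZMod 2) (P Q : Finset V) :
    dL C (fun P Q => x P Q + y P Q) P Q = dL C x P Q + dL C y P Q := by
  unfold dL
  split_ifs
  · unfold dP
    rw [← sum_add_distrib]
    refine sum_congr rfl fun u _ => ?_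
    ring
  · rw [add_zero]

theorem dL_swap (x : Finset V → Finset V → ZMod 2) (P Q : Finset V) :
    dL C (fun P Q => x Q P) P Q = dL C x Q P := by
  unfold dL
  rw [union_comm P Q]
  split_ifs
  · unfold dP
    rw [inter_comm P Q]
    refine sum_congr rfl fun u _ => ?_
    ring
  · rfl

theorem dL_congr {x y : Finset V → Finset V → ZMod 2} (h : ∀ P Q, x P Q = y P Q) (P Q : Finset V) :
    dL C x P Q = dL C y P Q := by
  have : x = y := by funext P Q; exact h P Q
  rw [this]

variable (C) in
/-- the successive functions -/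
noncomputable def xs (k : ℕ) (φ : Finset V → ZMod 2) : ℕ → Finset V → Finset V → ZMod 2
  | 0 => fun P Q => ind (Disjoint P Q ∧ C (P ∪ Q)) * gg k φ P Q
  | j + 1 => dL C (half (xs k φ j))

theorem xs_zero (k : ℕ) (φ : Finset V → ZMod 2) (P Q : Finset V) :
    xs C k φ 0 P Q = ind (Disjoint P Q ∧ C (P ∪ Q)) * gg k φ P Q := rfl

/-- the invariants -/
structure Inv (C : Finset V → Prop) (k : ℕ) (φ : Finset V → ZMod 2) (j : ℕ)
    (x : Finset V → Finset V → ZMod 2) : Prop where
  supp : ∀ P Q, x P Q ≠ 0 → (P ∩ Q).card = j ∧ C (P ∪ Q)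
  symm : ∀ P Q, x P Q = x Q P
  cyc : ∀ P Q, dL C x P Q = 0
  low : ∀ P Q, (P ∪ Q).card ≤ k → x P Q = 0
  top : ∀ P Q, (P ∪ Q).card = k + 1 → C (P ∪ Q) →
    x P Q = φ (P ∪ Q) * ind ((P ∩ Q).card = j ∧ ∀ c ∈ P ∩ Q, ∀ s ∈ P ∪ Q, s ∉ P ∩ Q → c < s)

theorem inv_zero (hC : ∀ A B : Finset V, A ⊆ B → C B → C A) (k : ℕ) (φ : Finset V → ZMod 2)
    (hφ : ∀ R : Finset V, C R → R.card = k + 2 → ∑ v ∈ R, φ (R.erase v) = 0) :
    Inv C k φ 0 (xs C k φ 0) := by
  have hsupp : ∀ P Q, xs C k φ 0 P Q ≠ 0 → Disjoint P Q ∧ C (P ∪ Q) := by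
    intro P Q h
    by_contra h1
    apply h
    rw [xs_zero, ind_neg h1, zero_mul]
  refine ⟨?_, ?_, ?_, ?_, ?_⟩
  · intro P Q h
    obtain ⟨h1, h2⟩ := hsupp P Q h
    rw [disjoint_iff_inter_eq_empty] at h1
    rw [h1]
    exact ⟨rfl, h2⟩
  · intro P Q
    simp only [xs_zero]
    by_cases h : Disjoint P Q ∧ C (P ∪ Q)
    · rw [ind_pos h, ind_pos (p := Disjoint Q P ∧ C (Q ∪ P)) ⟨h.1.symm, by rw [union_comm]; exact h.2⟩, one_mul, one_mul]
      exact gg_symm k φ h.1 fun R hR hR' => hφ R (hC _ _ hR' h.2) hR
    · rw [ind_neg h, ind_neg (p := Disjoint Q P ∧ C (Q ∪ P)) (fun h' => h ⟨h'.1.symm, by rw [union_comm]; exact h'.2⟩), zero_mul, zero_mul]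
  · intro P Q
    unfold dL
    split_ifs with hcl
    · unfold dP
      by_cases h1 : (P ∩ Q).card = 1
      · obtain ⟨u, hu⟩ := card_eq_one.mp h1
        rw [hu, sum_singleton]
        have hu' : u ∈ P ∩ Q := by rw [hu]; exact mem_singleton_self _
        obtain ⟨hP, hQ⟩ := mem_inter.mp hu'
        have hd : ∀ v, v ∈ P → v ∈ Q → v = u := by
          intro v h2 h3
          have : v ∈ P ∩ Q := mem_inter.mpr ⟨h2, h3⟩
          rw [hu] at this
          exact mem_singleton.mp this
        have e1 : Disjoint (P.erase u) Q := by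
          rw [disjoint_left]
          intro v h2 h3
          exact (mem_erase.mp h2).1 (hd v (mem_erase.mp h2).2 h3)
        have e2 : Disjoint P (Q.erase u) := by
          rw [disjoint_left]
          intro v h2 h3
          exact (mem_erase.mp h3).1 (hd v h2 (mem_erase.mp h3).2)
        have e3 : Disjoint (P.erase u) (Q.erase u) := e1.mono_right (erase_subset _ _)
        simp only [xs_zero]
        rw [ind_pos (p := Disjoint (P.erase u) Q ∧ _) ⟨e1, hC _ _ (union_subset_union_left (erase_subset u P)) hcl⟩,
          ind_pos (p := Disjoint P (Q.erase u) ∧ _) ⟨e2, hC _ _ (union_subset_union_right (erase_subset u Q)) hcl⟩,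
          ind_pos (p := Disjoint (P.erase u) (Q.erase u) ∧ _)
            ⟨e3, hC _ _ (union_subset_union (erase_subset u P) (erase_subset u Q)) hcl⟩, one_mul, one_mul, one_mul]
        have h4 := gg_rec k φ (P := P.erase u) (Q := Q.erase u) (v := u) (notMem_erase _ _) (notMem_erase _ _)
        rw [insert_erase hP, insert_erase hQ] at h4
        exact h4
      · refine sum_eq_zero fun u hu => ?_
        obtain ⟨hP, hQ⟩ := mem_inter.mp hu
        obtain ⟨w, hw, hwu⟩ : ∃ w ∈ P ∩ Q, w ≠ u := by
          by_contra h2
          push Not at h2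
          apply h1
          rw [card_eq_one]
          refine ⟨u, ?_⟩
          ext v
          rw [mem_singleton]
          exact ⟨fun h3 => h2 v h3, fun h3 => h3 ▸ hu⟩
        obtain ⟨hwP, hwQ⟩ := mem_inter.mp hw
        have f1 : xs C k φ 0 (P.erase u) Q = 0 := by
          by_contra h
          exact disjoint_left.mp (hsupp _ _ h).1 (mem_erase.mpr ⟨hwu, hwP⟩) hwQ
        have f2 : xs C k φ 0 P (Q.erase u) = 0 := by
          by_contra h
          exact disjoint_left.mp (hsupp _ _ h).1 hwP (mem_erase.mpr ⟨hwu, hwQ⟩)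
        have f3 : xs C k φ 0 (P.erase u) (Q.erase u) = 0 := by
          by_contra h
          exact disjoint_left.mp (hsupp _ _ h).1 (mem_erase.mpr ⟨hwu, hwP⟩) (mem_erase.mpr ⟨hwu, hwQ⟩)
        rw [f1, f2, f3]
        simp
    · rfl
  · intro P Q h
    simp only [xs_zero]
    rw [gg_low k φ h, mul_zero]
  · intro P Q h h'
    simp only [xs_zero]
    rw [gg_top k φ h, mul_comm]
    congr 1
    apply ind_congr
    constructor
    · rintro ⟨h1, _⟩
      rw [disjoint_iff_inter_eq_empty] at h1
      rw [h1]
      exact ⟨rfl, fun c hc => absurd hc (notMem_empty c)⟩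
    · rintro ⟨h1, _⟩
      exact ⟨disjoint_iff_inter_eq_empty.mpr (card_eq_zero.mp h1), h'⟩

theorem half_low {x : Finset V → Finset V → ZMod 2} {P Q : Finset V} (h : x P Q = 0) : half x P Q = 0 := by
  unfold half
  rw [h, mul_zero]

theorem Inv.diag {k : ℕ} {φ : Finset V → ZMod 2} {j : ℕ} {x : Finset V → Finset V → ZMod 2}
    (h : Inv C k φ j x) (hj : j ≤ k) (P : Finset V) : x P P = 0 := by
  by_contra h1
  have h2 := (h.supp P P h1).1
  rw [inter_self] at h2
  exact h1 (h.low P P (by rw [union_self, h2]; exact hj))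

theorem inv_succ (hC : ∀ A B : Finset V, A ⊆ B → C B → C A) {k : ℕ} {φ : Finset V → ZMod 2} {j : ℕ}
    {x : Finset V → Finset V → ZMod 2} (h : Inv C k φ j x) (hj : j ≤ k) :
    Inv C k φ (j + 1) (dL C (half x)) := by
  have hadd := half_add h.symm (h.diag hj)
  refine ⟨?_, ?_, ?_, ?_, ?_⟩
  · intro P Q hne
    unfold dL at hne
    split_ifs at hne with hcl
    · refine ⟨?_, hcl⟩
      unfold dP at hne
      obtain ⟨u, hu, hu'⟩ := exists_ne_zero_of_sum_ne_zero hne
      have h1 : (P.erase u) ∩ Q = (P ∩ Q).erase u := by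
        ext a; simp only [mem_inter, mem_erase]; tauto
      have h2 : P ∩ (Q.erase u) = (P ∩ Q).erase u := by
        ext a; simp only [mem_inter, mem_erase]; tauto
      have h3 : (P.erase u) ∩ (Q.erase u) = (P ∩ Q).erase u := by
        ext a; simp only [mem_inter, mem_erase]; tauto
      have h4 : ((P ∩ Q).erase u).card = j := by
        by_contra h5
        have f1 : x (P.erase u) Q = 0 := by
          by_contra h6
          have := (h.supp _ _ h6).1
          rw [h1] at this
          exact h5 this
        have f2 : x P (Q.erase u) = 0 := by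
          by_contra h6
          have := (h.supp _ _ h6).1
          rw [h2] at this
          exact h5 this
        have f3 : x (P.erase u) (Q.erase u) = 0 := by
          by_contra h6
          have := (h.supp _ _ h6).1
          rw [h3] at this
          exact h5 this
        apply hu'
        rw [half_low f1, half_low f2, half_low f3]
        simp
      rw [card_erase_of_mem hu] at h4
      have h5 : 0 < (P ∩ Q).card := card_pos.mpr ⟨u, hu⟩
      omega
    · exact absurd rfl hne
  · intro P Q
    have h1 := h.cyc P Q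
    have h2 := dL_swap (C := C) (half x) P Q
    have h3 := dL_add (C := C) (half x) (fun P Q => half x Q P) P Q
    rw [dL_congr hadd, h1, h2] at h3
    rw [← sub_eq_zero, CharTwo.sub_eq_add]
    exact h3.symm
  · intro P Q
    exact dL_dL hC _ P Q
  · intro P Q hc
    unfold dL
    split_ifs
    · unfold dP
      refine sum_eq_zero fun u _ => ?_
      rw [half_low (h.low _ _ ((card_le_card (union_subset_union_left (erase_subset u P))).trans hc)),
        half_low (h.low _ _ ((card_le_card (union_subset_union_right (erase_subset u Q))).trans hc)),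
        half_low (h.low _ _ ((card_le_card (union_subset_union (erase_subset u P) (erase_subset u Q))).trans hc))]
      simp
    · rfl
  · intro P Q hc hcl
    unfold dL
    rw [if_pos hcl]
    unfold dP
    -- each term
    have hterm : ∀ u ∈ P ∩ Q, half x (P.erase u) Q + half x P (Q.erase u) + half x (P.erase u) (Q.erase u) =
        φ (P ∪ Q) * ind (((P ∩ Q).erase u).card = j ∧ (∀ c ∈ P ∩ Q, c ≠ u → ∀ s ∈ P ∪ Q, (s ∉ P ∩ Q ∨ s = u) → c < s) ∧
          ∀ s ∈ P ∪ Q, s ∉ P ∩ Q → u < s) := by
      intro u hu
      obtain ⟨hP, hQ⟩ := mem_inter.mp hu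
      have i1 : (P.erase u) ∩ Q = (P ∩ Q).erase u := by
        ext a; simp only [mem_inter, mem_erase]; tauto
      have i2 : P ∩ (Q.erase u) = (P ∩ Q).erase u := by
        ext a; simp only [mem_inter, mem_erase]; tauto
      have u1 : (P.erase u) ∪ Q = P ∪ Q := by
        ext a; simp only [mem_union, mem_erase]
        constructor
        · tauto
        · by_cases ha : a = u
          · rw [ha]; tauto
          · tauto
      have u2 : P ∪ (Q.erase u) = P ∪ Q := by
        ext a; simp only [mem_union, mem_erase]
        constructor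
        · tauto
        · by_cases ha : a = u
          · rw [ha]; tauto
          · tauto
      have h3 : half x (P.erase u) (Q.erase u) = 0 := by
        apply half_low
        apply h.low
        have h4 : (P.erase u) ∪ (Q.erase u) = (P ∪ Q).erase u := by
          ext a; simp only [mem_union, mem_erase]; tauto
        rw [h4, card_erase_of_mem (mem_union_left _ hP), hc]
        rfl
      rw [h3, add_zero]
      have t1 := h.top (P.erase u) Q (by rw [u1]; exact hc) (by rw [u1]; exact hcl)
      have t2 := h.top P (Q.erase u) (by rw [u2]; exact hc) (by rw [u2]; exact hcl)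
      rw [i1, u1] at t1
      rw [i2, u2] at t2
      unfold half
      rw [t1, t2]
      by_cases hA : ((P ∩ Q).erase u).card = j ∧ ∀ c ∈ (P ∩ Q).erase u, ∀ s ∈ P ∪ Q, s ∉ (P ∩ Q).erase u → c < s
      · rw [ind_pos hA, mul_one]
        rw [← add_mul, mul_comm]
        congr 1
        by_cases hB : ∀ s ∈ P ∪ Q, s ∉ P ∩ Q → u < s
        · rw [ind_pos (p := _ ∧ _)]
          · have k1 : kap P (Q.erase u) := by
              refine ⟨u, hP, notMem_erase u Q, fun s hs => ?_⟩
              by_cases hsu : s = u
              · rw [hsu]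
              · have hs1 : s ∈ P ∪ Q := by
                  by_cases hsP : s ∈ P
                  · exact mem_union_left _ hsP
                  · have := hs.not.mp hsP
                    rw [not_not, mem_erase] at this
                    exact mem_union_right _ this.2
                have hs2 : s ∉ P ∩ Q := by
                  intro h5
                  obtain ⟨h6, h7⟩ := mem_inter.mp h5
                  exact hs.mp h6 (mem_erase.mpr ⟨hsu, h7⟩)
                exact (hB s hs1 hs2).le
            have k2 : ¬ kap (P.erase u) Q := by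
              rintro ⟨m, hm1, hm2, hm3⟩
              have h4 := hm3 u (by
                constructor
                · intro h5; exact absurd h5 (notMem_erase u P)
                · intro h5; exact absurd hQ h5)
              have h5 : m ∈ P ∪ Q := mem_union_left _ (mem_erase.mp hm1).2
              have h6 : m ∉ P ∩ Q := fun h7 => hm2 (mem_inter.mp h7).2
              exact absurd (hB m h5 h6) (not_lt.mpr h4)
            rw [ind_pos k1, ind_neg k2, zero_add]
          · refine ⟨hA.1, ?_, hB⟩
            intro c hc1 hcu s hs1 hs2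
            refine hA.2 c (mem_erase.mpr ⟨hcu, hc1⟩) s hs1 ?_
            intro h4
            obtain ⟨h5, h6⟩ := mem_erase.mp h4
            rcases hs2 with h7 | h7
            · exact h7 h6
            · exact h5 h7
        · rw [ind_neg (p := _ ∧ _) (fun h4 => hB h4.2.2)]
          push Not at hB
          obtain ⟨s0, hs0, hs0', hs0''⟩ := hB
          have hs0u : s0 < u := lt_of_le_of_ne hs0'' (fun h5 => hs0' (h5 ▸ hu))
          -- the two selections agree
          have : kap (P.erase u) Q ↔ kap P (Q.erase u) := by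
            constructor
            · rintro ⟨m, hm1, hm2, hm3⟩
              refine ⟨m, (mem_erase.mp hm1).2, fun h5 => hm2 (mem_erase.mp h5).2, fun s hs => ?_⟩
              by_cases hsu : s = u
              · have h5 := hm3 s0 (by
                  rw [mem_erase]
                  rw [mem_inter] at hs0'
                  rw [mem_union] at hs0
                  constructor
                  · intro h6 h7; exact hs0' ⟨h6.2, h7⟩
                  · intro h6
                    refine ⟨hs0u.ne, ?_⟩
                    tauto)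
                rw [hsu]
                exact h5.trans hs0u.le
              · apply hm3
                rw [mem_erase] at hs ⊢
                tauto
            · rintro ⟨m, hm1, hm2, hm3⟩
              have hmu : m ≤ s0 := by
                apply hm3
                rw [mem_erase]
                rw [mem_inter] at hs0'
                rw [mem_union] at hs0
                constructor
                · intro h6 h7; exact hs0' ⟨h6, h7.2⟩
                · intro h6
                  by_contra h7
                  exact h6 ⟨hs0u.ne, hs0.resolve_left h7⟩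
              have hmu' : m ≠ u := (lt_of_le_of_lt hmu hs0u).ne
              refine ⟨m, mem_erase.mpr ⟨hmu', hm1⟩, fun h5 => hm2 (mem_erase.mpr ⟨hmu', h5⟩), fun s hs => ?_⟩
              by_cases hsu : s = u
              · rw [hsu]
                exact hmu.trans hs0u.le
              · apply hm3
                rw [mem_erase] at hs ⊢
                tauto
          rw [ind_congr this]
          exact z2 _
      · rw [ind_neg hA, ind_neg (p := _ ∧ _)]
        · simp
        · rintro ⟨h4, h5, _⟩
          apply hA
          refine ⟨h4, fun c hc1 s hs1 hs2 => ?_⟩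
          obtain ⟨h6, h7⟩ := mem_erase.mp hc1
          refine h5 c h7 h6 s hs1 ?_
          by_cases hsu : s = u
          · right; exact hsu
          · left; intro h8; exact hs2 (mem_erase.mpr ⟨hsu, h8⟩)
    rw [sum_congr rfl hterm, ← mul_sum]
    congr 1
    by_cases hne : (P ∩ Q).Nonempty
    · set m := (P ∩ Q).max' hne with hm
      have hm1 : m ∈ P ∩ Q := max'_mem _ hne
      have hm2 : ∀ c ∈ P ∩ Q, c ≤ m := fun c hc => le_max' _ _ hc
      rw [sum_eq_single m]
      · apply ind_congr
        rw [card_erase_of_mem hm1]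
        have hpos : 0 < (P ∩ Q).card := card_pos.mpr hne
        constructor
        · rintro ⟨h1, h2, h3⟩
          refine ⟨by omega, fun c hc s hs hs' => ?_⟩
          exact lt_of_le_of_lt (hm2 c hc) (h3 s hs hs')
        · rintro ⟨h1, h2⟩
          refine ⟨by omega, fun c hc hcm s hs hs' => ?_, fun s hs hs' => h2 m hm1 s hs hs'⟩
          rcases hs' with h3 | h3
          · exact h2 c hc s hs h3
          · rw [h3]
            exact lt_of_le_of_ne (hm2 c hc) hcm
      · intro u hu hum
        apply ind_neg
        rintro ⟨_, h2, _⟩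
        have h3 := h2 m hm1 hum.symm u (mem_union_left _ (mem_inter.mp hu).1) (Or.inr rfl)
        exact absurd (hm2 u hu) (not_le.mpr h3)
      · intro h; exact absurd hm1 h
    · rw [not_nonempty_iff_eq_empty] at hne
      rw [hne, sum_empty, ind_neg]
      rintro ⟨h1, _⟩
      rw [card_empty] at h1
      omega

theorem inv_all (hC : ∀ A B : Finset V, A ⊆ B → C B → C A) (k : ℕ) (φ : Finset V → ZMod 2)
    (hφ : ∀ R : Finset V, C R → R.card = k + 2 → ∑ v ∈ R, φ (R.erase v) = 0) (j : ℕ) (hj : j ≤ k + 1) :
    Inv C k φ j (xs C k φ j) := by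
  induction j with
  | zero => exact inv_zero hC k φ hφ
  | succ j ih => exact inv_succ hC (ih (by omega)) (by omega)

/-- the last function on the diagonal -/
theorem xs_last (hC : ∀ A B : Finset V, A ⊆ B → C B → C A) (k : ℕ) (φ : Finset V → ZMod 2)
    (hφ : ∀ R : Finset V, C R → R.card = k + 2 → ∑ v ∈ R, φ (R.erase v) = 0) {P : Finset V}
    (hP : P.card = k + 1) (hP' : C P) : xs C k φ (k + 1) P P = φ P := by
  have h := (inv_all hC k φ hφ (k + 1) le_rfl).top P P (by rw [union_self]; exact hP) (by rw [union_self]; exact hP')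
  rw [union_self, inter_self] at h
  rw [h, ind_pos, mul_one]
  exact ⟨hP, fun c _ s hs hs' => absurd hs hs'⟩

end Pool.Agent.H77RA
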