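import Pool.Agent.H77RA.E3

/-!
# Aspherical manifolds whose fundamental group is a right-angled Artin group: all degrees above the middle

`RAAG G.Adj` is the right-angled Artin group of the finite graph `G`: one generator for every vertex, adjacent vertices
commute. `HasL2Betti K k b`: the `k`-th `L²`-Betti number of the group `K` is `b`.

`W` is a contractible Hausdorff topological manifold of dimension `n = finrank E`, with boundary and corners allowed (a
charted space over the model `H` of a model with corners `I`; no smoothness is assumed, neither of `W` nor of the action).
For a compact aspherical `n`-manifold `M` with boundary and with right-angled Artin fundamental group one takes for `W` the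
universal cover of `M`, and the theorem says that the `L²`-Betti numbers of `M` in all degrees above the middle dimension
vanish.
-/

set_option autoImplicit false

namespace Pool.Agent.H77RA.RightAngled

open Pool.Agent.W326.DU Pool.Agent.N496.CV

/-- A right-angled Artin group which acts properly discontinuously on a contractible topological `n`-manifold has
vanishing `L²`-Betti numbers in all degrees `k > n / 2`. -/
theorem result : ∀ (V : Type) [Fintype V] (G : SimpleGraph V) (E : Type) [NormedAddCommGroup E] [NormedSpace ℝ E]
    [FiniteDimensional ℝ E] (H : Type) [TopologicalSpace H] (_ : ModelWithCorners ℝ E H) (W : Type) [TopologicalSpace W]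
    [T2Space W] [ChartedSpace H W] [ContractibleSpace W] [MulAction (RAAG G.Adj) W]
    [ContinuousConstSMul (RAAG G.Adj) W] [ProperlyDiscontinuousSMul (RAAG G.Adj) W] (k : ℕ),
    Module.finrank ℝ E < 2 * k → HasL2Betti (RAAG G.Adj) k 0 := by
  intro V _ G E _ _ _ H _ I W _ _ _ _ _ _ _ k hk
  exact Pool.Agent.H77RA.main3 G I (W := W) hk

end Pool.Agent.H77RA.RightAngled
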